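import Mathlib

/-!
Filtrations of groups, and bounded generation of alternating groups by two alternating subgroups.
-/

namespace Pool.Agent.K1H7.EP
open Finset Equiv Equiv.Perm

set_option linter.unusedSectionVars false

/-- a length filtration of a group: `Q m g` is to be read as `g` has length at most `m` -/
structure Filt (G : Type*) [Group G] where
  Q : ℕ → G → Prop
  one : Q 0 1
  mul : ∀ {m m' : ℕ} {g g' : G}, Q m g → Q m' g' → Q (m + m') (g * g')
  inv : ∀ {m : ℕ} {g : G}, Q m g → Q m g⁻¹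
  mono : ∀ {m m' : ℕ} {g : G}, m ≤ m' → Q m g → Q m' g

namespace Filt
variable {G H : Type*} [Group G] [Group H] (F : Filt G)

lemma pow {m : ℕ} {g : G} (h : F.Q m g) : ∀ k : ℕ, F.Q (k * m) (g ^ k) := by
  intro k
  induction k with
  | zero => simpa using F.one
  | succ k ih =>
    rw [pow_succ, add_mul, one_mul]
    exact F.mul ih h

lemma conj {m m' : ℕ} {g x : G} (h : F.Q m g) (h' : F.Q m' x) : F.Q (m' + 2 * m) (g * x * g⁻¹) := by
  have := F.mul (F.mul h h') (F.inv h)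
  exact F.mono (by omega) this

lemma comm {m m' : ℕ} {g x : G} (h : F.Q m g) (h' : F.Q m' x) :
    F.Q (2 * (m + m')) (g * x * g⁻¹ * x⁻¹) := by
  have := F.mul (F.mul (F.mul h h') (F.inv h)) (F.inv h')
  exact F.mono (by omega) this

/-- the filtration pulled back by a homomorphism -/
def comap (φ : H →* G) : Filt H where
  Q m h := F.Q m (φ h)
  one := by
    show F.Q 0 (φ 1)
    rw [map_one]; exact F.one
  mul := by
    intro m m' g g' h h'
    show F.Q (m + m') (φ (g * g'))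
    rw [map_mul]; exact F.mul h h'
  inv := by
    intro m g h
    show F.Q m (φ g⁻¹)
    rw [map_inv]; exact F.inv h
  mono := fun h h' => F.mono h h'

end Filt

section
variable {Ω : Type*} [DecidableEq Ω]

lemma ext_perm (U : Finset Ω) (f : Ω → Ω) : ∀ A : Finset Ω, A ⊆ U → Set.InjOn f A →
    (∀ a ∈ A, f a ∈ U) → ∃ π : Perm Ω, (∀ a ∈ A, π a = f a) ∧ ∀ z, z ∉ U → π z = z := by
  intro A
  induction A using Finset.induction_on with
  | empty => intro _ _ _; exact ⟨1, by simp, by simp⟩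
  | insert a A ha ih =>
    intro h1 h2 h3
    obtain ⟨π, hπ1, hπ2⟩ := ih ((Finset.subset_insert _ _).trans h1) (h2.mono (by simp))
      (fun x hx => h3 x (Finset.mem_insert_of_mem hx))
    have hπU : ∀ z ∈ U, π z ∈ U := by
      intro z hz
      by_contra h
      have h' := π.injective (hπ2 _ h)
      rw [h'] at h
      exact h hz
    refine ⟨swap (π a) (f a) * π, ?_, ?_⟩
    · intro x hx
      rw [Perm.mul_apply]
      rcases Finset.mem_insert.1 hx with rfl | hx
      · rw [swap_apply_left]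
      · rw [hπ1 x hx]
        refine swap_apply_of_ne_of_ne ?_ ?_
        · rw [← hπ1 x hx]
          intro h
          exact ha (π.injective h ▸ hx)
        · intro h
          exact ha ((h2 (by simp [hx]) (by simp) h) ▸ hx)
    · intro z hz
      rw [Perm.mul_apply, hπ2 z hz]
      refine swap_apply_of_ne_of_ne ?_ ?_
      · rintro rfl
        exact hz (hπU a (h1 (Finset.mem_insert_self _ _)))
      · rintro rfl
        exact hz (h3 a (Finset.mem_insert_self _ _))

lemma exists_inj (A B : Finset Ω) (h : #A ≤ #B) : ∃ f : Ω → Ω, Set.InjOn f A ∧ ∀ a ∈ A, f a ∈ B := by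
  classical
  obtain ⟨e⟩ : Nonempty (A ↪ B) := Function.Embedding.nonempty_of_card_le (by simpa using h)
  refine ⟨fun x => if hx : x ∈ A then (e ⟨x, hx⟩ : Ω) else x, ?_, ?_⟩
  · intro x hx y hy hxy
    have hx' : x ∈ A := hx
    have hy' : y ∈ A := hy
    simp only [hx', hy', dif_pos] at hxy
    have := e.injective (Subtype.ext hxy)
    exact congrArg Subtype.val this
  · intro a ha
    simp only [ha, dif_pos]
    exact (e ⟨a, ha⟩).2

variable [Fintype Ω]

/-- even permutations supported in `U` -/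
def AU (U : Finset Ω) (g : Perm Ω) : Prop := sign g = 1 ∧ ∀ y, y ∉ U → g y = y

lemma AU.mono {U U' : Finset Ω} (h : U ⊆ U') {g : Perm Ω} (hg : AU U g) : AU U' g :=
  ⟨hg.1, fun y hy => hg.2 y (fun h' => hy (h h'))⟩

lemma AU.inv {U : Finset Ω} {g : Perm Ω} (hg : AU U g) : AU U g⁻¹ := by
  refine ⟨by rw [Perm.sign_inv]; exact hg.1, fun y hy => ?_⟩
  rw [Perm.inv_eq_iff_eq]
  exact (hg.2 y hy).symm

/-- **bounded generation** -/
theorem bg (U U' : Finset Ω) (h1 : #(U' \ U) ≤ #(U ∩ U')) (h2 : 2 ≤ #(U ∩ U')) (g : Perm Ω)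
    (hg : AU (U ∪ U') g) :
    ∃ u₁ u' u₂ : Perm Ω, AU U u₁ ∧ AU U' u' ∧ AU U u₂ ∧ g = u₁ * u' * u₂ := by
  obtain ⟨p, hp, q, hq, hpq⟩ := Finset.one_lt_card.1 (show 1 < #(U ∩ U') by omega)
  rw [Finset.mem_inter] at hp hq
  obtain ⟨D, hD⟩ : ∃ D, D = U' \ U := ⟨_, rfl⟩
  have hDm : ∀ y, y ∈ D ↔ y ∈ U' ∧ y ∉ U := by intro y; rw [hD, Finset.mem_sdiff]
  obtain ⟨A, hA⟩ : ∃ A, A = D.image g ∩ U := ⟨_, rfl⟩
  have hAm : ∀ y, y ∈ A ↔ (∃ z ∈ D, g z = y) ∧ y ∈ U := by
    intro y; rw [hA, Finset.mem_inter, Finset.mem_image]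
  have hAc : #A ≤ #(U ∩ U') := by
    refine le_trans ?_ h1
    rw [hA, ← hD]
    exact (Finset.card_le_card Finset.inter_subset_left).trans Finset.card_image_le
  obtain ⟨f, hf1, hf2⟩ := exists_inj A (U ∩ U') hAc
  obtain ⟨v0, hv1, hv2⟩ := ext_perm U f A (fun y hy => ((hAm y).1 hy).2) hf1
    (fun a ha => (Finset.mem_inter.1 (hf2 a ha)).1)
  -- fix the parity
  obtain ⟨v, hvU, hvA⟩ : ∃ v : Perm Ω, AU U v ∧ ∀ y ∈ A, v y ∈ U ∩ U' := by
    rcases Int.units_eq_one_or (sign v0) with h | h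
    · exact ⟨v0, ⟨h, hv2⟩, fun y hy => by rw [hv1 y hy]; exact hf2 y hy⟩
    · refine ⟨swap p q * v0, ⟨?_, ?_⟩, ?_⟩
      · rw [Perm.sign_mul, h, Perm.sign_swap hpq]; decide
      · intro y hy
        rw [Perm.mul_apply, hv2 y hy]
        refine swap_apply_of_ne_of_ne ?_ ?_
        · rintro rfl; exact hy hp.1
        · rintro rfl; exact hy hq.1
      · intro y hy
        rw [Perm.mul_apply, hv1 y hy]
        by_cases e1 : f y = p
        · rw [e1, swap_apply_left]; exact Finset.mem_inter.2 hq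
        by_cases e2 : f y = q
        · rw [e2, swap_apply_right]; exact Finset.mem_inter.2 hp
        rw [swap_apply_of_ne_of_ne e1 e2]
        exact hf2 y hy
  have hw : ∀ y ∈ D, v (g y) ∈ U' := by
    intro y hy
    by_cases h : g y ∈ U
    · exact (Finset.mem_inter.1 (hvA _ ((hAm _).2 ⟨⟨y, hy, rfl⟩, h⟩))).2
    · rw [hvU.2 _ h]
      by_contra h'
      have h3 : g (g y) = g y := hg.2 _ (by
        rw [Finset.mem_union]; push Not; exact ⟨h, h'⟩)
      have h4 := g.injective h3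
      rw [h4] at h'
      exact h' ((hDm y).1 hy).1
  obtain ⟨u0, hu1, hu2⟩ := ext_perm U' (fun y => v (g y)) D (fun y hy => ((hDm y).1 hy).1)
    (fun x _ y _ hxy => g.injective (v.injective hxy)) hw
  obtain ⟨u, huU, huD⟩ : ∃ u : Perm Ω, AU U' u ∧ ∀ y ∈ D, u y = v (g y) := by
    rcases Int.units_eq_one_or (sign u0) with h | h
    · exact ⟨u0, ⟨h, hu2⟩, fun y hy => hu1 y hy⟩
    · refine ⟨u0 * swap p q, ⟨?_, ?_⟩, ?_⟩
      · rw [Perm.sign_mul, h, Perm.sign_swap hpq]; decide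
      · intro y hy
        rw [Perm.mul_apply, swap_apply_of_ne_of_ne, hu2 y hy]
        · rintro rfl; exact hy hp.2
        · rintro rfl; exact hy hq.2
      · intro y hy
        rw [Perm.mul_apply, swap_apply_of_ne_of_ne, hu1 y hy]
        · rintro rfl; exact ((hDm _).1 hy).2 hp.1
        · rintro rfl; exact ((hDm _).1 hy).2 hq.1
  refine ⟨v⁻¹, u, u⁻¹ * v * g, hvU.inv, huU, ⟨?_, ?_⟩, by group⟩
  · rw [Perm.sign_mul, Perm.sign_mul, Perm.sign_inv, huU.1, hvU.1, hg.1]; decide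
  · intro y hy
    rw [Perm.mul_apply, Perm.mul_apply, Perm.inv_eq_iff_eq]
    by_cases hyU : y ∈ U'
    · exact (huD y ((hDm y).2 ⟨hyU, hy⟩)).symm
    · rw [hg.2 y (by rw [Finset.mem_union]; push Not; exact ⟨hy, hyU⟩), hvU.2 y hy, huU.2 y hyU]

/-- all even permutations supported in `U` have length at most `m` -/
def Cov (F : Filt (Perm Ω)) (m : ℕ) (U : Finset Ω) : Prop := ∀ g, AU U g → F.Q m g

variable {F : Filt (Perm Ω)}

lemma Cov.sub {m : ℕ} {U U' : Finset Ω} (h : Cov F m U') (hU : U ⊆ U') : Cov F m U :=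
  fun g hg => h g (hg.mono hU)

lemma Cov.up {m m' : ℕ} {U : Finset Ω} (h : Cov F m U) (hm : m ≤ m') : Cov F m' U :=
  fun g hg => F.mono hm (h g hg)

lemma Cov.join {m m' : ℕ} {U U' : Finset Ω} (h : Cov F m U) (h' : Cov F m' U')
    (h1 : #(U' \ U) ≤ #(U ∩ U')) (h2 : 2 ≤ #(U ∩ U')) : Cov F (2 * m + m') (U ∪ U') := by
  intro g hg
  obtain ⟨u₁, u', u₂, e1, e2, e3, rfl⟩ := bg U U' h1 h2 g hg
  exact F.mono (by omega) (F.mul (F.mul (h _ e1) (h' _ e2)) (h _ e3))

lemma Cov.conj {m r : ℕ} {U : Finset Ω} (h : Cov F m U) {x : Perm Ω} (hx : F.Q r x) :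
    Cov F (m + 2 * r) (U.image x) := by
  intro g hg
  have h1 : AU U (x⁻¹ * g * x) := by
    refine ⟨?_, fun y hy => ?_⟩
    · rw [Perm.sign_mul, Perm.sign_mul, Perm.sign_inv, hg.1, mul_one, ← sq]
      exact Int.units_sq _
    · rw [Perm.mul_apply, Perm.mul_apply, Perm.inv_eq_iff_eq]
      refine hg.2 _ ?_
      rw [Finset.mem_image]
      rintro ⟨z, hz, hzy⟩
      exact hy (x.injective hzy ▸ hz)
  have h2 := F.conj hx (h _ h1)
  have e : x * (x⁻¹ * g * x) * x⁻¹ = g := by group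
  rwa [e] at h2

end

end Pool.Agent.K1H7.EP
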