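import Pool.Agent.K1H7.EP.Slots

/-!
From one involution and a rotation to the whole alternating group of the blocks.
-/

namespace Pool.Agent.K1H7.EP
open Finset Equiv Equiv.Perm

set_option linter.unusedSectionVars false

noncomputable section

/-- a bounded generation property of a tuple -/
def KZp {S K : ℕ} (x : Fin K → Perm (Fin S)) (C : ℕ) (F : Filt (Perm (Fin S))) : Prop :=
  ∀ m, (∀ i, F.Q m (x i)) → ∀ g, sign g = 1 → F.Q (C * m) g

section
variable {S L : ℕ}

/-- the points of the first two blocks of the window -/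
def psi0 (hS : S = 2 * L) : Fin S ↪ Fin 3 × Fin L :=
  ((finCongr hS).trans finProdFinEquiv.symm).toEmbedding.trans
    ((Fin.castLEEmb (by norm_num : 2 ≤ 3)).prodMap (Function.Embedding.refl _))

lemma psi0_ne (hS : S = 2 * L) (z : Fin S) (y : Fin L) : ((2 : Fin 3), y) ≠ psi0 hS z := by
  intro h
  have h1 := congrArg (fun w : Fin 3 × Fin L => (w.1 : ℕ)) h
  have h2 := (((finCongr hS).trans finProdFinEquiv.symm) z).1.isLt
  have h3 : (2 : ℕ) = ((((finCongr hS).trans finProdFinEquiv.symm) z).1 : ℕ) := h1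
  omega

lemma psi0_range (hS : S = 2 * L) (w : Fin 3 × Fin L) (h : w.1 ≠ 2) : ∃ z, w = psi0 hS z := by
  obtain ⟨i, y⟩ := w
  have hi : (i : ℕ) < 2 := by
    have h1 := i.isLt
    have h2 : (i : ℕ) ≠ 2 := fun h3 => h (Fin.ext h3)
    omega
  refine ⟨((finCongr hS).trans finProdFinEquiv.symm).symm (⟨i, hi⟩, y), ?_⟩
  change (i, y) = (Fin.castLE (by norm_num : 2 ≤ 3) (((finCongr hS).trans finProdFinEquiv.symm)
    (((finCongr hS).trans finProdFinEquiv.symm).symm (⟨i, hi⟩, y))).1,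
      (((finCongr hS).trans finProdFinEquiv.symm)
        (((finCongr hS).trans finProdFinEquiv.symm).symm (⟨i, hi⟩, y))).2)
  rw [Equiv.apply_symm_apply]
  rfl

/-- choice of the involutions -/
lemma invols {K : ℕ} (hS : S = 2 * L) (hL : 4 ≤ L) (x : Fin K → Perm (Fin S))
    (hx : ∀ i, sign (x i) = 1) :
    ∃ s : Fin K × Fin 4 → Perm (Fin 3 × Fin L), (∀ l, s l * s l = 1) ∧ (∀ l, sign (s l) = 1) ∧
      ∀ i, ve (psi0 hS) (x i) = (s (i, 0) * s (i, 1) * (s (i, 0))⁻¹ * (s (i, 1))⁻¹) *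
        (s (i, 2) * s (i, 3) * (s (i, 2))⁻¹ * (s (i, 3))⁻¹) := by
  have key : ∀ i, ∃ s : Fin 4 → Perm (Fin 3 × Fin L), (∀ c, s c * s c = 1) ∧
      (∀ c, sign (s c) = 1) ∧ ve (psi0 hS) (x i) =
        (s 0 * s 1 * (s 0)⁻¹ * (s 1)⁻¹) * (s 2 * s 3 * (s 2)⁻¹ * (s 3)⁻¹) := by
    intro i
    have hne : ∀ (a b : ℕ) (ha : a < L) (hb : b < L), a ≠ b →
        ((2 : Fin 3), (⟨a, ha⟩ : Fin L)) ≠ ((2 : Fin 3), (⟨b, hb⟩ : Fin L)) := by
      intro a b ha hb hab h
      apply hab
      have := congrArg (fun w : Fin 3 × Fin L => (w.2 : ℕ)) h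
      exact this
    have hfix : ∀ y : Fin L, ve (psi0 hS) (x i) ((2 : Fin 3), y) = ((2 : Fin 3), y) := fun y =>
      ve_not _ _ _ fun z => psi0_ne hS z y
    exact two_comm (ve (psi0 hS) (x i)) (by rw [ve_sign]; exact hx i)
      (2, ⟨0, by omega⟩) (2, ⟨1, by omega⟩) (2, ⟨2, by omega⟩) (2, ⟨3, by omega⟩)
      (hne _ _ _ _ (by norm_num)) (hne _ _ _ _ (by norm_num)) (hne _ _ _ _ (by norm_num))
      (hne _ _ _ _ (by norm_num)) (hne _ _ _ _ (by norm_num)) (hne _ _ _ _ (by norm_num))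
      (hfix _) (hfix _) (hfix _) (hfix _)
  choose s h1 h2 h3 using key
  exact ⟨fun l => s l.1 l.2, fun l => h1 _ _, fun l => h2 _ _, fun i => h3 i⟩

/-- the constant -/
def Cb (C M : ℕ) : ℕ := 3 ^ M * (C * (12 * M + 8) + 2 * M)

variable {M : ℕ} [NeZero M]

theorem blocks {K : ℕ} (hS : S = 2 * L) (hL : 4 ≤ L) (hM : 3 ≤ M) (x : Fin K → Perm (Fin S))
    {τ : Fin K × Fin 4 → ZMod M} (hτ : Slots τ) (s : Fin K × Fin 4 → Perm (Fin 3 × Fin L))
    (hs : ∀ i, ve (psi0 hS) (x i) = (s (i, 0) * s (i, 1) * (s (i, 0))⁻¹ * (s (i, 1))⁻¹) *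
        (s (i, 2) * s (i, 3) * (s (i, 2))⁻¹ * (s (i, 3))⁻¹))
    (F : Filt (Perm (ZMod M × Fin L))) (C : ℕ)
    (hF : ∀ ψ : Fin S ↪ ZMod M × Fin L, KZp x C (F.comap (ve ψ)))
    (m : ℕ) (h1 : F.Q m (hall hτ s)) (h2 : F.Q m (rt 1)) :
    Cov F (Cb C M * m) Finset.univ := by
  obtain ⟨ψ, hψ⟩ : ∃ ψ : Fin S ↪ ZMod M × Fin L, ψ = (psi0 hS).trans (J0 hM) := ⟨_, rfl⟩
  have e1 : ∀ i, F.Q ((12 * M + 8) * m) (ve ψ (x i)) := by
    intro i
    have a1 := comm_Q hτ hM s (i, 0) (i, 1) (by simp) F h1 h2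
    have a2 := comm_Q hτ hM s (i, 2) (i, 3) (by simp) F h1 h2
    have a3 := F.mul a1 a2
    rw [← map_mul, ← hs i, ve_ve, ← hψ] at a3
    refine F.mono ?_ a3
    ring_nf
    rfl
  have e2 : ∀ g : Perm (Fin S), sign g = 1 → F.Q (C * ((12 * M + 8) * m)) (ve ψ g) :=
    hF ψ _ e1
  obtain ⟨c, hc⟩ : ∃ c, c = C * ((12 * M + 8) * m) := ⟨_, rfl⟩
  rw [← hc] at e2
  -- the first window
  obtain ⟨X, hX⟩ : ∃ X : Finset (ZMod M × Fin L), X = Finset.univ.image ψ := ⟨_, rfl⟩
  have e3 : Cov F c X := by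
    intro g hg
    obtain ⟨e, he⟩ := ve_surj ψ g (fun x hx => hg.2 x (by
      rw [hX, Finset.mem_image]
      rintro ⟨y, -, hy⟩
      exact hx y hy.symm))
    rw [← he]
    refine e2 e ?_
    rw [← ve_sign ψ e, he]
    exact hg.1
  have hXm : ∀ (j : ℕ) (y : Fin L), j < 2 → ((j : ZMod M), y) ∈ X := by
    intro j y hj
    rw [hX, Finset.mem_image]
    obtain ⟨z, hz⟩ := psi0_range hS ((⟨j, by omega⟩ : Fin 3), y) (by
      intro h
      have := congrArg Fin.val h
      simp at this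
      omega)
    refine ⟨z, Finset.mem_univ _, ?_⟩
    rw [hψ]
    change J0 hM (psi0 hS z) = _
    rw [← hz]
    rfl
  -- its translates
  obtain ⟨W, hW⟩ : ∃ W : ℕ → Finset (ZMod M × Fin L), W = fun j : ℕ =>
    Finset.univ.filter (fun z : ZMod M × Fin L => z.1 = (j : ZMod M) ∨
      z.1 = ((j + 1 : ℕ) : ZMod M)) := ⟨_, rfl⟩
  have hWm : ∀ j z, z ∈ W j ↔ z.1 = (j : ZMod M) ∨ z.1 = ((j + 1 : ℕ) : ZMod M) := by
    intro j z
    rw [hW]; simp
  have e4 : ∀ j, Cov F (c + 2 * (M * m)) (W j) := by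
    intro j
    refine (e3.conj (rt_Q F h2 (j : ZMod M))).sub ?_
    intro z hz
    rw [Finset.mem_image]
    rcases (hWm j z).1 hz with h | h
    · refine ⟨(((0 : ℕ) : ZMod M), z.2), hXm _ _ (by norm_num), ?_⟩
      rw [rt_apply]
      ext1
      · simp [h]
      · rfl
    · refine ⟨(((1 : ℕ) : ZMod M), z.2), hXm _ _ (by norm_num), ?_⟩
      rw [rt_apply]
      ext1
      · simp [h, add_comm]
      · rfl
  -- the union of the first windows
  obtain ⟨U, hU⟩ : ∃ U : ℕ → Finset (ZMod M × Fin L), U = fun j : ℕ =>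
    Finset.univ.filter (fun z : ZMod M × Fin L => z.1.val ≤ j) := ⟨_, rfl⟩
  have hUm : ∀ j z, z ∈ U j ↔ z.1.val ≤ j := by
    intro j z
    rw [hU]; simp
  have e5 : ∀ j, j + 1 < M → Cov F (3 ^ j * (c + 2 * (M * m))) (U (j + 1)) := by
    intro j
    induction j with
    | zero =>
      intro _
      have := e4 0
      rw [pow_zero, one_mul]
      refine this.sub ?_
      intro z hz
      rw [hWm]
      rw [hUm] at hz
      rcases Nat.lt_or_ge z.1.val 1 with h | h
      · left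
        rw [← ZMod.natCast_zmod_val z.1]
        congr 1; omega
      · right
        rw [← ZMod.natCast_zmod_val z.1]
        congr 1; omega
    | succ j ih =>
      intro hj
      have h3 := ih (by omega)
      have h4 : #(W (j + 1) \ U (j + 1)) ≤ #(U (j + 1) ∩ W (j + 1)) := by
        refine Finset.card_le_card_of_injOn (rt (-1)) ?_ ((rt (-1)).injective.injOn)
        intro z hz
        rw [Finset.mem_coe, Finset.mem_sdiff, hWm, hUm] at hz
        rw [Finset.mem_coe, Finset.mem_inter, hUm, hWm, rt_apply]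
        obtain ⟨hz1, hz2⟩ := hz
        have hz3 : z.1 ≠ ((j + 1 : ℕ) : ZMod M) := by
          intro h
          rw [h, ZMod.val_natCast_of_lt (by omega)] at hz2
          exact hz2 le_rfl
        have hz4 := hz1.resolve_left hz3
        have hz5 : z.1 + -1 = ((j + 1 : ℕ) : ZMod M) := by
          rw [hz4]; push_cast; ring
        simp only
        rw [hz5]
        refine ⟨?_, Or.inl rfl⟩
        rw [ZMod.val_natCast_of_lt (by omega)]
      have h5 : 2 ≤ #(U (j + 1) ∩ W (j + 1)) := by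
        have h6 : (1 : ℕ) < #(U (j + 1) ∩ W (j + 1)) := by
          rw [Finset.one_lt_card]
          have h7 : ∀ y : Fin L, (((j + 1 : ℕ) : ZMod M), y) ∈ U (j + 1) ∩ W (j + 1) := by
            intro y
            rw [Finset.mem_inter, hUm, hWm]
            refine ⟨?_, Or.inl rfl⟩
            simp only
            rw [ZMod.val_natCast_of_lt (by omega)]
          refine ⟨_, h7 ⟨0, by omega⟩, _, h7 ⟨1, by omega⟩, ?_⟩
          intro h
          have := congrArg (fun w : ZMod M × Fin L => (w.2 : ℕ)) h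
          simp at this
        omega
      have h6 := h3.join (e4 (j + 1)) h4 h5
      refine (h6.sub ?_).up ?_
      · intro z hz
        rw [Finset.mem_union, hUm, hWm]
        rw [hUm] at hz
        rcases Nat.lt_or_ge z.1.val (j + 1 + 1) with h | h
        · left; omega
        · right; right
          rw [← ZMod.natCast_zmod_val z.1]
          congr 1; omega
      · have h8 : 1 ≤ 3 ^ j := Nat.one_le_pow _ _ (by norm_num)
        calc 2 * (3 ^ j * (c + 2 * (M * m))) + (c + 2 * (M * m))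
            ≤ 2 * (3 ^ j * (c + 2 * (M * m))) + 3 ^ j * (c + 2 * (M * m)) := by
              have := Nat.mul_le_mul_right (c + 2 * (M * m)) h8
              omega
          _ = 3 ^ (j + 1) * (c + 2 * (M * m)) := by ring
  have e6 := e5 (M - 2) (by omega)
  refine (e6.sub ?_).up ?_
  · intro z _
    rw [hUm]
    have := ZMod.val_lt z.1
    omega
  · have h8 : 3 ^ (M - 2) ≤ 3 ^ M := Nat.pow_le_pow_right (by norm_num) (by omega)
    calc 3 ^ (M - 2) * (c + 2 * (M * m)) ≤ 3 ^ M * (c + 2 * (M * m)) :=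
          Nat.mul_le_mul_right _ h8
      _ = Cb C M * m := by
          rw [hc]; unfold Cb; ring

end

end

end Pool.Agent.K1H7.EP
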