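import Mathlib

/-!
Every even permutation is a product of two commutators of even involutions, if there are a few more
points.
-/

namespace Pool.Agent.K1H7.EP
open Finset Equiv Equiv.Perm

set_option linter.unusedSectionVars false

section
variable {Ω : Type*}

/-- every permutation is inverted by an involution -/
theorem inv_invol (x : Perm Ω) : ∃ i : Perm Ω, i * i = 1 ∧ (x * i) * (x * i) = 1 ∧
    ∀ y, x y = y → i y = y := by
  classical
  -- base points
  let S : Setoid Ω := SameCycle.setoid x
  let b : Ω → Ω := fun y => (Quotient.mk S y).out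
  have hb : ∀ y, ∃ k : ℤ, (x ^ k) (b y) = y := fun y => by
    have : SameCycle x (b y) y := Quotient.exact (Quotient.out_eq (Quotient.mk S y))
    exact this
  have hbc : ∀ y z, SameCycle x y z → b y = b z := fun y z h => by
    have : Quotient.mk S y = Quotient.mk S z := Quotient.sound h
    change (Quotient.mk S y).out = (Quotient.mk S z).out
    rw [this]
  choose k hk using hb
  have hW : ∀ (c : Ω) (l m : ℤ), (x ^ l) c = (x ^ m) c → (x ^ (-l)) c = (x ^ (-m)) c := by
    intro c l m h
    have h1 := congrArg (fun z => (x ^ (-l - m)) z) h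
    simp only [← Perm.mul_apply, ← zpow_add] at h1
    have e1 : -l - m + l = -m := by ring
    have e2 : -l - m + m = -l := by ring
    rw [e1, e2] at h1
    exact h1.symm
  let j : Ω → Ω := fun y => (x ^ (-k y)) (b y)
  have hj : ∀ (y : Ω) (m : ℤ), (x ^ m) (b y) = y → j y = (x ^ (-m)) (b y) := by
    intro y m h
    exact hW _ _ _ ((hk y).trans h.symm)
  have hbj : ∀ y, b (j y) = b y := by
    intro y
    refine hbc _ _ ?_
    have h1 : SameCycle x (b y) y := ⟨k y, hk y⟩
    have h2 : SameCycle x (b y) (j y) := ⟨-k y, rfl⟩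
    exact h2.symm.trans h1
  have hbx : ∀ y, b (x y) = b y := by
    intro y
    refine hbc _ _ ?_
    exact (sameCycle_apply_left.2 (SameCycle.refl x y))
  have hjj : Function.Involutive j := by
    intro y
    have h1 : (x ^ (-k y)) (b (j y)) = j y := by rw [hbj]
    rw [hj (j y) _ h1, hbj, neg_neg]
    exact hk y
  have hjx : ∀ y, x (j (x y)) = j y := by
    intro y
    have h1 : (x ^ (1 + k y)) (b (x y)) = x y := by
      rw [hbx, zpow_add, Perm.mul_apply, zpow_one, hk y]
    rw [hj (x y) _ h1, hbx]
    change x ((x ^ (-(1 + k y))) (b y)) = (x ^ (-k y)) (b y)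
    have : x ((x ^ (-(1 + k y))) (b y)) = (x ^ (1 + -(1 + k y))) (b y) := by
      rw [zpow_add, Perm.mul_apply, zpow_one]
    rw [this]
    congr 2
    ring
  refine ⟨hjj.toPerm, ?_, ?_, ?_⟩
  · ext y
    exact hjj y
  · ext y
    change x (j (x (j y))) = y
    rw [hjx]
    exact hjj y
  · intro y hy
    change j y = y
    have h1 : ∀ m : ℤ, (x ^ m) y = y := fun m => zpow_apply_eq_self_of_apply_eq_self hy m
    have h2 : b y = y := by
      have := hk y
      have h3 := congrArg (fun z => (x ^ (-k y)) z) this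
      simp only [← Perm.mul_apply, ← zpow_add] at h3
      rw [neg_add_cancel, zpow_zero, h1] at h3
      exact h3
    change (x ^ (-k y)) (b y) = y
    rw [h2, h1]

end

section
variable {Ω : Type*} [Fintype Ω] [DecidableEq Ω]

lemma sq4 {a b c d : Ω} (hab : a ≠ b) (hac : a ≠ c) (had : a ≠ d) (hbc : b ≠ c) (hbd : b ≠ d)
    (hcd : c ≠ d) :
    (swap a c * swap b d) * (swap a c * swap b d) = 1 := by
  ext x
  simp only [Perm.mul_apply, swap_apply_def, Perm.one_apply]
  split_ifs <;> simp_all

/-- the commutator of involutions on four points -/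
lemma comm4 {a b c d : Ω} (hab : a ≠ b) (hac : a ≠ c) (had : a ≠ d) (hbc : b ≠ c) (hbd : b ≠ d)
    (hcd : c ≠ d) :
    swap a b * (swap a c * swap b d) * swap a b * (swap a c * swap b d) =
      swap a b * swap c d := by
  have h1 : (swap a c * swap b d) * swap a b * (swap a c * swap b d)⁻¹ = swap c d := by
    rw [← Equiv.swap_apply_apply]
    congr 1
    · rw [Perm.mul_apply, swap_apply_of_ne_of_ne hab had, swap_apply_left]
    · rw [Perm.mul_apply, swap_apply_left, swap_apply_of_ne_of_ne had.symm hcd.symm]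
  have h2 : (swap a c * swap b d)⁻¹ = swap a c * swap b d := by
    rw [inv_eq_iff_mul_eq_one]
    exact sq4 hab hac had hbc hbd hcd
  rw [h2] at h1
  rw [← h1]
  group

lemma commute_swap (g : Perm Ω) (a b : Ω) (ha : g a = a) (hb : g b = b) :
    Commute (swap a b) g := by
  refine Disjoint.commute fun x => ?_
  by_cases h : x = a ∨ x = b
  · right
    rcases h with rfl | rfl
    · exact ha
    · exact hb
  · push Not at h
    left
    exact swap_apply_of_ne_of_ne h.1 h.2

/-- an even involution is a commutator of involutions -/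
theorem even_invol : ∀ (m : ℕ) (i : Perm Ω), #i.support ≤ m → i * i = 1 → sign i = 1 →
    ∃ i' w : Perm Ω, i' * i' = 1 ∧ w * w = 1 ∧ i' * w * i' * w = i ∧
      ∀ y, i y = y → i' y = y ∧ w y = y := by
  intro m
  induction m using Nat.strong_induction_on with
  | _ m ih =>
  intro i hm hi hs
  by_cases h1 : i = 1
  · exact ⟨1, 1, by simp, by simp, by simp [h1], fun y _ => ⟨rfl, rfl⟩⟩
  have hii : ∀ y, i (i y) = y := fun y => by
    have := congrArg (fun g : Perm Ω => g y) hi
    simpa using this
  obtain ⟨a, ha⟩ : ∃ a, i a ≠ a := by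
    by_contra hcon
    push Not at hcon
    exact h1 (by ext y; exact hcon y)
  obtain ⟨b, hb⟩ : ∃ b, b = i a := ⟨_, rfl⟩
  have hab : a ≠ b := by rw [hb]; exact ha.symm
  have hib : i b = a := by rw [hb]; exact hii a
  obtain ⟨j, hj⟩ : ∃ j, j = swap a b * i := ⟨_, rfl⟩
  have hja : j a = a := by rw [hj, Perm.mul_apply, ← hb, swap_apply_right]
  have hjb : j b = b := by rw [hj, Perm.mul_apply, hib, swap_apply_left]
  have hij : i = swap a b * j := by rw [hj, ← mul_assoc, swap_mul_self, one_mul]
  have hjc : ∀ y, y ≠ a → y ≠ b → j y = i y := by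
    intro y hya hyb
    rw [hj, Perm.mul_apply]
    refine swap_apply_of_ne_of_ne ?_ ?_
    · intro h
      apply hyb
      rw [← hii y, h, hb]
    · intro h
      apply hya
      rw [← hii y, h, hib]
  have hjs : sign j = -1 := by
    rw [hj, Perm.sign_mul, sign_swap hab, hs, mul_one]
  have hj1 : j ≠ 1 := by
    intro h
    rw [h, Perm.sign_one] at hjs
    exact absurd hjs (by decide)
  obtain ⟨c, hc⟩ : ∃ c, j c ≠ c := by
    by_contra hcon
    push Not at hcon
    exact hj1 (by ext y; exact hcon y)
  have hca : c ≠ a := fun h => hc (by rw [h, hja])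
  have hcb : c ≠ b := fun h => hc (by rw [h, hjb])
  have hjci : j c = i c := hjc c hca hcb
  obtain ⟨d, hd⟩ : ∃ d, d = i c := ⟨_, rfl⟩
  have hcd : c ≠ d := by rw [hd, ← hjci]; exact hc.symm
  have hid : i d = c := by rw [hd]; exact hii c
  have hda : d ≠ a := by
    intro h
    apply hcb
    rw [← hid, h, hb]
  have hdb : d ≠ b := by
    intro h
    apply hca
    rw [← hid, h, hib]
  obtain ⟨e, he⟩ : ∃ e, e = swap c d * j := ⟨_, rfl⟩
  have hje : j = swap c d * e := by rw [he, ← mul_assoc, swap_mul_self, one_mul]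
  have hjd : j d = c := by rw [hjc d hda hdb, hid]
  have hec : e c = c := by
    rw [he, Perm.mul_apply, hjci, ← hd, swap_apply_right]
  have hed : e d = d := by rw [he, Perm.mul_apply, hjd, swap_apply_left]
  have hea : e a = a := by
    rw [he, Perm.mul_apply, hja, swap_apply_of_ne_of_ne hca.symm hda.symm]
  have heb : e b = b := by
    rw [he, Perm.mul_apply, hjb, swap_apply_of_ne_of_ne hcb.symm hdb.symm]
  have hec' : ∀ y, y ≠ a → y ≠ b → y ≠ c → y ≠ d → e y = i y := by
    intro y h2 h3 h4 h5
    rw [he, Perm.mul_apply, hjc y h2 h3]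
    refine swap_apply_of_ne_of_ne ?_ ?_
    · intro h
      apply h5
      rw [← hii y, h, hd]
    · intro h
      apply h4
      rw [← hii y, h, hid]
  have hes : sign e = 1 := by
    rw [he, Perm.sign_mul, sign_swap hcd, hjs]; decide
  have hee : e * e = 1 := by
    ext y
    rw [Perm.mul_apply, Perm.one_apply]
    by_cases h2 : y = a
    · rw [h2, hea, hea]
    by_cases h3 : y = b
    · rw [h3, heb, heb]
    by_cases h4 : y = c
    · rw [h4, hec, hec]
    by_cases h5 : y = d
    · rw [h5, hed, hed]
    rw [hec' y h2 h3 h4 h5]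
    have g2 : i y ≠ a := fun h => h3 (by rw [← hii y, h, hb])
    have g3 : i y ≠ b := fun h => h2 (by rw [← hii y, h, hib])
    have g4 : i y ≠ c := fun h => h5 (by rw [← hii y, h, hd])
    have g5 : i y ≠ d := fun h => h4 (by rw [← hii y, h, hid])
    rw [hec' _ g2 g3 g4 g5, hii]
  have hsub : ∀ y, i y = y → e y = y := by
    intro y hy
    by_cases h2 : y = a
    · rw [h2, hea]
    by_cases h3 : y = b
    · rw [h3, heb]
    by_cases h4 : y = c
    · rw [h4, hec]
    by_cases h5 : y = d
    · rw [h5, hed]
    rw [hec' y h2 h3 h4 h5, hy]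
  have hcard : #e.support < #i.support := by
    refine Finset.card_lt_card ⟨?_, ?_⟩
    · intro y hy
      rw [Perm.mem_support] at hy ⊢
      exact fun h => hy (hsub y h)
    · intro h
      have h2 : a ∈ i.support := Perm.mem_support.2 ha
      have h3 := h h2
      rw [Perm.mem_support] at h3
      exact h3 hea
  obtain ⟨i1, w1, hi1, hw1, hcomm, hfix⟩ := ih (#e.support) (lt_of_lt_of_le hcard hm) e le_rfl hee
    hes
  have ca : i1 a = a ∧ w1 a = a := hfix a hea
  have cb : i1 b = b ∧ w1 b = b := hfix b heb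
  have cc : i1 c = c ∧ w1 c = c := hfix c hec
  have cd : i1 d = d ∧ w1 d = d := hfix d hed
  obtain ⟨S, hS⟩ : ∃ S, S = swap a c * swap b d := ⟨_, rfl⟩
  have hSS : S * S = 1 := by
    rw [hS]
    exact sq4 hab hca.symm hda.symm hcb.symm hdb.symm hcd
  have h4 : swap a b * S * swap a b * S = swap a b * swap c d := by
    rw [hS]
    exact comm4 hab hca.symm hda.symm hcb.symm hdb.symm hcd
  have C1 : Commute (swap a b) i1 := commute_swap i1 a b ca.1 cb.1
  have C2 : Commute (swap a b) w1 := commute_swap w1 a b ca.2 cb.2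
  have C3 : Commute S i1 := by
    rw [hS]
    exact (commute_swap i1 a c ca.1 cc.1).mul_left (commute_swap i1 b d cb.1 cd.1)
  have C4 : Commute S w1 := by
    rw [hS]
    exact (commute_swap w1 a c ca.2 cc.2).mul_left (commute_swap w1 b d cb.2 cd.2)
  refine ⟨swap a b * i1, S * w1, ?_, ?_, ?_, ?_⟩
  · calc swap a b * i1 * (swap a b * i1) = swap a b * (i1 * swap a b) * i1 := by group
      _ = swap a b * (swap a b * i1) * i1 := by rw [C1.eq]
      _ = (swap a b * swap a b) * (i1 * i1) := by group
      _ = 1 := by rw [swap_mul_self, hi1, one_mul]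
  · calc S * w1 * (S * w1) = S * (w1 * S) * w1 := by group
      _ = S * (S * w1) * w1 := by rw [C4.eq]
      _ = (S * S) * (w1 * w1) := by group
      _ = 1 := by rw [hSS, hw1, one_mul]
  · calc swap a b * i1 * (S * w1) * (swap a b * i1) * (S * w1)
        = swap a b * (i1 * S) * (w1 * swap a b) * (i1 * S) * w1 := by group
      _ = swap a b * (S * i1) * (swap a b * w1) * (S * i1) * w1 := by rw [C3.eq, C2.eq]
      _ = swap a b * S * (i1 * swap a b) * (w1 * S) * i1 * w1 := by group
      _ = swap a b * S * (swap a b * i1) * (S * w1) * i1 * w1 := by rw [C1.eq, C4.eq]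
      _ = swap a b * S * swap a b * (i1 * S) * w1 * i1 * w1 := by group
      _ = swap a b * S * swap a b * (S * i1) * w1 * i1 * w1 := by rw [C3.eq]
      _ = (swap a b * S * swap a b * S) * (i1 * w1 * i1 * w1) := by group
      _ = (swap a b * swap c d) * e := by rw [h4, hcomm]
      _ = i := by rw [mul_assoc, ← hje, ← hij]
  · intro y hy
    have h2 : y ≠ a := fun h => ha (h ▸ hy)
    have h3 : y ≠ b := fun h => by
      rw [h, hib] at hy; exact hab hy
    have h5 : y ≠ c := fun h => by
      rw [h, ← hd] at hy; exact hcd hy.symm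
    have h6 : y ≠ d := fun h => by
      rw [h, hid] at hy; exact hcd hy
    obtain ⟨g1, g2⟩ := hfix y (hsub y hy)
    constructor
    · rw [Perm.mul_apply, g1, swap_apply_of_ne_of_ne h2 h3]
    · rw [Perm.mul_apply, g2, hS, Perm.mul_apply, swap_apply_of_ne_of_ne h3 h6,
        swap_apply_of_ne_of_ne h2 h5]

/-- the involutions in `even_invol` can be made even by means of two more points -/
theorem even_invol' (i : Perm Ω) (hi : i * i = 1) (hs : sign i = 1) (p q : Ω) (hpq : p ≠ q)
    (hp : i p = p) (hq : i q = q) :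
    ∃ i' w : Perm Ω, i' * i' = 1 ∧ w * w = 1 ∧ sign i' = 1 ∧ sign w = 1 ∧
      i' * w * i'⁻¹ * w⁻¹ = i ∧ ∀ y, i y = y → y ≠ p → y ≠ q → i' y = y ∧ w y = y := by
  obtain ⟨j, u, hj, hu, hju, hfix⟩ := even_invol _ i le_rfl hi hs
  have fp := hfix p hp
  have fq := hfix q hq
  have fix : ∀ g : Perm Ω, g * g = 1 → g p = p → g q = q → ∃ t : Perm Ω, (t = 1 ∨ t = swap p q) ∧
      (g * t) * (g * t) = 1 ∧ sign (g * t) = 1 := by
    intro g hg h1 h2
    rcases Int.units_eq_one_or (sign g) with h | h
    · exact ⟨1, Or.inl rfl, by simpa using hg, by simpa using h⟩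
    · refine ⟨swap p q, Or.inr rfl, ?_, ?_⟩
      · have C := commute_swap g p q h1 h2
        calc g * swap p q * (g * swap p q) = g * (swap p q * g) * swap p q := by group
          _ = g * (g * swap p q) * swap p q := by rw [C.eq]
          _ = (g * g) * (swap p q * swap p q) := by group
          _ = 1 := by rw [swap_mul_self, hg, one_mul]
      · rw [Perm.sign_mul, h, sign_swap hpq]; decide
  obtain ⟨t, ht, ht1, ht2⟩ := fix j hj fp.1 fq.1
  obtain ⟨s, hs', hs1, hs2⟩ := fix u hu fp.2 fq.2
  have Ct : ∀ g : Perm Ω, g p = p → g q = q → Commute t g := by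
    intro g h1 h2
    rcases ht with rfl | rfl
    · exact Commute.one_left _
    · exact commute_swap g p q h1 h2
  have Cs : ∀ g : Perm Ω, g p = p → g q = q → Commute s g := by
    intro g h1 h2
    rcases hs' with rfl | rfl
    · exact Commute.one_left _
    · exact commute_swap g p q h1 h2
  have Cst : Commute s t := by
    rcases hs' with rfl | rfl
    · exact Commute.one_left _
    · rcases ht with rfl | rfl
      · exact Commute.one_right _
      · exact Commute.refl _
  refine ⟨j * t, u * s, ht1, hs1, ht2, hs2, ?_, ?_⟩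
  · have e1 : (j * t)⁻¹ = j * t := by
      rw [inv_eq_iff_mul_eq_one]; exact ht1
    have e2 : (u * s)⁻¹ = u * s := by
      rw [inv_eq_iff_mul_eq_one]; exact hs1
    rw [e1, e2]
    have tt : t * t = 1 := by
      rcases ht with rfl | rfl
      · simp
      · exact swap_mul_self _ _
    have ss : s * s = 1 := by
      rcases hs' with rfl | rfl
      · simp
      · exact swap_mul_self _ _
    have c1 := (Ct u fp.2 fq.2).eq
    have c2 := (Ct j fp.1 fq.1).eq
    have c3 := (Cs u fp.2 fq.2).eq
    have c4 := (Cs j fp.1 fq.1).eq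
    calc j * t * (u * s) * (j * t) * (u * s) = j * (t * u) * (s * j) * (t * u) * s := by group
      _ = j * (u * t) * (j * s) * (u * t) * s := by rw [c1, c4]
      _ = j * u * (t * j) * (s * u) * t * s := by group
      _ = j * u * (j * t) * (u * s) * t * s := by rw [c2, c3]
      _ = j * u * j * (t * u) * (s * t) * s := by group
      _ = j * u * j * (u * t) * (t * s) * s := by rw [c1, Cst.eq]
      _ = (j * u * j * u) * (t * t) * (s * s) := by group
      _ = i := by rw [tt, ss, hju, mul_one, mul_one]
  · intro y hy hyp hyq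
    obtain ⟨g1, g2⟩ := hfix y hy
    have ty : t y = y := by
      rcases ht with rfl | rfl
      · rfl
      · exact swap_apply_of_ne_of_ne hyp hyq
    have sy : s y = y := by
      rcases hs' with rfl | rfl
      · rfl
      · exact swap_apply_of_ne_of_ne hyp hyq
    exact ⟨by rw [Perm.mul_apply, ty, g1], by rw [Perm.mul_apply, sy, g2]⟩

/-- **every even permutation is a product of two commutators of even involutions** -/
theorem two_comm (x : Perm Ω) (hx : sign x = 1) (p q p' q' : Ω) (hpq : p ≠ q) (hpq' : p' ≠ q')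
    (h1 : p ≠ p') (h2 : p ≠ q') (h3 : q ≠ p') (h4 : q ≠ q')
    (hp : x p = p) (hq : x q = q) (hp' : x p' = p') (hq' : x q' = q') :
    ∃ s : Fin 4 → Perm Ω, (∀ c, s c * s c = 1) ∧ (∀ c, sign (s c) = 1) ∧
      x = (s 0 * s 1 * (s 0)⁻¹ * (s 1)⁻¹) * (s 2 * s 3 * (s 2)⁻¹ * (s 3)⁻¹) := by
  obtain ⟨i, hi, hxi, hfix⟩ := inv_invol x
  have key : ∃ a b : Perm Ω, a * a = 1 ∧ b * b = 1 ∧ sign a = 1 ∧ sign b = 1 ∧ x = a * b ∧
      a p' = p' ∧ a q' = q' ∧ b p' = p' ∧ b q' = q' := by
    have fi := hfix p hp
    have fq := hfix q hq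
    have fi' := hfix p' hp'
    have fq' := hfix q' hq'
    rcases Int.units_eq_one_or (sign i) with h | h
    · refine ⟨x * i, i, hxi, hi, ?_, h, ?_, ?_, ?_, fi', fq'⟩
      · rw [Perm.sign_mul, hx, h, mul_one]
      · rw [mul_assoc, hi, mul_one]
      · rw [Perm.mul_apply, fi', hp']
      · rw [Perm.mul_apply, fq', hq']
    · have C1 := commute_swap (x * i) p q (by rw [Perm.mul_apply, fi, hp])
        (by rw [Perm.mul_apply, fq, hq])
      have C2 := commute_swap i p q fi fq
      refine ⟨x * i * swap p q, swap p q * i, ?_, ?_, ?_, ?_, ?_, ?_, ?_, ?_, ?_⟩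
      · calc x * i * swap p q * (x * i * swap p q)
            = (x * i) * (swap p q * (x * i)) * swap p q := by group
          _ = (x * i) * ((x * i) * swap p q) * swap p q := by rw [C1.eq]
          _ = ((x * i) * (x * i)) * (swap p q * swap p q) := by group
          _ = 1 := by rw [swap_mul_self, hxi, one_mul]
      · calc swap p q * i * (swap p q * i) = swap p q * (i * swap p q) * i := by group
          _ = swap p q * (swap p q * i) * i := by rw [C2.eq]
          _ = (swap p q * swap p q) * (i * i) := by group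
          _ = 1 := by rw [swap_mul_self, hi, one_mul]
      · rw [Perm.sign_mul, Perm.sign_mul, hx, h, sign_swap hpq]; decide
      · rw [Perm.sign_mul, h, sign_swap hpq]; decide
      · calc x = x * (i * i) := by rw [hi, mul_one]
          _ = x * i * (swap p q * swap p q) * i := by rw [swap_mul_self]; group
          _ = _ := by group
      · rw [Perm.mul_apply, swap_apply_of_ne_of_ne h1.symm h3.symm, Perm.mul_apply, fi', hp']
      · rw [Perm.mul_apply, swap_apply_of_ne_of_ne h2.symm h4.symm, Perm.mul_apply, fq', hq']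
      · rw [Perm.mul_apply, fi', swap_apply_of_ne_of_ne h1.symm h3.symm]
      · rw [Perm.mul_apply, fq', swap_apply_of_ne_of_ne h2.symm h4.symm]
  obtain ⟨a, b, ha, hb, sa, sb, hab, a1, a2, b1, b2⟩ := key
  obtain ⟨i1, w1, q1, q2, q3, q4, q5, -⟩ := even_invol' a ha sa p' q' hpq' a1 a2
  obtain ⟨i2, w2, r1, r2, r3, r4, r5, -⟩ := even_invol' b hb sb p' q' hpq' b1 b2
  refine ⟨![i1, w1, i2, w2], ?_, ?_, ?_⟩
  · intro c; fin_cases c
    · exact q1
    · exact q2
    · exact r1
    · exact r2
  · intro c; fin_cases c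
    · exact q3
    · exact q4
    · exact r3
    · exact r4
  · rw [hab, ← q5, ← r5]
    rfl

end

end Pool.Agent.K1H7.EP
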