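import Pool.Agent.H20R2.RC.FRLOW

/-!
An element of an expanding pair moves a positive proportion of the points.
-/

namespace Pool.Agent.K1H7.EP
open Finset Equiv RC14

set_option linter.unusedSectionVars false

section
variable {Ω : Type*} [Fintype Ω] [DecidableEq Ω]

/-- sets which are nearly invariant under one permutation -/
lemma exists_E (b : Perm Ω) : ∀ m : ℕ, m ≤ Fintype.card Ω →
    ∃ E : Finset Ω, #E = m ∧ ∃ z : Ω → Prop, (∀ x y, z x → z y → x = y) ∧
      ∀ y ∈ E, b y ∉ E → z y := by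
  intro m
  induction m with
  | zero => intro _; exact ⟨∅, rfl, fun _ => False, by simp, by simp⟩
  | succ m ih =>
    intro hm
    obtain ⟨E, hE, z, hz1, hz2⟩ := ih (by omega)
    have key : ∃ w, w ∉ E ∧ ∀ y ∈ E, b y ∉ E → b y = w := by
      by_cases h : ∃ y ∈ E, b y ∉ E
      · obtain ⟨y, hy, hy'⟩ := h
        refine ⟨b y, hy', fun y' h1 h2 => ?_⟩
        rw [hz1 y' y (hz2 _ h1 h2) (hz2 _ hy hy')]
      · push Not at h
        obtain ⟨w, hw⟩ : ∃ w, w ∉ E := by
          by_contra hcon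
          push Not at hcon
          have : E = Finset.univ := Finset.eq_univ_iff_forall.2 hcon
          rw [this, Finset.card_univ] at hE
          omega
        exact ⟨w, hw, fun y h1 h2 => absurd (h y h1) h2⟩
    obtain ⟨w, hw1, hw2⟩ := key
    refine ⟨insert w E, by rw [Finset.card_insert_of_notMem hw1, hE], fun y => y = w, ?_, ?_⟩
    · rintro x y rfl rfl; rfl
    · intro y hy hby
      rcases Finset.mem_insert.1 hy with h | h
      · exact h
      · exfalso
        apply hby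
        rw [Finset.mem_insert]
        by_cases h3 : b y ∈ E
        · exact Or.inr h3
        · exact Or.inl (hw2 y h h3)

/-- the same with a cardinality -/
lemma exists_E' (b : Perm Ω) (m : ℕ) (hm : m ≤ Fintype.card Ω) :
    ∃ E : Finset Ω, #E = m ∧ #(E.filter (fun y => b y ∉ E)) ≤ 1 := by
  obtain ⟨E, hE, z, hz1, hz2⟩ := exists_E b m hm
  refine ⟨E, hE, Finset.card_le_one.2 fun x hx y hy => ?_⟩
  rw [Finset.mem_filter] at hx hy
  exact hz1 x y (hz2 x hx.1 hx.2) (hz2 y hy.1 hy.2)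

/-- the number of points where the indicator of `E` changes -/
lemma change_le (b : Perm Ω) (E : Finset Ω) :
    #(Finset.univ.filter (fun y => ¬ (b⁻¹ y ∈ E ↔ y ∈ E))) ≤
      2 * #(E.filter (fun y => b y ∉ E)) := by
  have h1 : (Finset.univ.filter (fun y => ¬ (b⁻¹ y ∈ E ↔ y ∈ E))) ⊆
      (E.image b \ E) ∪ (E \ E.image b) := by
    intro y hy
    rw [Finset.mem_filter] at hy
    have h2 : y ∈ E.image b ↔ b⁻¹ y ∈ E := by
      rw [Finset.mem_image]
      constructor
      · rintro ⟨w, hw, rfl⟩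
        rw [← Perm.mul_apply, inv_mul_cancel]; exact hw
      · intro h
        exact ⟨b⁻¹ y, h, by rw [← Perm.mul_apply, mul_inv_cancel]; rfl⟩
    rw [Finset.mem_union, Finset.mem_sdiff, Finset.mem_sdiff, h2]
    tauto
  have h3 : #(E.image b \ E) = #(E \ E.image b) :=
    Finset.card_sdiff_comm (Finset.card_image_of_injective _ b.injective)
  have h4 : #(E.image b \ E) ≤ #(E.filter (fun y => b y ∉ E)) := by
    have : E.image b \ E ⊆ (E.filter (fun y => b y ∉ E)).image b := by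
      intro y hy
      rw [Finset.mem_sdiff, Finset.mem_image] at hy
      obtain ⟨⟨w, hw, rfl⟩, h5⟩ := hy
      exact Finset.mem_image_of_mem b (Finset.mem_filter.2 ⟨hw, h5⟩)
    exact (Finset.card_le_card this).trans Finset.card_image_le
  have h5 := Finset.card_le_card h1
  have h6 := Finset.card_union_le (E.image b \ E) (E \ E.image b)
  omega

lemma change_le' (a : Perm Ω) (E : Finset Ω) :
    #(Finset.univ.filter (fun y => ¬ (a⁻¹ y ∈ E ↔ y ∈ E))) ≤ #{i | a i ≠ i} := by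
  refine Finset.card_le_card fun y hy => ?_
  rw [Finset.mem_filter] at hy ⊢
  refine ⟨Finset.mem_univ _, fun h => hy.2 ?_⟩
  have : a⁻¹ y = y := by rw [Perm.inv_eq_iff_eq]; exact h.symm
  rw [this]

end

section
variable {n : ℕ}

lemma sum_orbit (hn : 3 ≤ n) (x₀ : Fin n) (Φ : Fin n → ℝ) :
    (n : ℝ) * ∑ g : Alt n, Φ ((g : Perm (Fin n))⁻¹ x₀) = Fintype.card (Alt n) * ∑ y, Φ y := by
  classical
  have e1 : ∀ g : Alt n, Φ ((g : Perm (Fin n))⁻¹ x₀) =
      ∑ y, if (g : Perm (Fin n))⁻¹ x₀ = y then Φ y else 0 := by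
    intro g; simp
  rw [Finset.sum_congr rfl fun g _ => e1 g, Finset.sum_comm, Finset.mul_sum, Finset.mul_sum]
  refine Finset.sum_congr rfl fun y _ => ?_
  rw [← Finset.sum_filter, Finset.sum_const, nsmul_eq_mul, ← mul_assoc]
  congr 1
  have h1 := TRANS_card (r := 1) (by omega) (⟨fun _ => x₀, fun i j _ => Subsingleton.elim i j⟩ :
    Tup 1 n) ⟨fun _ => y, fun i j _ => Subsingleton.elim i j⟩
  have h2 : Fintype.card (Tup 1 n) = n := by
    rw [Fintype.card_embedding_eq]; simp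
  rw [h2, Fintype.card_subtype] at h1
  have h3 : (Finset.univ.filter (fun g : Alt n => mv (g : Perm (Fin n))⁻¹
      (⟨fun _ => x₀, fun i j _ => Subsingleton.elim i j⟩ : Tup 1 n) =
        ⟨fun _ => y, fun i j _ => Subsingleton.elim i j⟩)) =
      Finset.univ.filter (fun g : Alt n => (g : Perm (Fin n))⁻¹ x₀ = y) := by
    ext g
    rw [Finset.mem_filter, Finset.mem_filter]
    refine and_congr_right fun _ => ?_
    constructor
    · intro h
      exact DFunLike.congr_fun h 0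
    · intro h
      ext i
      rw [mv_apply]
      exact congrArg Fin.val h
  rw [h3] at h1
  rw [mul_comm]
  exact_mod_cast h1

theorem converse (ε : ℝ) (hε : 0 < ε) : ∃ c : ℝ, 0 < c ∧ ∃ n₀ : ℕ, ∀ n ≥ n₀, ∀ a b : Alt n,
    Expanding ε ![a, b] → c * n ≤ (#{i | (a : Perm (Fin n)) i ≠ i} : ℕ) := by
  classical
  refine ⟨ε / 5, by positivity, max 5 ⌈10 / ε⌉₊, fun n hn a b hexp => ?_⟩
  have hn5 : 5 ≤ n := (le_max_left _ _).trans hn
  have hn10 : 10 ≤ ε * n := by
    have : 10 / ε ≤ n := (Nat.le_ceil _).trans (by exact_mod_cast (le_max_right _ _).trans hn)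
    rw [div_le_iff₀ hε] at this
    linarith
  obtain ⟨m, hm⟩ : ∃ m, m = n / 2 := ⟨_, rfl⟩
  obtain ⟨E, hE1, hE2⟩ := exists_E' (b : Perm (Fin n)) m (by rw [Fintype.card_fin]; omega)
  obtain ⟨x₀⟩ : Nonempty (Fin n) := ⟨⟨0, by omega⟩⟩
  obtain ⟨χ, hχ⟩ : ∃ χ : Fin n → ℝ, χ = fun y => if y ∈ E then 1 else 0 := ⟨_, rfl⟩
  obtain ⟨f, hf⟩ : ∃ f : Alt n → ℝ, f = fun g : Alt n =>
    χ ((g : Perm (Fin n))⁻¹ x₀) - m / n := ⟨_, rfl⟩
  have hn0 : (0 : ℝ) < n := by exact_mod_cast (by omega : 0 < n)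
  have hc : (0 : ℝ) < Fintype.card (Alt n) := by
    exact_mod_cast (Fintype.card_pos (α := Alt n))
  have hχs : ∑ y, χ y = m := by
    rw [hχ]
    simp only [Finset.sum_ite_mem, Finset.univ_inter, Finset.sum_const, hE1, nsmul_eq_mul, mul_one]
  have hs : ∑ g, f g = 0 := by
    have h1 := sum_orbit (by omega : 3 ≤ n) x₀ (fun y => χ y - m / n)
    have h2 : ∑ y : Fin n, (χ y - (m : ℝ) / n) = 0 := by
      rw [Finset.sum_sub_distrib, hχs, Finset.sum_const, Finset.card_univ, Fintype.card_fin,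
        nsmul_eq_mul, mul_div_cancel₀ _ hn0.ne', sub_self]
    rw [h2, mul_zero] at h1
    rw [hf]
    exact (mul_eq_zero.1 h1).resolve_left hn0.ne'
  have h1 := hexp.2 f hs
  rw [FRLOW.walk_id (by norm_num), FRLOW.En_cf] at h1
  -- the norm
  have h2 : (n : ℝ) * ∑ g, f g ^ 2 = Fintype.card (Alt n) * (m - m * m / n) := by
    have h3 := sum_orbit (by omega : 3 ≤ n) x₀ (fun y => (χ y - m / n) ^ 2)
    rw [hf]
    rw [h3]
    congr 1
    have h4 : ∀ y, (χ y - (m : ℝ) / n) ^ 2 = χ y - 2 * (m / n) * χ y + (m / n) ^ 2 := by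
      intro y
      have : χ y ^ 2 = χ y := by
        rw [hχ]; by_cases h : y ∈ E <;> simp [h]
      linear_combination this
    rw [Finset.sum_congr rfl fun y _ => h4 y, Finset.sum_add_distrib, Finset.sum_sub_distrib,
      ← Finset.mul_sum, hχs, Finset.sum_const, Finset.card_univ, Fintype.card_fin, nsmul_eq_mul]
    field_simp
    ring
  -- the energy
  have h3 : ∀ x : Alt n, (n : ℝ) * ∑ g, (f (g * x) - f g) ^ 2 = Fintype.card (Alt n) *
      (#(Finset.univ.filter (fun y => ¬ ((x : Perm (Fin n))⁻¹ y ∈ E ↔ y ∈ E))) : ℝ) := by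
    intro x
    have h4 := sum_orbit (by omega : 3 ≤ n) x₀ (fun y => (χ ((x : Perm (Fin n))⁻¹ y) - χ y) ^ 2)
    have h5 : ∀ g : Alt n, (f (g * x) - f g) ^ 2 = (χ ((x : Perm (Fin n))⁻¹
        ((g : Perm (Fin n))⁻¹ x₀)) - χ ((g : Perm (Fin n))⁻¹ x₀)) ^ 2 := by
      intro g
      rw [hf]
      simp only [Subgroup.coe_mul, mul_inv_rev, Perm.mul_apply]
      ring
    rw [Finset.sum_congr rfl fun g _ => h5 g, h4]
    congr 1
    rw [Finset.card_filter]
    push_cast
    refine Finset.sum_congr rfl fun y _ => ?_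
    rw [hχ]
    simp only
    by_cases g1 : (x : Perm (Fin n))⁻¹ y ∈ E
    · by_cases g2 : y ∈ E
      · rw [if_pos g1, if_pos g2, if_neg (by tauto)]; norm_num
      · rw [if_pos g1, if_neg g2, if_pos (by tauto)]; norm_num
    · by_cases g2 : y ∈ E
      · rw [if_neg g1, if_pos g2, if_pos (by tauto)]; norm_num
      · rw [if_neg g1, if_neg g2, if_neg (by tauto)]; norm_num
  obtain ⟨A, hA⟩ : ∃ A : ℝ, A = ∑ g, f g ^ 2 := ⟨_, rfl⟩
  rw [← hA] at h1 h2
  have h4 : (n : ℝ) * ∑ i : Fin 2, ∑ g, (f (g * (![a, b] : Fin 2 → Alt n) i) - f g) ^ 2 ≤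
      Fintype.card (Alt n) * ((#{i | (a : Perm (Fin n)) i ≠ i} : ℕ) + 2) := by
    rw [Fin.sum_univ_two, mul_add]
    have e1 : (![a, b] : Fin 2 → Alt n) 0 = a := rfl
    have e2 : (![a, b] : Fin 2 → Alt n) 1 = b := rfl
    rw [e1, e2, h3, h3, ← mul_add]
    refine mul_le_mul_of_nonneg_left ?_ hc.le
    have e3 : ((#(Finset.univ.filter (fun y => ¬ ((a : Perm (Fin n))⁻¹ y ∈ E ↔ y ∈ E))) : ℕ) : ℝ)
        ≤ (#{i | (a : Perm (Fin n)) i ≠ i} : ℕ) := by exact_mod_cast change_le' _ E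
    have e4 : ((#(Finset.univ.filter (fun y => ¬ ((b : Perm (Fin n))⁻¹ y ∈ E ↔ y ∈ E))) : ℕ) : ℝ)
        ≤ 2 := by
      have := change_le (b : Perm (Fin n)) E
      exact_mod_cast (by omega :
        #(Finset.univ.filter (fun y => ¬ ((b : Perm (Fin n))⁻¹ y ∈ E ↔ y ∈ E))) ≤ 2)
    linarith
  obtain ⟨T, hT⟩ : ∃ T : ℝ, T = ∑ i : Fin 2, ∑ g, (f (g * (![a, b] : Fin 2 → Alt n) i) - f g) ^ 2
    := ⟨_, rfl⟩
  rw [← hT] at h1 h4
  have h5 : 4 * ε * A ≤ T := by
    have : A - T / (2 * ((2 : ℕ) : ℝ)) ≤ (1 - ε) * A := h1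
    push_cast at this
    linarith
  have h6 : 4 * ε * (m - m * m / n) ≤ (#{i | (a : Perm (Fin n)) i ≠ i} : ℕ) + 2 := by
    have h7 : (n : ℝ) * (4 * ε * A) ≤ n * T := mul_le_mul_of_nonneg_left h5 hn0.le
    have h8 : Fintype.card (Alt n) * (4 * ε * ((m : ℝ) - m * m / n)) ≤ Fintype.card (Alt n) *
        (((#{i | (a : Perm (Fin n)) i ≠ i} : ℕ) : ℝ) + 2) := by
      calc Fintype.card (Alt n) * (4 * ε * ((m : ℝ) - m * m / n))
          = 4 * ε * (Fintype.card (Alt n) * ((m : ℝ) - m * m / n)) := by ring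
        _ = 4 * ε * (n * A) := by rw [h2]
        _ = n * (4 * ε * A) := by ring
        _ ≤ n * T := h7
        _ ≤ _ := h4
    exact le_of_mul_le_mul_left h8 hc
  have h7 : (n : ℝ) / 5 ≤ m - m * m / n := by
    have m1 : (n : ℝ) - 1 ≤ 2 * m := by
      have : n ≤ 2 * m + 1 := by omega
      have : (n : ℝ) ≤ 2 * m + 1 := by exact_mod_cast this
      linarith
    have m2 : 2 * (m : ℝ) ≤ n := by
      have : 2 * m ≤ n := by omega
      exact_mod_cast this
    have m3 : (5 : ℝ) ≤ n := by exact_mod_cast hn5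
    have : (m : ℝ) - m * m / n = m * (n - m) / n := by field_simp
    rw [this, div_le_div_iff₀ (by norm_num) hn0]
    nlinarith
  have h8 : 4 * ε * (n / 5) ≤ 4 * ε * (m - m * m / n) :=
    mul_le_mul_of_nonneg_left h7 (by positivity)
  linarith

end

end Pool.Agent.K1H7.EP
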