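import Pool.Agent.K1H7.EP.Numer

/-!
Many second elements.
-/

namespace Pool.Agent.K1H7.EP
open Finset Equiv Equiv.Perm

set_option linter.unusedSectionVars false

noncomputable section

section
variable {Ω : Type*} [Fintype Ω] [DecidableEq Ω] {M D L q r K : ℕ} [NeZero M] [NeZero q]
  {a : Perm Ω} {τ : Fin K × Fin 4 → ZMod M}

/-- rearranging the cycles -/
def PData.move (P : PData a M D L q r) (σ : Perm (ZMod q × Fin r))
    (hσ : ∀ y, σ (0, y) = (0, y)) : PData a M D L q r where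
  ι := P.ι
  θ := σ.toEmbedding.trans P.θ
  disj := P.disj
  th1 z w := P.th1 (σ z) w
  th2 z w := P.th2 (σ z) w
  th3 y := by
    obtain ⟨w, hw⟩ := P.th3 y
    refine ⟨w, ?_⟩
    change P.θ (σ (0, y)) = _
    rw [hσ, hw]
  th4 x := by
    rcases P.th4 x with h | h | ⟨z, h⟩
    · exact Or.inl h
    · exact Or.inr (Or.inl h)
    · refine Or.inr (Or.inr ⟨σ⁻¹ z, ?_⟩)
      change x = P.θ (σ (σ⁻¹ z))
      rw [app_inv, h]
  th5 T hT := P.th5 T fun x hx => by
    obtain ⟨⟨z, hz⟩, hw⟩ := hT x hx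
    exact ⟨⟨σ z, hz⟩, hw⟩
  th6 := P.th6

lemma bb_inj (P : PData a M D L q r) (hτ : Slots τ) (s : Fin K × Fin 4 → Perm (Fin 3 × Fin L))
    (σ σ' : Perm (ZMod q × Fin r)) (hσ : ∀ y, σ (0, y) = (0, y)) (hσ' : ∀ y, σ' (0, y) = (0, y))
    (h : bb (P.move σ hσ) hτ s = bb (P.move σ' hσ') hτ s) : σ = σ' := by
  have h1 : ve (σ.toEmbedding.trans P.θ) (rt 1) = ve (σ'.toEmbedding.trans P.θ) (rt 1) :=
    mul_left_cancel h
  have h2 : ∀ (σ : Perm (ZMod q × Fin r)) (hσ : ∀ y, σ (0, y) = (0, y)) (k : ℕ) (y : Fin r),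
      (ve (σ.toEmbedding.trans P.θ) (rt 1) ^ k) (P.θ (0, y)) = P.θ (σ ((k : ZMod q), y)) := by
    intro σ hσ k y
    have h3 : P.θ (0, y) = (σ.toEmbedding.trans P.θ) (0, y) := by
      change _ = P.θ (σ (0, y))
      rw [hσ]
    rw [h3, ← map_pow, rt_pow, ve_apply, rt_apply]
    change P.θ (σ ((0 : ZMod q) + k, y)) = _
    rw [zero_add]
  ext1 z
  have h3 := h2 σ hσ z.1.val z.2
  have h4 := h2 σ' hσ' z.1.val z.2
  rw [h1, h4] at h3
  have h5 := P.θ.injective h3
  rw [ZMod.natCast_zmod_val] at h5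
  exact h5.symm

lemma card_le (P : PData a M D L q r) :
    Fintype.card Ω ≤ 2 * (M * L) + Fintype.card {z : ZMod q × Fin r // z.1 ≠ 0} := by
  classical
  have h1 : (Finset.univ : Finset Ω) ⊆ (Finset.univ.image P.ι ∪
      Finset.univ.image (fun z => a (P.ι z))) ∪
        (Finset.univ.filter (fun z : ZMod q × Fin r => z.1 ≠ 0)).image P.θ := by
    intro x _
    rw [Finset.mem_union, Finset.mem_union, Finset.mem_image, Finset.mem_image, Finset.mem_image]
    rcases P.th4 x with ⟨w, h⟩ | ⟨w, h⟩ | ⟨z, h⟩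
    · exact Or.inl (Or.inl ⟨w, Finset.mem_univ _, h.symm⟩)
    · exact Or.inl (Or.inr ⟨w, Finset.mem_univ _, h.symm⟩)
    · by_cases hz : z.1 = 0
      · obtain ⟨w, hw⟩ := P.th3 z.2
        refine Or.inl (Or.inr ⟨w, Finset.mem_univ _, ?_⟩)
        rw [← hw, h]
        congr 1
        ext1
        · exact hz.symm
        · rfl
      · exact Or.inr ⟨z, by simpa using hz, h.symm⟩
  have h2 := Finset.card_le_card h1
  have h3 := Finset.card_union_le (Finset.univ.image P.ι ∪
      Finset.univ.image (fun z => a (P.ι z)))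
        ((Finset.univ.filter (fun z : ZMod q × Fin r => z.1 ≠ 0)).image P.θ)
  have h4 := Finset.card_union_le (Finset.univ.image P.ι)
      (Finset.univ.image (fun z => a (P.ι z)))
  have h5 : #(Finset.univ.image P.ι) ≤ M * L := by
    refine Finset.card_image_le.trans ?_
    rw [Finset.card_univ, Fintype.card_prod, ZMod.card, Fintype.card_fin]
  have h6 : #(Finset.univ.image (fun z => a (P.ι z))) ≤ M * L := by
    refine Finset.card_image_le.trans ?_
    rw [Finset.card_univ, Fintype.card_prod, ZMod.card, Fintype.card_fin]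
  have h7 : #((Finset.univ.filter (fun z : ZMod q × Fin r => z.1 ≠ 0)).image P.θ) ≤
      Fintype.card {z : ZMod q × Fin r // z.1 ≠ 0} := by
    refine Finset.card_image_le.trans ?_
    rw [Fintype.card_subtype]
  rw [Finset.card_univ] at h2
  omega

end

/-- a large factorial -/
lemma fact_ge (δ : ℝ) (hδ : 0 < δ) (n m : ℕ) (hn : 8 ≤ n)
    (hm : (1 - δ / 2) * n ≤ m) : ((n.factorial : ℝ)) ^ (1 - δ) ≤ m.factorial := by
  have hn0 : (0 : ℝ) < n := by exact_mod_cast (by omega : 0 < n)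
  have hn1 : (1 : ℝ) ≤ n := by exact_mod_cast (by omega : 1 ≤ n)
  have hf1 : (1 : ℝ) ≤ n.factorial := by exact_mod_cast Nat.one_le_iff_ne_zero.2 n.factorial_ne_zero
  have hf0 : (0 : ℝ) < n.factorial := by linarith
  rcases le_total n m with h | h
  · calc ((n.factorial : ℝ)) ^ (1 - δ) ≤ (n.factorial : ℝ) ^ (1 : ℝ) :=
          Real.rpow_le_rpow_of_exponent_le hf1 (by linarith)
      _ = n.factorial := Real.rpow_one _
      _ ≤ m.factorial := by exact_mod_cast Nat.factorial_le h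
  · have h1 : (n.factorial : ℝ) ≤ m.factorial * (n : ℝ) ^ (n - m) := by
      have h2 := Nat.factorial_mul_descFactorial (Nat.sub_le n m)
      have h3 : n - (n - m) = m := by omega
      rw [h3] at h2
      have h4 := Nat.descFactorial_le_pow n (n - m)
      have h5 : n.factorial ≤ m.factorial * n ^ (n - m) := by
        rw [← h2]; exact Nat.mul_le_mul_left _ h4
      exact_mod_cast h5
    have h2 : (n : ℝ) ^ (n - m) ≤ (n : ℝ) ^ (δ / 2 * n) := by
      rw [← Real.rpow_natCast]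
      refine Real.rpow_le_rpow_of_exponent_le hn1 ?_
      rw [Nat.cast_sub h]
      linarith
    have h3 : (n : ℝ) ^ (δ / 2 * n) ≤ (n.factorial : ℝ) ^ δ := by
      have h4 : (n : ℝ) ^ n / n.factorial ≤ Real.exp n := Real.pow_div_factorial_le_exp _ hn0.le n
      have h5 : ((n : ℝ) / Real.exp 1) ^ n ≤ n.factorial := by
        rw [div_pow, ← Real.exp_nat_mul, mul_one, div_le_iff₀ (Real.exp_pos _)]
        rw [div_le_iff₀ hf0] at h4
        linarith
      have h6 : (n : ℝ) ^ (1 / 2 : ℝ) ≤ n / Real.exp 1 := by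
        rw [le_div_iff₀ (Real.exp_pos _)]
        have h7 : Real.exp 1 ≤ (n : ℝ) ^ (1 / 2 : ℝ) := by
          rw [← Real.sqrt_eq_rpow]
          refine Real.le_sqrt_of_sq_le ?_
          have h8 := Real.exp_one_lt_d9
          have h9 : Real.exp 1 ^ 2 ≤ 2.7182818286 ^ 2 :=
            pow_le_pow_left₀ (Real.exp_pos _).le h8.le 2
          have h10 : (8 : ℝ) ≤ n := by exact_mod_cast hn
          refine h9.trans (le_trans (by norm_num) h10)
        calc (n : ℝ) ^ (1 / 2 : ℝ) * Real.exp 1 ≤ (n : ℝ) ^ (1 / 2 : ℝ) * (n : ℝ) ^ (1 / 2 : ℝ) :=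
              mul_le_mul_of_nonneg_left h7 (by positivity)
          _ = n := by
              rw [← Real.rpow_add hn0]; norm_num
      calc (n : ℝ) ^ (δ / 2 * n) = (((n : ℝ) ^ (1 / 2 : ℝ)) ^ n) ^ δ := by
            rw [← Real.rpow_natCast, ← Real.rpow_mul hn0.le, ← Real.rpow_mul hn0.le]
            congr 1; ring
        _ ≤ ((n / Real.exp 1) ^ n) ^ δ := by
            refine Real.rpow_le_rpow (by positivity) ?_ hδ.le
            exact pow_le_pow_left₀ (by positivity) h6 n
        _ ≤ (n.factorial : ℝ) ^ δ := Real.rpow_le_rpow (by positivity) h5 hδ.le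
    have h4 : (n.factorial : ℝ) ≤ m.factorial * (n.factorial : ℝ) ^ δ :=
      h1.trans (mul_le_mul_of_nonneg_left (h2.trans h3) (by positivity))
    have h5 : (0 : ℝ) < (n.factorial : ℝ) ^ δ := Real.rpow_pos_of_pos hf0 _
    rw [Real.rpow_sub hf0, Real.rpow_one, div_le_iff₀ h5]
    exact h4

end

end Pool.Agent.K1H7.EP
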