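import Pool.Agent.K1H7.EP.Pair

/-!
Existence of the combinatorial data.
-/

namespace Pool.Agent.K1H7.EP
open Finset Equiv Equiv.Perm

set_option linter.unusedSectionVars false

noncomputable section

section
variable {Ω : Type*} [Fintype Ω] [DecidableEq Ω]

/-- a large set disjoint from its image -/
lemma exists_Y (a : Perm Ω) :
    ∃ Y : Finset Ω, (∀ y ∈ Y, a y ∉ Y) ∧ #{i | a i ≠ i} ≤ 3 * #Y := by
  classical
  obtain ⟨Y, hY, hmax⟩ := Finset.exists_max_image
    (Finset.univ.filter (fun Y : Finset Ω => ∀ y ∈ Y, a y ∉ Y)) Finset.card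
    ⟨∅, by simp⟩
  rw [Finset.mem_filter] at hY
  refine ⟨Y, hY.2, ?_⟩
  have hsub : (Finset.univ.filter (fun i => a i ≠ i)) ⊆
      (Y ∪ Y.image a) ∪ Y.image (a⁻¹ : Perm Ω) := by
    intro z hz
    rw [Finset.mem_filter] at hz
    rw [Finset.mem_union, Finset.mem_union]
    by_contra hcon
    push Not at hcon
    obtain ⟨⟨h1, h2⟩, h3⟩ := hcon
    have h4 : ¬ ∀ y ∈ insert z Y, a y ∉ insert z Y := by
      intro h5
      have := hmax (insert z Y) (by rw [Finset.mem_filter]; exact ⟨Finset.mem_univ _, h5⟩)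
      rw [Finset.card_insert_of_notMem h1] at this
      omega
    push Not at h4
    obtain ⟨y, hy1, hy2⟩ := h4
    rcases Finset.mem_insert.1 hy1 with rfl | hy
    · rcases Finset.mem_insert.1 hy2 with h | h
      · exact hz.2 h
      · apply h3
        rw [Finset.mem_image]
        exact ⟨a y, h, inv_app a y⟩
    · rcases Finset.mem_insert.1 hy2 with h | h
      · apply h2
        rw [Finset.mem_image]
        exact ⟨y, hy, h⟩
      · exact hY.2 y hy h
  have h1 := Finset.card_le_card hsub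
  have h2 := Finset.card_union_le (Y ∪ Y.image a) (Y.image (a⁻¹ : Perm Ω))
  have h3 := Finset.card_union_le Y (Y.image a)
  have h4 : #(Y.image a) ≤ #Y := Finset.card_image_le
  have h5 : #(Y.image (a⁻¹ : Perm Ω)) ≤ #Y := Finset.card_image_le
  omega

theorem pdata_of (a : Perm Ω) (M D L q : ℕ) [NeZero M] [NeZero q] (hq : 2 ≤ q) (Y : Finset Ω)
    (hY : ∀ y ∈ Y, a y ∉ Y) (hML : M * L ≤ #Y) (hD : 2 * D ≤ M)
    (h3 : 3 * (M * L) ≤ Fintype.card Ω)
    (hn : 2 * (Fintype.card Ω / (q - 1) + q) ≤ M * L) : ∃ r, Nonempty (PData a M D L q r) := by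
  classical
  obtain ⟨e0⟩ : Nonempty ((ZMod M × Fin L) ↪ Y) := Function.Embedding.nonempty_of_card_le (by
    rw [Fintype.card_prod, ZMod.card, Fintype.card_fin, Fintype.card_coe]; exact hML)
  obtain ⟨ι, hι⟩ : ∃ ι : ZMod M × Fin L ↪ Ω, ∀ z, ι z ∈ Y :=
    ⟨e0.trans (Function.Embedding.subtype _), fun z => (e0 z).2⟩
  have hdisj : ∀ z w, a (ι z) ≠ ι w := by
    intro z w h
    exact hY _ (hι z) (by rw [h]; exact hι w)
  obtain ⟨A, hA⟩ : ∃ A : Finset Ω, A = Finset.univ.image ι := ⟨_, rfl⟩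
  have hAm : ∀ p, p ∈ A ↔ ∃ z, p = ι z := by
    intro p
    rw [hA, Finset.mem_image]
    constructor
    · rintro ⟨z, -, h⟩; exact ⟨z, h.symm⟩
    · rintro ⟨z, h⟩; exact ⟨z, Finset.mem_univ _, h.symm⟩
  obtain ⟨B, hB⟩ : ∃ B : Finset Ω, B = Finset.univ.image (fun z => a (ι z)) := ⟨_, rfl⟩
  have hBm : ∀ p, p ∈ B ↔ ∃ z, p = a (ι z) := by
    intro p
    rw [hB, Finset.mem_image]
    constructor
    · rintro ⟨z, -, h⟩; exact ⟨z, h.symm⟩
    · rintro ⟨z, h⟩; exact ⟨z, Finset.mem_univ _, h.symm⟩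
  obtain ⟨Fr, hFr⟩ : ∃ Fr : Finset Ω, Fr = (Finset.univ.filter
    (fun z : ZMod M × Fin L => D ≤ z.1.val)).image (fun z => a (ι z)) := ⟨_, rfl⟩
  have hinj : Function.Injective (fun z => a (ι z)) := a.injective.comp ι.injective
  have hFm : ∀ p, p ∈ Fr ↔ ∃ z, p = a (ι z) ∧ D ≤ z.1.val := by
    intro p
    rw [hFr, Finset.mem_image]
    constructor
    · rintro ⟨z, h1, h⟩
      exact ⟨z, h.symm, (Finset.mem_filter.1 h1).2⟩
    · rintro ⟨z, h, h1⟩; exact ⟨z, by simpa using h1, h.symm⟩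
  have hFB : Fr ⊆ B := by
    intro p hp
    obtain ⟨z, hz, -⟩ := (hFm p).1 hp
    exact (hBm p).2 ⟨z, hz⟩
  have hFc : M * L ≤ 2 * #Fr := by
    rw [hFr, Finset.card_image_of_injective _ hinj]
    have h1 : #(Finset.univ.filter (fun z : ZMod M × Fin L => D ≤ z.1.val)) +
        #(Finset.univ.filter (fun z : ZMod M × Fin L => ¬ D ≤ z.1.val)) = M * L := by
      rw [Finset.card_filter_add_card_filter_not, Finset.card_univ, Fintype.card_prod, ZMod.card,
        Fintype.card_fin]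
    have h2 : #(Finset.univ.filter (fun z : ZMod M × Fin L => ¬ D ≤ z.1.val)) ≤ D * L := by
      have : #(Finset.univ : Finset (Fin D × Fin L)) = D * L := by
        rw [Finset.card_univ, Fintype.card_prod, Fintype.card_fin, Fintype.card_fin]
      rw [← this]
      refine Finset.card_le_card_of_surjOn
        (fun w : Fin D × Fin L => (((w.1 : ℕ) : ZMod M), w.2)) ?_
      intro z hz
      rw [Finset.mem_coe, Finset.mem_filter] at hz
      refine ⟨(⟨z.1.val, by omega⟩, z.2), by simp, ?_⟩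
      ext1
      · exact ZMod.natCast_zmod_val z.1
      · rfl
    have h4 : 2 * (D * L) ≤ M * L := by
      calc 2 * (D * L) = (2 * D) * L := by ring
        _ ≤ _ := Nat.mul_le_mul_right _ hD
    omega
  -- the rest
  obtain ⟨R, hR⟩ : ∃ R : Finset Ω, R = (A ∪ B)ᶜ := ⟨_, rfl⟩
  have hRm : ∀ p, p ∈ R ↔ p ∉ A ∧ p ∉ B := by
    intro p
    rw [hR, Finset.mem_compl, Finset.mem_union]; push Not; rfl
  have hRF : Disjoint R Fr := by
    rw [Finset.disjoint_left]
    intro p hp hp'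
    exact ((hRm p).1 hp).2 (hFB hp')
  obtain ⟨r, hr⟩ : ∃ r, r = #R / (q - 1) + 1 := ⟨_, rfl⟩
  have hRn : #R ≤ Fintype.card Ω := Finset.card_le_univ _
  have hdm := Nat.div_add_mod (#R) (q - 1)
  have hml := Nat.mod_lt (#R) (show 0 < q - 1 by omega)
  have hdiv : #R / (q - 1) ≤ Fintype.card Ω / (q - 1) := Nat.div_le_div_right hRn
  have hr1 : r * (q - 1) = (q - 1) * (#R / (q - 1)) + (q - 1) := by rw [hr]; ring
  have hqr : q * r = r * (q - 1) + r := by
    obtain ⟨q', rfl⟩ : ∃ q', q = q' + 1 := ⟨q - 1, by omega⟩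
    simp only [Nat.add_sub_cancel]; ring
  have hT1 : #R + r ≤ q * r := by omega
  have hT2 : q * r ≤ #R + #Fr := by omega
  obtain ⟨T, hT3, hT4, hT5⟩ := Finset.exists_subsuperset_card_eq
    (s := R) (t := R ∪ Fr) Finset.subset_union_left (n := q * r) (by omega)
    (by rw [Finset.card_union_of_disjoint hRF]; exact hT2)
  have hTR : #(T \ R) = q * r - #R := by rw [Finset.card_sdiff_of_subset hT3, hT5]
  have hTF : ∀ p, p ∈ T → p ∉ R → p ∈ Fr := by
    intro p hp hp'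
    exact (Finset.mem_union.1 (hT4 hp)).resolve_left hp'
  obtain ⟨inj⟩ : Nonempty (Fin r ↪ ↥(T \ R)) := Function.Embedding.nonempty_of_card_le (by
    rw [Fintype.card_fin, Fintype.card_coe, hTR]; omega)
  have hinjm : ∀ y, (inj y : Ω) ∈ T ∧ (inj y : Ω) ∉ R := fun y => Finset.mem_sdiff.1 (inj y).2
  obtain ⟨g, hg⟩ := Finset.exists_equiv_extend_of_card_eq (α := ZMod q × Fin r) (t := T)
    (by rw [Fintype.card_prod, ZMod.card, Fintype.card_fin, hT5])
    (s := Finset.univ.filter (fun z : ZMod q × Fin r => z.1 = 0))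
    (f := fun z => (inj z.2 : Ω)) (by
      intro p hp
      rw [Finset.mem_image] at hp
      obtain ⟨z, -, hz⟩ := hp
      rw [← hz]
      exact (hinjm z.2).1) (by
      intro z hz z' hz' h
      rw [Finset.mem_coe, Finset.mem_filter] at hz hz'
      have h1 := inj.injective (Subtype.ext h)
      ext1
      · rw [hz.2, hz'.2]
      · exact h1)
  obtain ⟨θ, hθ⟩ : ∃ θ : ZMod q × Fin r ↪ Ω, ∀ z, θ z = (g z : Ω) :=
    ⟨g.toEmbedding.trans (Function.Embedding.subtype _), fun z => rfl⟩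
  have hθT : ∀ z, θ z ∈ T := fun z => by rw [hθ]; exact (g z).2
  have hAB : ∀ p, p ∈ A → p ∈ B → False := by
    intro p h1 h2
    obtain ⟨z, hz⟩ := (hAm p).1 h1
    obtain ⟨w, hw⟩ := (hBm p).1 h2
    exact hdisj w z (hw.symm.trans hz)
  refine ⟨r, ⟨PData.mk ι θ hdisj ?_ ?_ ?_ ?_ ?_ h3⟩⟩
  · intro z w h
    have h1 : θ z ∈ A := (hAm _).2 ⟨w, h⟩
    by_cases h2 : θ z ∈ R
    · exact ((hRm _).1 h2).1 h1
    · exact hAB _ h1 (hFB (hTF _ (hθT z) h2))
  · intro z w h
    have h1 : θ z ∈ B := (hBm _).2 ⟨w, h⟩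
    have h2 : θ z ∉ R := fun h2 => ((hRm _).1 h2).2 h1
    obtain ⟨w', hw', hD'⟩ := (hFm _).1 (hTF _ (hθT z) h2)
    have h4 : w = w' := hinj (h.symm.trans hw')
    rw [h4]
    exact hD'
  · intro y
    have h1 := hg (0, y) (by simp)
    rw [← hθ] at h1
    rw [h1]
    obtain ⟨w', hw', -⟩ := (hFm _).1 (hTF _ (hinjm y).1 (hinjm y).2)
    exact ⟨w', hw'⟩
  · intro x
    by_cases h1 : x ∈ A
    · exact Or.inl ((hAm x).1 h1)
    by_cases h2 : x ∈ B
    · exact Or.inr (Or.inl ((hBm x).1 h2))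
    right; right
    have h4 : x ∈ T := hT3 ((hRm x).2 ⟨h1, h2⟩)
    refine ⟨g.symm ⟨x, h4⟩, ?_⟩
    rw [hθ, Equiv.apply_symm_apply]
  · intro T' hT'
    have h1 : T' ⊆ T \ R := by
      intro x hx
      obtain ⟨⟨z, hz⟩, hw⟩ := hT' x hx
      rw [Finset.mem_sdiff]
      refine ⟨by rw [hz]; exact hθT z, fun h2 => ((hRm _).1 h2).2 ((hBm x).2 hw)⟩
    have h2 := Finset.card_le_card h1
    rw [hTR] at h2
    omega

end

end

end Pool.Agent.K1H7.EP
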