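import Pool.Agent.K1H7.EP.Rel

/-!
Permutations of the grid `I × I`, `I = F × F`: in each row a translation or an elementary matrix.
-/

namespace Pool.Agent.K1H7.EP
open Finset Equiv

set_option linter.unusedSectionVars false
set_option linter.unnecessarySeqFocus false

noncomputable section

/-- the image of the data under a homomorphism -/
def RData.map {R G H : Type*} [CommRing R] [Group G] [Group H] (D : RData R G) (φ : G →* H) :
    RData R H where
  τ u := φ (D.τ u)
  e t := φ (D.e t)
  e' t := φ (D.e' t)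
  τ_add u v := by rw [D.τ_add, map_mul]
  he t x y := by rw [← map_mul, D.he, map_mul]
  he' t x y := by rw [← map_mul, D.he', map_mul]

/-- commutators are trivial in commutative groups -/
lemma RData.tau_triv {R G C : Type*} [CommRing R] [Group G] [CommGroup C] (D : RData R G)
    (ψ : G →* C) (u : R × R) : ψ (D.τ u) = 1 := by
  have h1 : ∀ y, ψ (D.τ (y, 0)) = 1 := by
    intro y
    have h := congrArg ψ (D.he 1 0 y)
    rw [map_mul, map_mul, mul_comm, mul_left_inj] at h
    have e : ((0 : R) + 1 * y, y) = (y, 0) + ((0 : R), y) := by simp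
    rw [e, D.τ_add, map_mul] at h
    exact (mul_eq_right.1 h.symm)
  have h2 : ∀ x, ψ (D.τ (0, x)) = 1 := by
    intro x
    have h := congrArg ψ (D.he' 1 x 0)
    rw [map_mul, map_mul, mul_comm, mul_left_inj] at h
    have e : (x, (0 : R) + 1 * x) = (0, x) + (x, (0 : R)) := by simp
    rw [e, D.τ_add, map_mul] at h
    exact (mul_eq_right.1 h.symm)
  have e : u = (u.1, 0) + (0, u.2) := by simp
  rw [e, D.τ_add, map_mul, h1, h2, one_mul]

section
variable {F : Type} [Field F] [Fintype F] [DecidableEq F]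

/-- row translations -/
def gτ (u : (F × F → F) × (F × F → F)) : Perm ((F × F) × (F × F)) where
  toFun p := (p.1, (p.2.1 + u.1 p.1, p.2.2 + u.2 p.1))
  invFun p := (p.1, (p.2.1 - u.1 p.1, p.2.2 - u.2 p.1))
  left_inv p := by simp
  right_inv p := by simp

/-- upper elementary matrices in the rows -/
def ge (t : F × F → F) : Perm ((F × F) × (F × F)) where
  toFun p := (p.1, (p.2.1 + t p.1 * p.2.2, p.2.2))
  invFun p := (p.1, (p.2.1 - t p.1 * p.2.2, p.2.2))
  left_inv p := by simp
  right_inv p := by simp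

/-- lower elementary matrices in the rows -/
def ge' (t : F × F → F) : Perm ((F × F) × (F × F)) where
  toFun p := (p.1, (p.2.1, p.2.2 + t p.1 * p.2.1))
  invFun p := (p.1, (p.2.1, p.2.2 - t p.1 * p.2.1))
  left_inv p := by simp
  right_inv p := by simp

/-- scaling of the first coordinate -/
def gd (α : F) (hα : α ≠ 0) : Perm ((F × F) × (F × F)) where
  toFun p := (p.1, (α * p.2.1, p.2.2))
  invFun p := (p.1, (α⁻¹ * p.2.1, p.2.2))
  left_inv p := by simp [hα]
  right_inv p := by simp [hα]

/-- the row data -/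
def gData : RData (F × F → F) (Perm ((F × F) × (F × F))) where
  τ := gτ
  e := ge
  e' := ge'
  τ_add u v := by
    ext p <;> simp [gτ] <;> ring
  he t x y := by
    ext p <;> simp [gτ, ge] <;> ring
  he' t x y := by
    ext p <;> simp [gτ, ge'] <;> ring

lemma ge_add (s t : F × F → F) : ge (s + t) = ge s * ge t := by
  ext p <;> simp [ge] <;> ring

lemma ge'_add (s t : F × F → F) : ge' (s + t) = ge' s * ge' t := by
  ext p <;> simp [ge'] <;> ring

lemma gd_ge (α : F) (hα : α ≠ 0) (s : F × F → F) :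
    gd α hα * ge s = ge (fun r => α * s r) * gd α hα := by
  ext p <;> simp [ge, gd] <;> ring

lemma gd_ge' (α : F) (hα : α ≠ 0) (s : F × F → F) :
    gd α hα * ge' (fun r => α * s r) = ge' s * gd α hα := by
  ext p <;> simp [ge', gd] <;> ring

lemma ge_triv {C : Type*} [CommGroup C] (ψ : Perm ((F × F) × (F × F)) →* C)
    (α : F) (h0 : α ≠ 0) (h1 : α ≠ 1) (t : F × F → F) : ψ (ge t) = 1 := by
  have hα : α - 1 ≠ 0 := sub_ne_zero.2 h1
  obtain ⟨s, hs⟩ : ∃ s : F × F → F, s = fun r => (α - 1)⁻¹ * t r := ⟨_, rfl⟩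
  have h := congrArg ψ (gd_ge α h0 s)
  rw [map_mul, map_mul, mul_comm, mul_left_inj] at h
  have e : (fun r => α * s r) = t + s := by
    ext r
    simp only [hs, Pi.add_apply]
    field_simp
    ring
  rw [e, ge_add, map_mul] at h
  exact (mul_eq_right.1 h.symm)

lemma ge'_triv {C : Type*} [CommGroup C] (ψ : Perm ((F × F) × (F × F)) →* C)
    (α : F) (h0 : α ≠ 0) (h1 : α ≠ 1) (t : F × F → F) : ψ (ge' t) = 1 := by
  have hα : α - 1 ≠ 0 := sub_ne_zero.2 h1
  obtain ⟨s, hs⟩ : ∃ s : F × F → F, s = fun r => (α - 1)⁻¹ * t r := ⟨_, rfl⟩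
  have h := congrArg ψ (gd_ge' α h0 s)
  rw [map_mul, map_mul, mul_comm, mul_left_inj] at h
  have e : (fun r => α * s r) = t + s := by
    ext r
    simp only [hs, Pi.add_apply]
    field_simp
    ring
  rw [e, ge'_add, map_mul] at h
  exact (mul_eq_right.1 h)

/-- transposition of the grid -/
def gsw : Perm ((F × F) × (F × F)) := Equiv.prodComm _ _

/-- the column data -/
def gDataC : RData (F × F → F) (Perm ((F × F) × (F × F))) :=
  gData.map (MulAut.conj (gsw (F := F))).toMonoidHom

lemma gDataC_tau (u : (F × F → F) × (F × F → F)) (p : (F × F) × (F × F)) :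
    gDataC.τ u p = ((p.1.1 + u.1 p.2, p.1.2 + u.2 p.2), p.2) := rfl

lemma gData_tau (u : (F × F → F) × (F × F → F)) (p : (F × F) × (F × F)) :
    gData.τ u p = (p.1, (p.2.1 + u.1 p.1, p.2.2 + u.2 p.1)) := rfl

/-- one row move -/
lemma row_move {N : Type*} (q : N → (F × F) × (F × F)) (hq : Function.Injective fun i => (q i).1)
    (l : N → F × F) : ∃ u, ∀ i, gData.τ u (q i) = ((q i).1, l i) := by
  refine ⟨(Function.extend (fun i => (q i).1) (fun i => (l i).1 - (q i).2.1) 0,
    Function.extend (fun i => (q i).1) (fun i => (l i).2 - (q i).2.2) 0), fun i => ?_⟩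
  rw [gData_tau]
  simp only
  rw [hq.extend_apply (fun i => (l i).1 - (q i).2.1) 0 i,
    hq.extend_apply (fun i => (l i).2 - (q i).2.2) 0 i]
  simp

/-- one column move -/
lemma col_move {N : Type*} (q : N → (F × F) × (F × F)) (hq : Function.Injective fun i => (q i).2)
    (l : N → F × F) : ∃ u, ∀ i, gDataC.τ u (q i) = (l i, (q i).2) := by
  refine ⟨(Function.extend (fun i => (q i).2) (fun i => (l i).1 - (q i).1.1) 0,
    Function.extend (fun i => (q i).2) (fun i => (l i).2 - (q i).1.2) 0), fun i => ?_⟩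
  rw [gDataC_tau]
  simp only
  rw [hq.extend_apply (fun i => (l i).1 - (q i).1.1) 0 i,
    hq.extend_apply (fun i => (l i).2 - (q i).1.2) 0 i]
  simp

/-- families of points in different rows are moved to each other by three moves -/
lemma three_moves {N : Type*} (q p : N → (F × F) × (F × F))
    (hq : Function.Injective fun i => (q i).1) (hp : Function.Injective fun i => (p i).1)
    (l : N → F × F) (hl : Function.Injective l) :
    ∃ u w z, ∀ i, (gData.τ z * gDataC.τ w * gData.τ u : Perm ((F × F) × (F × F))) (q i) = p i := by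
  obtain ⟨u, hu⟩ := row_move q hq l
  obtain ⟨w, hw⟩ := col_move (fun i => ((q i).1, l i)) hl (fun i => (p i).1)
  obtain ⟨z, hz⟩ := row_move (fun i => ((p i).1, l i)) hp (fun i => (p i).2)
  refine ⟨u, w, z, fun i => ?_⟩
  rw [Perm.mul_apply, Perm.mul_apply, hu i, hw i, hz i]

end

/-! ### the ring of functions -/
section
variable {F : Type} [Field F] [Fintype F] [DecidableEq F]

/-- the three generators -/
def gt (θ : F) : Fin 3 → (F × F → F) := ![fun _ => θ, fun r => r.1, fun r => r.2]

/-- the monoid of monomials -/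
def gMon (θ : F) : Submonoid (F × F → F) where
  carrier := {r | ∃ i j k : ℕ, r = gt θ 2 ^ k * (gt θ 1 ^ j * (gt θ 0 ^ i * 1))}
  one_mem' := ⟨0, 0, 0, by simp⟩
  mul_mem' := by
    rintro _ _ ⟨i, j, k, rfl⟩ ⟨i', j', k', rfl⟩
    exact ⟨i + i', j + j', k + k', by ring⟩

lemma gen_top (θ : F) (hθ : ∀ c : F, c ≠ 0 → ∃ i : ℕ, θ ^ i = c) :
    AddSubgroup.closure {r : F × F → F | ∃ i j k : ℕ,
      r = gt θ 2 ^ k * (gt θ 1 ^ j * (gt θ 0 ^ i * 1))} = ⊤ := by
  rw [eq_top_iff]
  intro f _
  have hsub : ∀ g : F × F → F, g ∈ Subring.closure (gMon θ : Set (F × F → F)) →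
      g ∈ AddSubgroup.closure {r : F × F → F | ∃ i j k : ℕ,
      r = gt θ 2 ^ k * (gt θ 1 ^ j * (gt θ 0 ^ i * 1))} := by
    intro g hg
    rw [Subring.mem_closure_iff, Submonoid.closure_eq] at hg
    exact hg
  apply hsub
  set P := Subring.closure (gMon θ : Set (F × F → F)) with hP
  have hc : ∀ c : F, (fun _ => c : F × F → F) ∈ P := by
    intro c
    by_cases hc : c = 0
    · subst hc
      exact P.zero_mem
    · obtain ⟨i, rfl⟩ := hθ c hc
      refine Subring.subset_closure ⟨i, 0, 0, ?_⟩
      ext r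
      simp [gt]
  have hX : (fun r => r.1 : F × F → F) ∈ P := by
    refine Subring.subset_closure ⟨0, 1, 0, ?_⟩
    ext r; simp [gt]
  have hY : (fun r => r.2 : F × F → F) ∈ P := by
    refine Subring.subset_closure ⟨0, 0, 1, ?_⟩
    ext r; simp [gt]
  have hf : f = ∑ a : F × F, (fun _ => f a : F × F → F) *
      ((1 - ((fun r => r.1 : F × F → F) - (fun _ => a.1)) ^ (Fintype.card F - 1)) *
        (1 - ((fun r => r.2 : F × F → F) - (fun _ => a.2)) ^ (Fintype.card F - 1))) := by
    have hcard : Fintype.card F - 1 ≠ 0 := by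
      have := Fintype.one_lt_card (α := F)
      omega
    have key : ∀ x y : F, 1 - (x - y) ^ (Fintype.card F - 1) = if x = y then 1 else 0 := by
      intro x y
      by_cases h : x = y
      · subst h; simp [hcard]
      · rw [if_neg h, FiniteField.pow_card_sub_one_eq_one _ (sub_ne_zero.2 h), sub_self]
    ext x
    rw [Finset.sum_apply, Finset.sum_eq_single x]
    · simp only [Pi.mul_apply, Pi.sub_apply, Pi.one_apply, Pi.pow_apply]
      rw [key, key]; simp
    · intro a _ ha
      simp only [Pi.mul_apply, Pi.sub_apply, Pi.one_apply, Pi.pow_apply]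
      rw [key, key]
      by_cases h1 : x.1 = a.1
      · by_cases h2 : x.2 = a.2
        · exact absurd (Prod.ext h1 h2).symm ha
        · simp [h2]
      · simp [h1]
    · simp
  rw [hf]
  refine Subring.sum_mem _ fun a _ => ?_
  refine P.mul_mem (hc _) (P.mul_mem ?_ ?_)
  · exact P.sub_mem P.one_mem (P.pow_mem (P.sub_mem hX (hc _)) _)
  · exact P.sub_mem P.one_mem (P.pow_mem (P.sub_mem hY (hc _)) _)

lemma exists_theta : ∃ θ : F, ∀ c : F, c ≠ 0 → ∃ i : ℕ, θ ^ i = c := by
  obtain ⟨g, hg⟩ := IsCyclic.exists_generator (α := Fˣ)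
  refine ⟨(g : F), fun c hc => ?_⟩
  have h := hg (Units.mk0 c hc)
  rw [← mem_powers_iff_mem_zpowers] at h
  obtain ⟨i, hi⟩ := h
  refine ⟨i, ?_⟩
  have := congrArg (fun u : Fˣ => (u : F)) hi
  simpa using this

end

end

end Pool.Agent.K1H7.EP
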