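import Pool.Agent.H942R2.LL.HIGHN
import Pool.Agent.H14R2.RC.S.NOINV
import Pool.Agent.H14R2.RC.S.DECOMP
import Pool.Agent.H14R2.RC.S.AMP1
import Pool.Agent.H20R2.RC.FR

/-!
Functions on `A_n` of high level: products of few disjoint 3-cycles in general position move them.
-/

namespace Pool.Agent.K1H7.EP
open Finset Equiv RC14
open scoped InnerProductSpace ComplexConjugate

set_option linter.unusedSectionVars false

noncomputable section

section
variable {V : Type*} [NormedAddCommGroup V] [InnerProductSpace ℂ V] [FiniteDimensional ℂ V]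

/-- the energy of all 3-cycles is a scalar on an irreducible representation -/
lemma c3_scalar {n : ℕ} (ρ : Alt n →* (V ≃ₗᵢ[ℂ] V)) (hirr : Irr ρ ⊤) :
    ∃ c : ℝ, ∀ v : V, ∑ s : Tup 3 n, ‖ρ (c3 s) v - v‖ ^ 2 = c * ‖v‖ ^ 2 := by
  obtain ⟨B, hB⟩ : ∃ B : Module.End ℂ V, B = ∑ s : Tup 3 n, op ρ (c3 s) := ⟨_, rfl⟩
  have hcomm : ∀ g, op ρ g * B = B * op ρ g := by
    intro g
    rw [hB, Finset.mul_sum, Finset.sum_mul]
    have h1 : ∀ s, op ρ g * op ρ (c3 s) =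
        op ρ (c3 (mv (g : Equiv.Perm (Fin n)) s)) * op ρ g := by
      intro s
      rw [← op_mul, ← op_mul, HIGHE.c3_conj]
      congr 1
      group
    rw [Finset.sum_congr rfl fun s _ => h1 s]
    exact Fintype.sum_equiv (mvE (g : Equiv.Perm (Fin n))) _ _ fun s => rfl
  have h := SCHUR ρ hirr B hcomm
  obtain ⟨μ, hμ⟩ : ∃ μ : ℂ, μ = LinearMap.trace ℂ V B / (Module.finrank ℂ V : ℂ) := ⟨_, rfl⟩
  rw [← hμ] at h
  refine ⟨2 * Fintype.card (Tup 3 n) - 2 * μ.re, fun v => ?_⟩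
  have h1 : ∀ s : Tup 3 n, ‖ρ (c3 s) v - v‖ ^ 2 = 2 * ‖v‖ ^ 2 - 2 * (⟪v, ρ (c3 s) v⟫_ℂ).re := by
    intro s
    have h2 := @norm_sub_sq ℂ V _ _ _ (ρ (c3 s) v) v
    rw [h2, (ρ (c3 s)).norm_map]
    have h3 : RCLike.re ⟪ρ (c3 s) v, v⟫_ℂ = (⟪v, ρ (c3 s) v⟫_ℂ).re := by
      rw [← inner_conj_symm, RCLike.conj_re]; rfl
    rw [h3]; ring
  rw [Finset.sum_congr rfl fun s _ => h1 s, Finset.sum_sub_distrib, ← Finset.mul_sum,
    ← Finset.mul_sum, ← Complex.re_sum, ← inner_sum]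
  have h4 : ∑ s : Tup 3 n, ρ (c3 s) v = B v := by
    rw [hB]
    simp
  rw [h4, h]
  simp only [LinearMap.smul_apply, Module.End.one_apply, inner_smul_right,
    inner_self_eq_norm_sq_to_K, Finset.sum_const, Finset.card_univ, nsmul_eq_mul]
  have h5 : (μ * ((‖v‖ : ℂ)) ^ 2).re = μ.re * ‖v‖ ^ 2 := by
    rw [← Complex.ofReal_pow, Complex.re_mul_ofReal]
  have h6 : (μ * ((RCLike.ofReal ‖v‖ : ℂ)) ^ 2).re = μ.re * ‖v‖ ^ 2 := h5
  rw [h6]; ring

end

/-- the energy of the 3-cycles on functions with vanishing marginals -/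
theorem high_energy (N n r : ℕ) (hN : 100 ≤ N) (hn : 1000 ≤ n) (hr : ∀ k : ℕ, N * k ≤ n → k ≤ r)
    (v : FA n) (hv : v ∈ HH r n) :
    1 / (7 * (N : ℝ)) * Fintype.card (Tup 3 n) * ‖v‖ ^ 2 ≤
      ∑ s : Tup 3 n, ‖RR n (c3 s) v - v‖ ^ 2 := by
  obtain ⟨D, W, -, hW, hdec⟩ := DECOMP (RR n) (HH r n) (HH_inv r n)
  obtain ⟨T, hT⟩ : ∃ T, T = Fintype.card (Tup 3 n) := ⟨_, rfl⟩
  have key := hdec T (fun t => c3 ((Fintype.equivFin (Tup 3 n)).symm (Fin.cast hT t)))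
    (fun _ => 1) (1 / (7 * (N : ℝ)) * Fintype.card (Tup 3 n)) (fun _ => zero_le_one) ?_ v hv
  · have e : ∑ t : Fin T, 1 * ‖RR n (c3 ((Fintype.equivFin (Tup 3 n)).symm (Fin.cast hT t))) v
        - v‖ ^ 2 = ∑ s : Tup 3 n, ‖RR n (c3 s) v - v‖ ^ 2 := by
      simp only [one_mul]
      subst hT
      exact Fintype.sum_equiv (Fintype.equivFin (Tup 3 n)).symm _ _ fun t => rfl
    rw [e] at key
    exact key
  · intro i w hw
    have e : ∀ w : FA n, ∑ t : Fin T,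
        1 * ‖RR n (c3 ((Fintype.equivFin (Tup 3 n)).symm (Fin.cast hT t))) w
        - w‖ ^ 2 = ∑ s : Tup 3 n, ‖RR n (c3 s) w - w‖ ^ 2 := by
      intro w
      simp only [one_mul]
      subst hT
      exact Fintype.sum_equiv (Fintype.equivFin (Tup 3 n)).symm _ _ fun t => rfl
    rw [e]
    have hirr := AMP1.irr_res (RR n) (W i) (hW i).1
    obtain ⟨c, hc⟩ := c3_scalar (res (RR n) (W i) (hW i).1.2.1) hirr
    have hne : ∃ u : W i, u ≠ 0 := by
      by_contra hcon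
      push Not at hcon
      apply (hW i).1.1
      rw [Submodule.eq_bot_iff]
      intro x hx
      exact congrArg Subtype.val (hcon ⟨x, hx⟩)
    obtain ⟨u, hu, hu2⟩ := LL14.HIGHNx.highA N hN n hn (res (RR n) (W i) (hW i).1.2.1) hne (by
      intro K hK x hx
      have := NOINV n r (x : FA n) ((hW i).2 x.2) K (hr _ hK) (by
        intro h hh
        have h1 := congrArg Subtype.val (hx h hh)
        exact h1)
      exact Subtype.ext this)
    rw [hc u] at hu2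
    have hu0 : 0 < ‖u‖ ^ 2 := by positivity
    have hcc : 1 / (7 * (N : ℝ)) * Fintype.card (Tup 3 n) ≤ c := by
      have : (1 / (7 * (N : ℝ)) * Fintype.card (Tup 3 n)) * ‖u‖ ^ 2 ≤ c * ‖u‖ ^ 2 := by
        calc _ = 1 / (7 * (N : ℝ)) * ‖u‖ ^ 2 * Fintype.card (Tup 3 n) := by ring
          _ ≤ _ := hu2
      exact le_of_mul_le_mul_right this hu0
    have h2 := hc ⟨w, hw⟩
    have h3 : ∑ s : Tup 3 n, ‖RR n (c3 s) w - w‖ ^ 2 = c * ‖w‖ ^ 2 := by
      have e1 : ‖(⟨w, hw⟩ : W i)‖ = ‖w‖ := rfl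
      rw [e1] at h2
      rw [← h2]
      refine Finset.sum_congr rfl fun s _ => ?_
      rw [Submodule.coe_norm, Submodule.coe_sub, res_apply]
    rw [h3]
    exact mul_le_mul_of_nonneg_right hcc (by positivity)

/-! ### symmetrised 3-cycles -/
section
variable {G : Type*} [Group G]
variable {V : Type*} [NormedAddCommGroup V] [InnerProductSpace ℂ V]

/-- `(ρ(c) + ρ(c)⁻¹)/2` -/
def Xo (ρ : G →* (V ≃ₗᵢ[ℂ] V)) (c : G) (v : V) : V := (1 / 2 : ℂ) • (ρ c v + ρ c⁻¹ v)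

lemma Xo_norm (ρ : G →* (V ≃ₗᵢ[ℂ] V)) (c : G) (hc : c ^ 3 = 1) (v : V) :
    ‖Xo ρ c v‖ ^ 2 = ‖v‖ ^ 2 - ‖ρ c v - v‖ ^ 2 / 4 := by
  unfold Xo
  rw [norm_smul, mul_pow]
  have h1 : ‖(1 / 2 : ℂ)‖ ^ 2 = 1 / 4 := by norm_num
  rw [h1]
  have h2 := parallelogram_law_with_norm ℂ (ρ c v) (ρ c⁻¹ v)
  rw [(ρ c).norm_map, (ρ c⁻¹).norm_map] at h2
  have h3 : ‖ρ c v - ρ c⁻¹ v‖ = ‖ρ c v - v‖ := by
    have h4 : ρ c⁻¹ (ρ c⁻¹ v) = ρ c v := by
      have : (ρ c⁻¹ * ρ c⁻¹) v = ρ c v := by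
        rw [← map_mul]
        congr 2
        have : c * c * c = 1 := by rw [← hc, pow_succ, pow_two]
        calc c⁻¹ * c⁻¹ = c⁻¹ * c⁻¹ * (c * c * c) := by rw [this, mul_one]
          _ = c := by group
      exact this
    have h5 : ρ c⁻¹ (ρ c v) = v := by
      rw [map_inv]
      exact (ρ c).symm_apply_apply v
    have h6 : ρ c v - ρ c⁻¹ v = -(ρ c⁻¹ (v - ρ c⁻¹ v)) + 0 := by
      rw [map_sub, h4]
      abel
    have h7 : ρ c v - v = ρ c (v - ρ c⁻¹ v) := by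
      rw [map_sub]
      have : ρ c (ρ c⁻¹ v) = v := by
        rw [map_inv]
        exact (ρ c).apply_symm_apply v
      rw [this]
    rw [h6, add_zero, norm_neg, (ρ c⁻¹).norm_map, h7, (ρ c).norm_map]
  rw [h3] at h2
  nlinarith [h2]

end

section
variable {n : ℕ}

/-- iterated symmetrised 3-cycles -/
def Yo : (m : ℕ) → (Fin m → Tup 3 n) → FA n → FA n
  | 0, _, v => v
  | m + 1, s, v => Xo (RR n) (c3 (s 0)) (Yo m (Fin.tail s) v)

/-- product of 3-cycles -/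
def zo {m : ℕ} (s : Fin m → Tup 3 n) : Alt n := (List.ofFn fun i => c3 (s i)).prod

lemma zo_succ {m : ℕ} (s : Fin (m + 1) → Tup 3 n) : zo s = c3 (s 0) * zo (Fin.tail s) := by
  unfold zo
  rw [List.ofFn_succ, List.prod_cons]
  rfl

lemma Yo_near (δ : ℝ) (v : FA n) : ∀ (m : ℕ) (s : Fin m → Tup 3 n) (g : Alt n),
    (∀ s' : Fin m → Tup 3 n, (∀ i, s' i = s i ∨ s' i = HIGHE.rev3 (s i)) →
      ‖RR n (g * zo s') v - v‖ ≤ δ) → ‖RR n g (Yo m s v) - v‖ ≤ δ := by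
  intro m
  induction m with
  | zero =>
    intro s g h
    have := h s (fun i => i.elim0)
    simpa [Yo, zo] using this
  | succ m ih =>
    intro s g h
    have e1 : RR n g (Yo (m + 1) s v) =
        (1 / 2 : ℂ) • (RR n (g * c3 (s 0)) (Yo m (Fin.tail s) v) +
          RR n (g * c3 (HIGHE.rev3 (s 0))) (Yo m (Fin.tail s) v)) := by
      rw [HIGHE.c3_rev, map_mul, map_mul]
      simp only [Yo, Xo, map_smul, map_add]
      rfl
    have a1 := ih (Fin.tail s) (g * c3 (s 0)) (by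
      intro s' hs'
      have := h (Fin.cons (s 0) s') (by
        intro i
        refine Fin.cases ?_ (fun i => ?_) i
        · left; simp
        · simpa [Fin.tail] using hs' i)
      rw [zo_succ] at this
      simpa [mul_assoc, Fin.tail_cons] using this)
    have a2 := ih (Fin.tail s) (g * c3 (HIGHE.rev3 (s 0))) (by
      intro s' hs'
      have := h (Fin.cons (HIGHE.rev3 (s 0)) s') (by
        intro i
        refine Fin.cases ?_ (fun i => ?_) i
        · right; simp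
        · simpa [Fin.tail] using hs' i)
      rw [zo_succ] at this
      simpa [mul_assoc, Fin.tail_cons] using this)
    rw [e1]
    have e2 : (1 / 2 : ℂ) • (RR n (g * c3 (s 0)) (Yo m (Fin.tail s) v) +
          RR n (g * c3 (HIGHE.rev3 (s 0))) (Yo m (Fin.tail s) v)) - v =
        (1 / 2 : ℂ) • (RR n (g * c3 (s 0)) (Yo m (Fin.tail s) v) - v) +
        (1 / 2 : ℂ) • (RR n (g * c3 (HIGHE.rev3 (s 0))) (Yo m (Fin.tail s) v) - v) := by
      module
    rw [e2]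
    refine (norm_add_le _ _).trans ?_
    rw [norm_smul, norm_smul]
    have : ‖(1 / 2 : ℂ)‖ = 1 / 2 := by norm_num
    rw [this]
    linarith

/-- the sum over all 3-cycles -/
lemma sum_Xo (N r : ℕ) (hN : 100 ≤ N) (hn : 1000 ≤ n) (hr : ∀ k : ℕ, N * k ≤ n → k ≤ r)
    (v : FA n) (hv : v ∈ HH r n) :
    ∑ s : Tup 3 n, ‖Xo (RR n) (c3 s) v‖ ^ 2 ≤
      (1 - 1 / (28 * (N : ℝ))) * Fintype.card (Tup 3 n) * ‖v‖ ^ 2 := by
  have h1 := high_energy N n r hN hn hr v hv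
  rw [Finset.sum_congr rfl fun s _ => Xo_norm (RR n) (c3 s) (HIGHA.c3_three s) v,
    Finset.sum_sub_distrib, ← Finset.sum_div]
  simp only [Finset.sum_const, Finset.card_univ, nsmul_eq_mul]
  have hN0 : (0 : ℝ) < N := by
    have : (100 : ℝ) ≤ N := by exact_mod_cast hN
    linarith
  have e : 1 / (28 * (N : ℝ)) = 1 / (7 * (N : ℝ)) / 4 := by field_simp; norm_num
  rw [e]
  linarith

lemma Xo_mem {r : ℕ} (c : Alt n) {v : FA n} (hv : v ∈ HH r n) : Xo (RR n) c v ∈ HH r n := by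
  unfold Xo
  exact Submodule.smul_mem _ _ (Submodule.add_mem _ (HH_inv r n _ _ hv) (HH_inv r n _ _ hv))

lemma Yo_mem {r : ℕ} {v : FA n} (hv : v ∈ HH r n) : ∀ (m : ℕ) (s : Fin m → Tup 3 n),
    Yo m s v ∈ HH r n := by
  intro m
  induction m with
  | zero => intro s; exact hv
  | succ m ih => intro s; exact Xo_mem _ (ih _)

end

end

end Pool.Agent.K1H7.EP
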