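import Pool.Agent.K1H7.EP.High

/-!
A product of few 3-cycles in general position which moves a given function of high level.
-/

namespace Pool.Agent.K1H7.EP
open Finset Equiv RC14
open scoped InnerProductSpace ComplexConjugate

set_option linter.unusedSectionVars false

noncomputable section

section
variable {n : ℕ} {I : Type} [Fintype I] [DecidableEq I]

lemma fib_le (β : Fin n → I) (w : ℕ) (hβ : ∀ i, #{x | β x = i} ≤ w) (U : Finset I) :
    #{x | β x ∈ U} ≤ U.card * w := by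
  classical
  have h1 : (univ.filter fun x => β x ∈ U) = U.biUnion fun i => univ.filter fun x => β x = i := by
    ext x; simp
  rw [h1]
  exact Finset.card_biUnion_le_card_mul _ _ _ fun i _ => hβ i

lemma count1 (hn : 3 ≤ n) (β : Fin n → I) (w : ℕ) (hβ : ∀ i, #{x | β x = i} ≤ w) (U : Finset I)
    (a : Fin 3) :
    (#{t : Tup 3 n | β (t a) ∈ U} : ℝ) * n ≤ U.card * w * Fintype.card (Tup 3 n) := by
  classical
  have hinj : Function.Injective ![a] := Function.injective_of_subsingleton _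
  have h1 := HIGHCaux.avg (⟨![a], hinj⟩ : Fin 1 ↪ Fin 3) hn
    (fun s : Tup 1 n => if β (s 0) ∈ U then (1 : ℝ) else 0)
  have e1 : ∑ t : Tup 3 n, (if β (((⟨![a], hinj⟩ : Fin 1 ↪ Fin 3).trans t) 0) ∈ U
      then (1 : ℝ) else 0) = #{t : Tup 3 n | β (t a) ∈ U} := by
    rw [Finset.sum_boole]
    rfl
  rw [e1, Finset.sum_boole] at h1
  have c3 : 0 < (Fintype.card (Tup 3 n) : ℝ) := by
    have : Nonempty (Tup 3 n) := ⟨Fin.castLEEmb (by omega)⟩
    exact_mod_cast Fintype.card_pos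
  have c1 : (Fintype.card (Tup 1 n) : ℝ) = n := by
    rw [Fintype.card_embedding_eq]; simp
  have n0 : (0 : ℝ) < n := by
    have : 0 < n := by omega
    exact_mod_cast this
  rw [c1, div_eq_div_iff c3.ne' n0.ne'] at h1
  rw [h1]
  have h2 : #{s : Tup 1 n | β (s 0) ∈ U} ≤ U.card * w := by
    refine le_trans ?_ (fib_le β w hβ U)
    refine Finset.card_le_card_of_injOn (fun s => s 0) ?_ ?_
    · intro s hs
      simpa using hs
    · intro s _ s' _ h
      ext l
      have : l = 0 := Subsingleton.elim _ _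
      subst this
      exact congrArg Fin.val h
  have h3 : (#{s : Tup 1 n | β (s 0) ∈ U} : ℝ) ≤ U.card * w := by exact_mod_cast h2
  gcongr

lemma count2 (hn : 3 ≤ n) (β : Fin n → I) (w : ℕ) (hβ : ∀ i, #{x | β x = i} ≤ w)
    (a b : Fin 3) (hab : a ≠ b) :
    (#{t : Tup 3 n | β (t a) = β (t b)} : ℝ) * (n * (n - 1)) ≤
      n * w * Fintype.card (Tup 3 n) := by
  classical
  have hinj : Function.Injective ![a, b] := by
    intro i j hij
    fin_cases i <;> fin_cases j <;> simp_all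
  have h1 := HIGHCaux.avg (⟨![a, b], hinj⟩ : Fin 2 ↪ Fin 3) hn
    (fun s : Tup 2 n => if β (s 0) = β (s 1) then (1 : ℝ) else 0)
  have e1 : ∑ t : Tup 3 n, (if β (((⟨![a, b], hinj⟩ : Fin 2 ↪ Fin 3).trans t) 0) =
      β (((⟨![a, b], hinj⟩ : Fin 2 ↪ Fin 3).trans t) 1)
      then (1 : ℝ) else 0) = #{t : Tup 3 n | β (t a) = β (t b)} := by
    rw [Finset.sum_boole]
    rfl
  rw [e1, Finset.sum_boole] at h1
  have c3 : 0 < (Fintype.card (Tup 3 n) : ℝ) := by
    have : Nonempty (Tup 3 n) := ⟨Fin.castLEEmb (by omega)⟩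
    exact_mod_cast Fintype.card_pos
  have n3 : (3 : ℝ) ≤ n := by exact_mod_cast hn
  have c2 : (Fintype.card (Tup 2 n) : ℝ) = n * (n - 1) := by
    rw [Fintype.card_embedding_eq]
    simp only [Fintype.card_fin]
    obtain ⟨m, rfl⟩ : ∃ m, n = m + 2 := ⟨n - 2, by omega⟩
    rw [Nat.descFactorial_succ, Nat.descFactorial_succ]
    simp
    ring
  have n0 : (0 : ℝ) < n * (n - 1) := by nlinarith
  rw [c2, div_eq_div_iff c3.ne' n0.ne'] at h1
  rw [h1]
  have h2 : #{s : Tup 2 n | β (s 0) = β (s 1)} ≤ n * w := by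
    have h3 : #{s : Tup 2 n | β (s 0) = β (s 1)} ≤
        #((univ : Finset (Fin n)).sigma fun x => univ.filter fun y => β y = β x) := by
      refine Finset.card_le_card_of_injOn (fun s => ⟨s 0, s 1⟩) ?_ ?_
      · intro s hs
        simp only [coe_filter, mem_univ, true_and, Set.mem_ofPred_eq] at hs
        simp [hs]
      · intro s _ s' _ h
        simp only [Sigma.mk.injEq, heq_eq_eq] at h
        ext l
        fin_cases l
        · exact congrArg Fin.val h.1
        · exact congrArg Fin.val h.2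
    refine h3.trans ?_
    rw [Finset.card_sigma]
    calc ∑ x : Fin n, #{y | β y = β x} ≤ ∑ x : Fin n, w := Finset.sum_le_sum fun x _ => hβ _
      _ = n * w := by simp
  have h3 : (#{s : Tup 2 n | β (s 0) = β (s 1)} : ℝ) ≤ n * w := by exact_mod_cast h2
  gcongr

/-- a triple is good: its points have different labels, outside `U` -/
def GoodT (β : Fin n → I) (U : Finset I) (t : Tup 3 n) : Prop :=
  (∀ a, β (t a) ∉ U) ∧ Function.Injective fun a => β (t a)

open Classical in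
lemma count_bad (hn : 3 ≤ n) (β : Fin n → I) (w : ℕ) (hβ : ∀ i, #{x | β x = i} ≤ w)
    (U : Finset I) :
    (#{t : Tup 3 n | ¬ GoodT β U t} : ℝ) * n ≤
      (3 * U.card + 6) * w * Fintype.card (Tup 3 n) := by
  classical
  have n3 : (3 : ℝ) ≤ n := by exact_mod_cast hn
  have hsub : (univ.filter fun t : Tup 3 n => ¬ GoodT β U t) ⊆
      ((univ.filter fun t : Tup 3 n => β (t 0) ∈ U) ∪
      (univ.filter fun t : Tup 3 n => β (t 1) ∈ U) ∪
      (univ.filter fun t : Tup 3 n => β (t 2) ∈ U)) ∪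
      ((univ.filter fun t : Tup 3 n => β (t 0) = β (t 1)) ∪
      (univ.filter fun t : Tup 3 n => β (t 0) = β (t 2)) ∪
      (univ.filter fun t : Tup 3 n => β (t 1) = β (t 2))) := by
    intro t ht
    simp only [mem_filter, mem_univ, true_and] at ht
    simp only [mem_union, mem_filter, mem_univ, true_and]
    by_contra hcon
    push Not at hcon
    obtain ⟨⟨⟨h0, h1⟩, h2⟩, ⟨h3, h4⟩, h5⟩ := hcon
    apply ht
    refine ⟨fun a => ?_, fun a b hab => ?_⟩
    · fin_cases a
      · exact h0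
      · exact h1
      · exact h2
    · simp only at hab
      fin_cases a <;> fin_cases b <;> simp_all [eq_comm]
  have hc := Finset.card_le_card hsub
  have hc2 : (#{t : Tup 3 n | ¬ GoodT β U t} : ℝ) ≤
      (#{t : Tup 3 n | β (t 0) ∈ U} + #{t : Tup 3 n | β (t 1) ∈ U} +
        #{t : Tup 3 n | β (t 2) ∈ U}) + (#{t : Tup 3 n | β (t 0) = β (t 1)} +
        #{t : Tup 3 n | β (t 0) = β (t 2)} + #{t : Tup 3 n | β (t 1) = β (t 2)}) := by
    have h1 := hc.trans ((Finset.card_union_le _ _).trans (add_le_add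
      ((Finset.card_union_le _ _).trans (add_le_add (Finset.card_union_le _ _) le_rfl))
      ((Finset.card_union_le _ _).trans (add_le_add (Finset.card_union_le _ _) le_rfl))))
    exact_mod_cast h1
  have k0 := count1 hn β w hβ U 0
  have k1 := count1 hn β w hβ U 1
  have k2 := count1 hn β w hβ U 2
  have l0 := count2 hn β w hβ 0 1 (by decide)
  have l1 := count2 hn β w hβ 0 2 (by decide)
  have l2 := count2 hn β w hβ 1 2 (by decide)
  set T : ℝ := ((Fintype.card (Tup 3 n) : ℕ) : ℝ) with hT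
  have hT0 : 0 ≤ T := by rw [hT]; positivity
  have key : ∀ x : ℝ, 0 ≤ x → x * (n * (n - 1)) ≤ n * w * T → x * n ≤ 2 * w * T := by
    intro x hx h
    have h1 : x * (n - 1) ≤ w * T := by
      have : n * (x * (n - 1)) ≤ n * (w * T) := by nlinarith
      exact le_of_mul_le_mul_left this (by linarith)
    have h2 : x * n ≤ 2 * (x * (n - 1)) := by nlinarith
    linarith
  have l0' := key _ (by positivity) l0
  have l1' := key _ (by positivity) l1
  have l2' := key _ (by positivity) l2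
  have hn0 : (0 : ℝ) ≤ n := by linarith
  have := mul_le_mul_of_nonneg_right hc2 hn0
  linarith

/-- one greedy step -/
lemma greedy_step (N r : ℕ) (hN : 100 ≤ N) (hn : 1000 ≤ n) (hr : ∀ k : ℕ, N * k ≤ n → k ≤ r)
    (β : Fin n → I) (w : ℕ) (hβ : ∀ i, #{x | β x = i} ≤ w) (U : Finset I)
    (hU : 56 * N * ((3 * U.card + 6) * w) ≤ n) (v : FA n) (hv : v ∈ HH r n) :
    ∃ t : Tup 3 n, GoodT β U t ∧
      ‖Xo (RR n) (c3 t) v‖ ^ 2 ≤ (1 - 1 / (56 * (N : ℝ))) * ‖v‖ ^ 2 := by
  classical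
  have hN0 : (100 : ℝ) ≤ N := by exact_mod_cast hN
  have hn0 : (1000 : ℝ) ≤ n := by exact_mod_cast hn
  have hbad := count_bad (by omega) β w hβ U
  have c3 : 0 < (Fintype.card (Tup 3 n) : ℝ) := by
    have : Nonempty (Tup 3 n) := ⟨Fin.castLEEmb (by omega)⟩
    exact_mod_cast Fintype.card_pos
  set T : ℝ := ((Fintype.card (Tup 3 n) : ℕ) : ℝ) with hT
  have hU' : 56 * (N : ℝ) * ((3 * U.card + 6) * w) ≤ n := by exact_mod_cast hU
  have hb2 : (#{t : Tup 3 n | ¬ GoodT β U t} : ℝ) ≤ 1 / (56 * (N : ℝ)) * T := by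
    rw [div_mul_eq_mul_div, one_mul, le_div_iff₀ (by positivity)]
    have h1 : (#{t : Tup 3 n | ¬ GoodT β U t} : ℝ) * n * (56 * N) ≤ n * T := by
      calc (#{t : Tup 3 n | ¬ GoodT β U t} : ℝ) * n * (56 * N) ≤
          ((3 * U.card + 6) * w * T) * (56 * N) := by gcongr
        _ = (56 * (N : ℝ) * ((3 * U.card + 6) * w)) * T := by ring
        _ ≤ n * T := by gcongr
    have h2 : n * ((#{t : Tup 3 n | ¬ GoodT β U t} : ℝ) * (56 * N)) ≤ n * T := by
      calc _ = (#{t : Tup 3 n | ¬ GoodT β U t} : ℝ) * n * (56 * N) := by ring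
        _ ≤ _ := h1
    exact le_of_mul_le_mul_left h2 (by linarith)
  have hsplit : (#{t : Tup 3 n | GoodT β U t} : ℝ) + #{t : Tup 3 n | ¬ GoodT β U t} = T := by
    rw [hT]
    have := Finset.card_filter_add_card_filter_not (s := (univ : Finset (Tup 3 n)))
      (fun t => GoodT β U t)
    rw [Finset.card_univ] at this
    exact_mod_cast this
  set q : ℝ := 1 / (56 * (N : ℝ)) with hq
  have hq0 : 0 < q := by positivity
  have hq1 : q < 1 := by
    rw [hq, div_lt_one (by positivity)]; linarith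
  have hgood : (1 - q) * T ≤ #{t : Tup 3 n | GoodT β U t} := by linarith
  by_contra hcon
  push Not at hcon
  have hsum := sum_Xo N r hN hn hr v hv
  have e28 : 1 / (28 * (N : ℝ)) = 2 * q := by rw [hq]; field_simp; norm_num
  rw [e28] at hsum
  have hlow : ∑ t : Tup 3 n with GoodT β U t, (1 - q) * ‖v‖ ^ 2 ≤
      ∑ t : Tup 3 n, ‖Xo (RR n) (RC14.c3 t) v‖ ^ 2 := by
    refine le_trans (Finset.sum_le_sum fun t ht => ?_) (Finset.sum_le_sum_of_subset_of_nonneg
      (Finset.filter_subset (fun t => GoodT β U t) univ) fun _ _ _ => by positivity)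
    simp only [mem_filter, mem_univ, true_and] at ht
    exact (hcon t ht).le
  rw [Finset.sum_const, nsmul_eq_mul] at hlow
  have hv0 : 0 ≤ ‖v‖ ^ 2 := by positivity
  rcases hv0.eq_or_lt with h0 | h0
  · -- the zero vector
    have hpos : 0 < (#{t : Tup 3 n | GoodT β U t} : ℝ) := by nlinarith
    have hpos' : 0 < #{t : Tup 3 n | GoodT β U t} := by exact_mod_cast hpos
    obtain ⟨t, ht⟩ := Finset.card_pos.1 hpos'
    simp only [mem_filter, mem_univ, true_and] at ht
    have h1 := hcon t ht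
    rw [Xo_norm (RR n) (RC14.c3 t) (HIGHA.c3_three t) v, ← h0, mul_zero] at h1
    have : 0 ≤ ‖RR n (RC14.c3 t) v - v‖ ^ 2 := by positivity
    linarith
  · have h1 : (1 - q) * T * ((1 - q) * ‖v‖ ^ 2) ≤ (1 - 2 * q) * T * ‖v‖ ^ 2 := by
      have : (1 - q) * T * ((1 - q) * ‖v‖ ^ 2) ≤
          (#{t : Tup 3 n | GoodT β U t} : ℝ) * ((1 - q) * ‖v‖ ^ 2) := by
        refine mul_le_mul_of_nonneg_right hgood ?_
        exact mul_nonneg (by linarith) hv0
      linarith
    have h2 : 0 < q ^ 2 * (T * ‖v‖ ^ 2) := by positivity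
    nlinarith

/-- a family of triples is in general position -/
def RD (β : Fin n → I) {m : ℕ} (s : Fin m → Tup 3 n) : Prop :=
  Function.Injective fun p : Fin m × Fin 3 => β (s p.1 p.2)

/-- the greedy algorithm -/
lemma greedy (N r M : ℕ) (hN : 100 ≤ N) (hn : 1000 ≤ n) (hr : ∀ k : ℕ, N * k ≤ n → k ≤ r)
    (β : Fin n → I) (w : ℕ) (hβ : ∀ i, #{x | β x = i} ≤ w)
    (hM : 56 * N * ((9 * M + 6) * w) ≤ n) (v : FA n) (hv : v ∈ HH r n) :
    ∀ m ≤ M, ∃ s : Fin m → Tup 3 n, RD β s ∧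
      ‖Yo m s v‖ ^ 2 ≤ (1 - 1 / (56 * (N : ℝ))) ^ m * ‖v‖ ^ 2 := by
  classical
  intro m
  induction m with
  | zero =>
    intro _
    exact ⟨fun i => i.elim0, fun p => p.1.elim0, by simp [Yo]⟩
  | succ m ih =>
    intro hm
    obtain ⟨s, hs, hs2⟩ := ih (by omega)
    obtain ⟨U, hU⟩ : ∃ U : Finset I, U = univ.image fun p : Fin m × Fin 3 => β (s p.1 p.2) :=
      ⟨_, rfl⟩
    have hUc : U.card ≤ 3 * m := by
      rw [hU]
      refine Finset.card_image_le.trans ?_
      simp; omega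
    obtain ⟨t, ht, ht2⟩ := greedy_step N r hN hn hr β w hβ U (by
      refine le_trans ?_ hM
      exact Nat.mul_le_mul_left _ (Nat.mul_le_mul_right _ (by omega))) (Yo m s v) (Yo_mem hv m s)
    refine ⟨Fin.cons t s, ?_, ?_⟩
    · rintro ⟨i, a⟩ ⟨j, b⟩ h
      simp only at h
      rcases Fin.eq_zero_or_eq_succ i with rfl | ⟨i, rfl⟩ <;>
      rcases Fin.eq_zero_or_eq_succ j with rfl | ⟨j, rfl⟩
      · simp only [Fin.cons_zero] at h
        rw [ht.2 h]
      · exfalso
        simp only [Fin.cons_zero, Fin.cons_succ] at h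
        apply ht.1 a
        rw [h, hU]
        exact Finset.mem_image.2 ⟨(j, b), Finset.mem_univ _, rfl⟩
      · exfalso
        simp only [Fin.cons_zero, Fin.cons_succ] at h
        apply ht.1 b
        rw [← h, hU]
        exact Finset.mem_image.2 ⟨(i, a), Finset.mem_univ _, rfl⟩
      · simp only [Fin.cons_succ] at h
        have := hs (a₁ := (i, a)) (a₂ := (j, b)) h
        simp only [Prod.mk.injEq] at this
        rw [this.1, this.2]
    · have hN0 : (100 : ℝ) ≤ N := by exact_mod_cast hN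
      have hq1 : 1 / (56 * (N : ℝ)) ≤ 1 := by
        rw [div_le_one (by positivity)]; linarith
      simp only [Yo, Fin.cons_zero, Fin.tail_cons]
      refine ht2.trans ?_
      rw [pow_succ' (1 - 1 / (56 * (N : ℝ))) m, mul_assoc]
      exact mul_le_mul_of_nonneg_left hs2 (by linarith)

/-- flipping the orientation of some triples preserves general position -/
lemma RD_flip (β : Fin n → I) {m : ℕ} (s s' : Fin m → Tup 3 n) (hs : RD β s)
    (h : ∀ i, s' i = s i ∨ s' i = HIGHE.rev3 (s i)) : RD β s' := by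
  have h1 : ∀ i, ∃ σ : Equiv.Perm (Fin 3), ∀ a, s' i a = s i (σ a) := by
    intro i
    rcases h i with h | h
    · exact ⟨1, fun a => by rw [h]; rfl⟩
    · exact ⟨Fin.revPerm, fun a => by rw [h]; rfl⟩
  choose σ hσ using h1
  rintro ⟨i, a⟩ ⟨j, b⟩ hab
  simp only [hσ] at hab
  have := hs (a₁ := (i, σ i a)) (a₂ := (j, σ j b)) hab
  simp only [Prod.mk.injEq] at this
  obtain ⟨rfl, h2⟩ := this
  rw [(σ i).injective h2]

/-- **high level functions are moved** by a product of 3-cycles in general position -/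
theorem high_moved (N r m : ℕ) (hN : 100 ≤ N) (hn : 1000 ≤ n)
    (hr : ∀ k : ℕ, N * k ≤ n → k ≤ r)
    (β : Fin n → I) (w : ℕ) (hβ : ∀ i, #{x | β x = i} ≤ w)
    (hm : 112 * N ≤ m) (hM : 56 * N * ((9 * m + 6) * w) ≤ n) (v : FA n) (hv : v ∈ HH r n)
    (hnear : ∀ s : Fin m → Tup 3 n, RD β s → ‖RR n (zo s) v - v‖ ≤ 1 / 2 * ‖v‖) : v = 0 := by
  obtain ⟨s, hs, hs2⟩ := greedy N r m hN hn hr β w hβ hM v hv m le_rfl
  have h1 := Yo_near (1 / 2 * ‖v‖) v m s 1 (by
    intro s' hs'
    rw [one_mul]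
    exact hnear s' (RD_flip β s s' hs hs'))
  rw [map_one] at h1
  have h2 : ‖Yo m s v - v‖ ≤ 1 / 2 * ‖v‖ := h1
  have h3 : ‖v‖ ≤ ‖Yo m s v‖ + ‖Yo m s v - v‖ := by
    have := norm_sub_norm_le v (Yo m s v)
    rw [norm_sub_rev] at this
    linarith
  have hN0 : (100 : ℝ) ≤ N := by exact_mod_cast hN
  have h4 : (1 - 1 / (56 * (N : ℝ))) ^ m ≤ Real.exp (-2) := by
    have e1 : 1 - 1 / (56 * (N : ℝ)) ≤ Real.exp (-(1 / (56 * (N : ℝ)))) := by
      have := Real.add_one_le_exp (-(1 / (56 * (N : ℝ))))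
      linarith
    have hq1 : 1 / (56 * (N : ℝ)) ≤ 1 := by
      rw [div_le_one (by positivity)]; linarith
    calc (1 - 1 / (56 * (N : ℝ))) ^ m ≤ (Real.exp (-(1 / (56 * (N : ℝ))))) ^ m :=
          pow_le_pow_left₀ (by linarith) e1 m
      _ = Real.exp (m * -(1 / (56 * (N : ℝ)))) := by rw [← Real.exp_nat_mul]
      _ ≤ Real.exp (-2) := by
          apply Real.exp_le_exp.2
          have hm' : 112 * (N : ℝ) ≤ m := by exact_mod_cast hm
          rw [mul_neg, mul_one_div, neg_le_neg_iff, le_div_iff₀ (by positivity)]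
          linarith
  have h5 : Real.exp (-2) < 1 / 4 := by
    have h6 : (1 : ℝ) + 2 + 2 ^ 2 / 2 ≤ Real.exp 2 := Real.quadratic_le_exp_of_nonneg (by norm_num)
    rw [Real.exp_neg]
    rw [inv_lt_comm₀ (Real.exp_pos _) (by norm_num)]
    norm_num
    linarith
  by_contra hv0
  have hvp : 0 < ‖v‖ := norm_pos_iff.2 hv0
  have h6 : ‖v‖ / 2 ≤ ‖Yo m s v‖ := by linarith
  have h7 : (‖v‖ / 2) ^ 2 ≤ ‖Yo m s v‖ ^ 2 := pow_le_pow_left₀ (by positivity) h6 2
  have h8 : ‖Yo m s v‖ ^ 2 < 1 / 4 * ‖v‖ ^ 2 := by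
    refine lt_of_le_of_lt hs2 ?_
    have : (1 - 1 / (56 * (N : ℝ))) ^ m < 1 / 4 := lt_of_le_of_lt h4 h5
    exact mul_lt_mul_of_pos_right this (by positivity)
  nlinarith

end

end

end Pool.Agent.K1H7.EP
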