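import Pool.Agent.K1H7.EP.Bg
import Pool.Agent.K1H7.EP.Comm

/-!
Isolating commutators inside one involution with the help of a rotation.
-/

namespace Pool.Agent.K1H7.EP
open Finset Equiv Equiv.Perm

set_option linter.unusedSectionVars false

noncomputable section

section
variable {α β γ : Type*}

lemma inv_app (g : Perm α) (x : α) : g⁻¹ (g x) = x := by
  rw [← Perm.mul_apply, inv_mul_cancel, Perm.one_apply]

lemma app_inv (g : Perm α) (x : α) : g (g⁻¹ x) = x := by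
  rw [← Perm.mul_apply, mul_inv_cancel, Perm.one_apply]

/-- the permutation induced along an embedding -/
def ve (ι : α ↪ β) : Perm α →* Perm β := viaEmbeddingHom ι

lemma ve_apply (ι : α ↪ β) (e : Perm α) (x : α) : ve ι e (ι x) = ι (e x) := viaEmbedding_apply e ι x

lemma ve_not (ι : α ↪ β) (e : Perm α) (x : β) (hx : ∀ y, x ≠ ι y) : ve ι e x = x :=
  viaEmbedding_apply_of_notMem e ι x (by rintro ⟨y, rfl⟩; exact hx y rfl)

lemma ve_ext (ι : α ↪ β) (e : Perm α) (g : Perm β) (h1 : ∀ x, g (ι x) = ι (e x))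
    (h2 : ∀ x, (∀ y, x ≠ ι y) → g x = x) : g = ve ι e := by
  ext x
  by_cases h : ∃ y, x = ι y
  · obtain ⟨y, rfl⟩ := h
    rw [h1, ve_apply]
  · push Not at h
    rw [h2 x h, ve_not ι e x h]

lemma ve_conj (ι : α ↪ β) (e : Perm α) (g : Perm β) :
    g * ve ι e * g⁻¹ = ve (ι.trans g.toEmbedding) e := by
  refine ve_ext _ _ _ ?_ ?_
  · intro x
    change g (ve ι e (g⁻¹ (g (ι x)))) = g (ι (e x))
    rw [inv_app, ve_apply]
  · intro x h
    change g (ve ι e (g⁻¹ x)) = x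
    rw [ve_not, app_inv]
    intro y hy
    apply h y
    change x = g (ι y)
    rw [← hy, app_inv]

lemma ve_ve (ι : α ↪ β) (κ : β ↪ γ) (e : Perm α) : ve κ (ve ι e) = ve (ι.trans κ) e := by
  refine ve_ext _ _ _ ?_ ?_
  · intro x
    change ve κ (ve ι e) (κ (ι x)) = κ (ι (e x))
    rw [ve_apply, ve_apply]
  · intro x h
    by_cases h' : ∃ y, x = κ y
    · obtain ⟨y, rfl⟩ := h'
      rw [ve_apply, ve_not]
      intro z hz
      exact h z (by rw [hz]; rfl)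
    · push Not at h'
      exact ve_not _ _ _ h'

lemma ve_sign [Fintype α] [DecidableEq α] [Fintype β] [DecidableEq β] (ι : α ↪ β) (e : Perm α) :
    sign (ve ι e) = sign e :=
  @Perm.sign_extendDomain α _ β _ _ _ e (fun x => x ∈ Set.range ι)
    (fun _ => Classical.propDecidable _) (Equiv.ofInjective ι ι.injective)

lemma ve_surj (ι : α ↪ β) (g : Perm β) (h : ∀ x, (∀ y, x ≠ ι y) → g x = x) :
    ∃ e : Perm α, ve ι e = g := by
  have key : ∀ g : Perm β, (∀ x, (∀ y, x ≠ ι y) → g x = x) → ∀ x, ∃ z, g (ι x) = ι z := by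
    intro g h x
    by_contra hcon
    push Not at hcon
    have h1 := h _ hcon
    have h2 := g.injective h1
    exact hcon x h2
  have hinv : ∀ x, (∀ y, x ≠ ι y) → g⁻¹ x = x := by
    intro x hx
    rw [Perm.inv_eq_iff_eq]
    exact (h x hx).symm
  choose f hf using key g h
  choose f' hf' using key g⁻¹ hinv
  refine ⟨⟨f, f', ?_, ?_⟩, ?_⟩
  · intro x
    apply ι.injective
    rw [← hf', ← hf, inv_app]
  · intro x
    apply ι.injective
    rw [← hf, ← hf', app_inv]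
  · symm
    exact ve_ext _ _ _ hf h

end

section
variable {Ω : Type*}

lemma iso_aux (g p : Perm Ω) (C : Set Ω) (h1 : ∀ z ∈ C, g z = p z) (h2 : ∀ z, z ∉ C → p z = z) :
    ∃ r, g = p * r ∧ (∀ z ∈ C, r z = z) ∧ ∀ z, z ∉ C → r z = g z := by
  refine ⟨p⁻¹ * g, by group, ?_, ?_⟩
  · intro z hz
    rw [Perm.mul_apply, h1 z hz, inv_app]
  · intro z hz
    rw [Perm.mul_apply, Perm.inv_eq_iff_eq]
    symm
    refine h2 _ fun hc => ?_
    -- `g z ∈ C`
    have h3 : p⁻¹ (g z) ∈ C := by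
      by_contra h4
      have h5 := h2 _ h4
      rw [app_inv] at h5
      rw [← h5] at h4
      exact h4 hc
    have h6 := h1 _ h3
    rw [app_inv] at h6
    have h7 := g.injective h6
    rw [h7] at h3
    exact hz h3

/-- isolation of a commutator -/
lemma iso_comm (g g' p p' : Perm Ω) (C : Set Ω) (h1 : ∀ z ∈ C, g z = p z)
    (h1' : ∀ z ∈ C, g' z = p' z) (h2 : ∀ z, z ∉ C → p z = z) (h2' : ∀ z, z ∉ C → p' z = z)
    (h3 : ∀ z, z ∉ C → g z = z ∨ g' z = z) :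
    g * g' * g⁻¹ * g'⁻¹ = p * p' * p⁻¹ * p'⁻¹ := by
  obtain ⟨r, hr, r1, r2⟩ := iso_aux g p C h1 h2
  obtain ⟨r', hr', r1', r2'⟩ := iso_aux g' p' C h1' h2'
  have D : ∀ (a b : Perm Ω), (∀ z, z ∉ C → a z = z) → (∀ z ∈ C, b z = z) → Commute a b := by
    intro a b ha hb
    refine Disjoint.commute fun x => ?_
    by_cases hx : x ∈ C
    · exact Or.inr (hb x hx)
    · exact Or.inl (ha x hx)
  have c1 := (D p r' h2 r1').eq
  have c2 := (D p' r h2' r1).eq
  have c3 : Commute r r' := by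
    refine Disjoint.commute fun x => ?_
    by_cases hx : x ∈ C
    · exact Or.inl (r1 x hx)
    · rw [r2 x hx, r2' x hx]
      exact h3 x hx
  have e1 : g * g' = p * p' * (r * r') := by
    calc g * g' = p * (r * p') * r' := by rw [hr, hr']; group
      _ = p * (p' * r) * r' := by rw [c2]
      _ = _ := by group
  have e2 : g' * g = p' * p * (r * r') := by
    calc g' * g = p' * (r' * p) * r := by rw [hr, hr']; group
      _ = p' * (p * r') * r := by rw [c1]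
      _ = p' * p * (r' * r) := by group
      _ = _ := by rw [c3.eq]
  calc g * g' * g⁻¹ * g'⁻¹ = (g * g') * (g' * g)⁻¹ := by group
    _ = (p * p' * (r * r')) * (p' * p * (r * r'))⁻¹ := by rw [e1, e2]
    _ = _ := by group

end

/-! ### rotations -/
section
variable {M L : ℕ}

/-- the rotation by `u` -/
def rt (u : ZMod M) : Perm (ZMod M × Fin L) := Equiv.prodCongr (Equiv.addRight u) (Equiv.refl _)

lemma rt_apply (u : ZMod M) (z : ZMod M × Fin L) : rt u z = (z.1 + u, z.2) := rfl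

lemma rt_zero : (rt 0 : Perm (ZMod M × Fin L)) = 1 := by
  ext1 z
  rw [rt_apply, add_zero]; rfl

lemma rt_mul (u v : ZMod M) : (rt u * rt v : Perm (ZMod M × Fin L)) = rt (u + v) := by
  ext1 z
  rw [Perm.mul_apply, rt_apply, rt_apply, rt_apply]
  ext1
  · change z.1 + v + u = z.1 + (u + v)
    ring
  · rfl

lemma rt_inv (u : ZMod M) : (rt u : Perm (ZMod M × Fin L))⁻¹ = rt (-u) := by
  rw [inv_eq_iff_mul_eq_one, rt_mul, add_neg_cancel, rt_zero]

lemma rt_pow (k : ℕ) : (rt 1 : Perm (ZMod M × Fin L)) ^ k = rt (k : ZMod M) := by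
  induction k with
  | zero => rw [pow_zero, Nat.cast_zero, rt_zero]
  | succ k ih => rw [pow_succ, ih, rt_mul, Nat.cast_succ]

lemma rt_sign [NeZero M] (hM : Odd M) : sign (rt 1 : Perm (ZMod M × Fin L)) = 1 := by
  have h1 : (rt 1 : Perm (ZMod M × Fin L)) ^ M = 1 := by
    rw [rt_pow, ZMod.natCast_self, rt_zero]
  have h2 := congrArg sign h1
  rw [map_pow, Perm.sign_one] at h2
  rcases Int.units_eq_one_or (sign (rt 1 : Perm (ZMod M × Fin L))) with h | h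
  · exact h
  · rw [h, hM.neg_one_pow] at h2
    exact absurd h2 (by decide)

variable (F : Filt (Perm (ZMod M × Fin L)))

lemma rt_Q [NeZero M] {m : ℕ} (h : F.Q m (rt 1)) (u : ZMod M) : F.Q (M * m) (rt u) := by
  have h1 := F.pow h u.val
  rw [rt_pow, ZMod.natCast_zmod_val] at h1
  exact F.mono (Nat.mul_le_mul_right _ (ZMod.val_lt u).le) h1

end

/-! ### slots -/
section
variable {Λ : Type*} {M L : ℕ}

/-- positions with distinct differences -/
structure Slots (τ : Λ → ZMod M) : Prop where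
  inj : ∀ (l l' : Λ) (i i' : Fin 3), τ l + (i : ℕ) = τ l' + (i' : ℕ) → l = l' ∧ i = i'
  sid : ∀ (l m l₀ m₀ : Λ) (i i' : Fin 3), l₀ ≠ m₀ →
    τ l + (i : ℕ) = τ m + (i' : ℕ) + (τ l₀ - τ m₀) → l = l₀

variable {τ : Λ → ZMod M}

/-- the embedding of all slots -/
def Jall (hτ : Slots τ) : Λ × (Fin 3 × Fin L) ↪ ZMod M × Fin L where
  toFun z := (τ z.1 + ((z.2.1 : ℕ) : ZMod M), z.2.2)
  inj' := by
    rintro ⟨l, i, y⟩ ⟨l', i', y'⟩ h
    simp only [Prod.mk.injEq] at h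
    obtain ⟨h1, h2⟩ := h
    obtain ⟨h3, h4⟩ := hτ.inj l l' i i' h1
    rw [h2, h3, h4]

/-- the embedding of one slot -/
def Jone (hτ : Slots τ) (l : Λ) : Fin 3 × Fin L ↪ ZMod M × Fin L where
  toFun z := (τ l + ((z.1 : ℕ) : ZMod M), z.2)
  inj' := by
    rintro ⟨i, y⟩ ⟨i', y'⟩ h
    simp only [Prod.mk.injEq] at h
    obtain ⟨h1, h2⟩ := h
    obtain ⟨h3, h4⟩ := hτ.inj l l i i' h1
    rw [h2, h4]

/-- all the involutions together -/
def hall (hτ : Slots τ) (s : Λ → Perm (Fin 3 × Fin L)) : Perm (ZMod M × Fin L) :=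
  ve (Jall hτ) (Equiv.prodCongrRight s)

lemma hall_sq (hτ : Slots τ) (s : Λ → Perm (Fin 3 × Fin L)) (hs : ∀ l, s l * s l = 1) :
    hall hτ s * hall hτ s = 1 := by
  unfold hall
  rw [← map_mul]
  have : (Equiv.prodCongrRight s : Perm (Λ × (Fin 3 × Fin L))) * Equiv.prodCongrRight s = 1 := by
    ext1 ⟨l, w⟩
    change (l, s l (s l w)) = (l, w)
    rw [← Perm.mul_apply, hs]; rfl
  rw [this, map_one]

lemma hall_sign [NeZero M] [Fintype Λ] [DecidableEq Λ] (hτ : Slots τ)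
    (s : Λ → Perm (Fin 3 × Fin L)) (hs : ∀ l, sign (s l) = 1) : sign (hall hτ s) = 1 := by
  unfold hall
  rw [ve_sign, Perm.sign_prodCongrRight]
  exact Finset.prod_eq_one fun l _ => hs l

lemma hall_apply (hτ : Slots τ) (s : Λ → Perm (Fin 3 × Fin L)) (l : Λ) (w : Fin 3 × Fin L) :
    hall hτ s (Jone hτ l w) = Jone hτ l (s l w) := by
  have h : ∀ w : Fin 3 × Fin L, Jone hτ l w = Jall hτ (l, w) := fun w => rfl
  rw [h, h]
  unfold hall
  rw [ve_apply]
  rfl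

lemma hall_not (hτ : Slots τ) (s : Λ → Perm (Fin 3 × Fin L)) (z : ZMod M × Fin L)
    (hz : hall hτ s z ≠ z) : ∃ l w, z = Jone hτ l w := by
  by_contra hcon
  push Not at hcon
  apply hz
  unfold hall
  apply ve_not
  rintro ⟨l, w⟩
  exact hcon l w

theorem isolate (hτ : Slots τ) (s : Λ → Perm (Fin 3 × Fin L)) (l₀ m₀ : Λ) (h : l₀ ≠ m₀) :
    hall hτ s * (rt (τ l₀ - τ m₀) * hall hτ s * (rt (τ l₀ - τ m₀))⁻¹) * (hall hτ s)⁻¹ *
      (rt (τ l₀ - τ m₀) * hall hτ s * (rt (τ l₀ - τ m₀))⁻¹)⁻¹ =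
    ve (Jone hτ l₀) (s l₀ * s m₀ * (s l₀)⁻¹ * (s m₀)⁻¹) := by
  have hJ : ∀ w : Fin 3 × Fin L, Jone hτ l₀ w = rt (τ l₀ - τ m₀) (Jone hτ m₀ w) := by
    intro w
    rw [rt_apply]
    change (τ l₀ + ((w.1 : ℕ) : ZMod M), w.2) = (τ m₀ + ((w.1 : ℕ) : ZMod M) + (τ l₀ - τ m₀), w.2)
    congr 1
    ring
  rw [iso_comm _ _ (ve (Jone hτ l₀) (s l₀)) (ve (Jone hτ l₀) (s m₀)) (Set.range (Jone hτ l₀))]
  · simp only [map_mul, map_inv]
  · rintro z ⟨w, rfl⟩
    rw [hall_apply, ve_apply]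
  · rintro z ⟨w, rfl⟩
    rw [ve_apply, Perm.mul_apply, Perm.mul_apply, hJ w, inv_app, hall_apply, ← hJ]
  · intro z hz
    exact ve_not _ _ _ fun y hy => hz ⟨y, hy.symm⟩
  · intro z hz
    exact ve_not _ _ _ fun y hy => hz ⟨y, hy.symm⟩
  · intro z hz
    by_contra hcon
    push Not at hcon
    obtain ⟨h1, h2⟩ := hcon
    obtain ⟨l, w, hl⟩ := hall_not hτ s z h1
    have h3 : hall hτ s ((rt (τ l₀ - τ m₀))⁻¹ z) ≠ (rt (τ l₀ - τ m₀))⁻¹ z := by
      intro h4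
      apply h2
      rw [Perm.mul_apply, Perm.mul_apply, h4, app_inv]
    obtain ⟨m, w', hm⟩ := hall_not hτ s _ h3
    rw [Perm.inv_eq_iff_eq, rt_apply] at hm
    have h5 : τ l + (w.1 : ℕ) = τ m + (w'.1 : ℕ) + (τ l₀ - τ m₀) := by
      have := hl.symm.trans hm
      exact congrArg Prod.fst this
    have h6 := hτ.sid l m l₀ m₀ w.1 w'.1 h h5
    rw [h6] at hl
    exact hz ⟨w, hl.symm⟩

variable [NeZero M]

/-- the embedding of the window at the origin -/
def J0 (hM : 3 ≤ M) : Fin 3 × Fin L ↪ ZMod M × Fin L where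
  toFun z := (((z.1 : ℕ) : ZMod M), z.2)
  inj' := by
    rintro ⟨i, y⟩ ⟨i', y'⟩ h
    simp only [Prod.mk.injEq] at h
    obtain ⟨h1, h2⟩ := h
    have h3 := congrArg ZMod.val h1
    rw [ZMod.val_natCast_of_lt (by omega), ZMod.val_natCast_of_lt (by omega)] at h3
    rw [h2, Fin.ext h3]

theorem comm_Q (hτ : Slots τ) (hM : 3 ≤ M) (s : Λ → Perm (Fin 3 × Fin L)) (l₀ m₀ : Λ)
    (h : l₀ ≠ m₀) (F : Filt (Perm (ZMod M × Fin L))) {m : ℕ} (h1 : F.Q m (hall hτ s))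
    (h2 : F.Q m (rt 1)) :
    F.Q ((6 * M + 4) * m) (ve (J0 hM) (s l₀ * s m₀ * (s l₀)⁻¹ * (s m₀)⁻¹)) := by
  have e1 := F.conj (rt_Q F h2 (τ l₀ - τ m₀)) h1
  have e2 := F.comm h1 e1
  rw [isolate hτ s l₀ m₀ h] at e2
  have e3 := F.conj (rt_Q F h2 (-τ l₀)) e2
  rw [ve_conj] at e3
  have e4 : (Jone hτ l₀ : Fin 3 × Fin L ↪ ZMod M × Fin L).trans (rt (-τ l₀)).toEmbedding =
      J0 hM := by
    ext1 w
    change rt (-τ l₀) (Jone hτ l₀ w) = _
    rw [rt_apply]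
    change (τ l₀ + ((w.1 : ℕ) : ZMod M) + -τ l₀, w.2) = (((w.1 : ℕ) : ZMod M), w.2)
    congr 1
    ring
  rw [e4] at e3
  refine F.mono ?_ e3
  ring_nf
  rfl

end

end

end Pool.Agent.K1H7.EP
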