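import Pool.Agent.K1H7.EP.Grid
import Pool.Agent.K1H7.EP.High2
import Pool.Agent.H852R2.TE.S.FIN

/-!
A bounded number of elements of `A_n`, `n = 16 ^ k`, with a uniform spectral gap.
-/

namespace Pool.Agent.K1H7.EP
open Finset Equiv RC14 Filter Topology
open scoped InnerProductSpace ComplexConjugate

set_option linter.unusedSectionVars false

noncomputable section

section
variable {F : Type} [Field F] [Fintype F] [DecidableEq F] {n : ℕ}

/-- the data inside the alternating group -/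
def altD (φ : Perm ((F × F) × (F × F)) →* Perm (Fin n)) (α : F) (h0 : α ≠ 0) (h1 : α ≠ 1) :
    RData (F × F → F) (Alt n) where
  τ u := ⟨φ (gData.τ u), by
    rw [Perm.mem_alternatingGroup]
    exact gData.tau_triv (Perm.sign.comp φ) u⟩
  e t := ⟨φ (gData.e t), by
    rw [Perm.mem_alternatingGroup]
    exact ge_triv (Perm.sign.comp φ) α h0 h1 t⟩
  e' t := ⟨φ (gData.e' t), by
    rw [Perm.mem_alternatingGroup]
    exact ge'_triv (Perm.sign.comp φ) α h0 h1 t⟩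
  τ_add u v := by
    apply Subtype.ext
    exact (gData.map φ).τ_add u v
  he t x y := by
    apply Subtype.ext
    exact (gData.map φ).he t x y
  he' t x y := by
    apply Subtype.ext
    exact (gData.map φ).he' t x y

/-- ten elements -/
def gens {R G : Type*} [CommRing R] [Group G] (D : RData R G) (t : Fin 3 → R) : Fin 10 → G :=
  ![D.τ (1, 0), D.τ (0, 1), D.e 1, D.e' 1, D.e (t 0), D.e (t 1), D.e (t 2), D.e' (t 0),
    D.e' (t 1), D.e' (t 2)]

lemma near_tau {V : Type*} [NormedAddCommGroup V] [InnerProductSpace ℂ V] {G : Type*} [Group G]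
    (ρ : G →* (V ≃ₗᵢ[ℂ] V)) (D : RData (F × F → F) G) (h2 : (1 : F) + 1 = 0) (θ : F)
    (hθ : ∀ c : F, c ≠ 0 → ∃ i : ℕ, θ ^ i = c) (v : V) (hv : v ≠ 0) (η : ℝ) (hη : η ≤ 1)
    (h : ∀ i, ‖ρ (gens D (gt θ) i) v - v‖ ≤ η * ‖v‖) (u : (F × F → F) × (F × F → F)) :
    ‖ρ (D.τ u) v - v‖ ^ 2 ≤ 600 * η * ‖v‖ ^ 2 := by
  have hv0 : 0 < ‖v‖ := norm_pos_iff.2 hv
  obtain ⟨w, hw⟩ : ∃ w : V, w = ((‖v‖⁻¹ : ℝ) : ℂ) • v := ⟨_, rfl⟩
  have hnorm : ‖(((‖v‖⁻¹ : ℝ)) : ℂ)‖ = ‖v‖⁻¹ := by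
    rw [Complex.norm_real, Real.norm_eq_abs, abs_of_pos (inv_pos.2 hv0)]
  have hw1 : ‖w‖ = 1 := by
    rw [hw, norm_smul, hnorm, inv_mul_cancel₀ hv0.ne']
  have key : ∀ g, ‖ρ g w - w‖ = ‖v‖⁻¹ * ‖ρ g v - v‖ := by
    intro g
    rw [hw, map_smul, ← smul_sub, norm_smul, hnorm]
  have hg : ∀ i, ‖ρ (gens D (gt θ) i) w - w‖ ≤ η := by
    intro i
    rw [key, inv_mul_le_iff₀ hv0, mul_comm]
    exact h i
  have h1 : (1 : F × F → F) + 1 = 0 := by
    ext r
    exact h2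
  have := relT ρ D h1 (gt θ) (gen_top θ hθ) w hw1 η hη (hg 0) (hg 1) (hg 2) (hg 3)
    (fun i => by fin_cases i; exacts [hg 4, hg 5, hg 6])
    (fun i => by fin_cases i; exacts [hg 7, hg 8, hg 9]) u
  rw [key, mul_pow, inv_pow, inv_mul_le_iff₀ (by positivity)] at this
  linarith

lemma zo_conj {m : ℕ} (g : Alt n) : ∀ (s : Fin m → Tup 3 n),
    zo (fun i => mv (g : Perm (Fin n)) (s i)) = g * zo s * g⁻¹ := by
  induction m with
  | zero => intro s; simp [zo]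
  | succ m ih =>
    intro s
    rw [zo_succ, zo_succ, HIGHE.c3_conj]
    have : zo (Fin.tail fun i => mv (g : Perm (Fin n)) (s i)) = g * zo (Fin.tail s) * g⁻¹ :=
      ih (Fin.tail s)
    rw [this]
    group

lemma disp_mul' {V : Type*} [NormedAddCommGroup V] [InnerProductSpace ℂ V] {G : Type*} [Group G]
    (ρ : G →* (V ≃ₗᵢ[ℂ] V)) (g h : G) (v : V) :
    ‖ρ (g * h) v - v‖ ≤ ‖ρ g v - v‖ + ‖ρ h v - v‖ := by
  have h0 : ρ (g * h) v = ρ g (ρ h v) := by rw [map_mul]; rfl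
  have h2 : ρ (g * h) v - v = ρ g (ρ h v - v) + (ρ g v - v) := by
    rw [h0, map_sub]; abel
  rw [h2]
  refine (norm_add_le _ _).trans ?_
  rw [(ρ g).norm_map]
  linarith

lemma disp_inv' {V : Type*} [NormedAddCommGroup V] [InnerProductSpace ℂ V] {G : Type*} [Group G]
    (ρ : G →* (V ≃ₗᵢ[ℂ] V)) (g : G) (v : V) : ‖ρ g⁻¹ v - v‖ = ‖ρ g v - v‖ := by
  have h1 : ρ g (ρ g⁻¹ v) = v := by
    rw [map_inv]
    exact (ρ g).apply_symm_apply v
  rw [← (ρ g).norm_map (ρ g⁻¹ v - v), map_sub, h1, norm_sub_rev]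

/-- the 21 elements for the high levels -/
def xh (Dr Dc : RData (F × F → F) (Alt n)) (θ : F) (z : Alt n) : Fin (10 + 10 + 1) → Alt n :=
  Fin.append (Fin.append (gens Dr (gt θ)) (gens Dc (gt θ))) ![z]

/-- the high levels -/
theorem high_part (e : (F × F) × (F × F) ≃ Fin n) (h2 : (1 : F) + 1 = 0) (α : F) (h0 : α ≠ 0)
    (h1 : α ≠ 1) (θ : F) (hθ : ∀ c : F, c ≠ 0 → ∃ i : ℕ, θ ^ i = c)
    (N r m : ℕ) (hN : 100 ≤ N) (hn : 1000 ≤ n) (hr : ∀ k : ℕ, N * k ≤ n → k ≤ r)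
    (hm : 112 * N ≤ m) (hM : 56 * N * ((9 * m + 6) * Fintype.card (F × F)) ≤ n)
    (hmF : m * 3 ≤ Fintype.card (F × F)) :
    ∃ z : Alt n, ∀ f ∈ HH r n, (1 / 10 ^ 12 : ℝ) * ‖f‖ ^ 2 ≤ En (RR n)
      (xh (altD e.permCongrHom.toMonoidHom α h0 h1)
        (altD (e.permCongrHom.toMonoidHom.comp (MulAut.conj (gsw (F := F))).toMonoidHom) α h0 h1)
        θ z) f := by
  classical
  set Dr := altD (n := n) e.permCongrHom.toMonoidHom α h0 h1 with hDr
  set Dc := altD (n := n) (e.permCongrHom.toMonoidHom.comp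
    (MulAut.conj (gsw (F := F))).toMonoidHom) α h0 h1 with hDc
  -- labels
  obtain ⟨β, hβ⟩ : ∃ β : Fin n → F × F, β = fun x => (e.symm x).1 := ⟨_, rfl⟩
  have hfib : ∀ i, #{x | β x = i} ≤ Fintype.card (F × F) := by
    intro i
    rw [← Finset.card_univ (α := F × F)]
    refine Finset.card_le_card_of_injOn (fun x => (e.symm x).2) (fun _ _ => by simp) ?_
    intro x hx y hy hxy
    simp only [coe_filter, mem_univ, true_and, Set.mem_ofPred_eq, hβ] at hx hy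
    exact e.symm.injective (Prod.ext (hx.trans hy.symm) hxy)
  -- an injection of the index set into the labels
  have hcard : Fintype.card (Fin m × Fin 3) ≤ Fintype.card (F × F) := by
    rw [Fintype.card_prod, Fintype.card_fin, Fintype.card_fin]; exact hmF
  obtain ⟨l⟩ := Function.Embedding.nonempty_of_card_le hcard
  -- reference family
  have hQinj : ∀ i, Function.Injective fun a : Fin 3 => e (l (i, a), (0, 0)) := by
    intro i a b hab
    have := e.injective hab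
    simp only [Prod.mk.injEq, and_true] at this
    have := l.injective this
    simpa using this
  obtain ⟨Q, hQ⟩ : ∃ Q : Fin m → Tup 3 n, Q = fun i => ⟨fun a => e (l (i, a), (0, 0)), hQinj i⟩ :=
    ⟨_, rfl⟩
  refine ⟨zo Q, fun f hf => ?_⟩
  by_contra hcon
  push Not at hcon
  have hdisp : ∀ i, ‖RR n (xh Dr Dc θ (zo Q) i) f - f‖ ≤ 1 / 10 ^ 6 * ‖f‖ := by
    intro i
    have h3 : ‖RR n (xh Dr Dc θ (zo Q) i) f - f‖ ^ 2 ≤
        En (RR n) (xh Dr Dc θ (zo Q)) f := by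
      unfold En
      exact Finset.single_le_sum (f := fun i => ‖RR n (xh Dr Dc θ (zo Q) i) f - f‖ ^ 2)
        (fun _ _ => by positivity) (Finset.mem_univ i)
    have h4 : ‖RR n (xh Dr Dc θ (zo Q) i) f - f‖ ^ 2 ≤ (1 / 10 ^ 6 * ‖f‖) ^ 2 := by
      refine h3.trans (hcon.le.trans (le_of_eq ?_))
      ring
    exact (abs_le_of_sq_le_sq' h4 (by positivity)).2
  have hf0 : f ≠ 0 := by
    rintro rfl
    have : 0 ≤ En (RR n) (xh Dr Dc θ (zo Q)) 0 := by
      unfold En; positivity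
    simp only [norm_zero] at hcon
    norm_num at hcon
    linarith
  have hr' : ∀ i, ‖RR n (gens Dr (gt θ) i) f - f‖ ≤ 1 / 10 ^ 6 * ‖f‖ := by
    intro i
    have := hdisp (Fin.castAdd 1 (Fin.castAdd 10 i))
    rwa [xh, Fin.append_left, Fin.append_left] at this
  have hc' : ∀ i, ‖RR n (gens Dc (gt θ) i) f - f‖ ≤ 1 / 10 ^ 6 * ‖f‖ := by
    intro i
    have := hdisp (Fin.castAdd 1 (Fin.natAdd 10 i))
    rwa [xh, Fin.append_left, Fin.append_right] at this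
  have hz' : ‖RR n (zo Q) f - f‖ ≤ 1 / 10 ^ 6 * ‖f‖ := by
    have := hdisp (Fin.natAdd (10 + 10) 0)
    rwa [xh, Fin.append_right] at this
  have sq : ∀ x : ℝ, 0 ≤ x → x ^ 2 ≤ 600 * (1 / 10 ^ 6) * ‖f‖ ^ 2 → x ≤ 1 / 40 * ‖f‖ := by
    intro x hx h
    have : x ^ 2 ≤ (1 / 40 * ‖f‖) ^ 2 := by
      refine h.trans ?_
      have : 0 ≤ ‖f‖ ^ 2 := by positivity
      nlinarith
    exact (abs_le_of_sq_le_sq' this (by positivity)).2
  have hR : ∀ u, ‖RR n (Dr.τ u) f - f‖ ≤ 1 / 40 * ‖f‖ := fun u =>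
    sq _ (norm_nonneg _) (near_tau (RR n) Dr h2 θ hθ f hf0 _ (by norm_num) hr' u)
  have hC : ∀ u, ‖RR n (Dc.τ u) f - f‖ ≤ 1 / 40 * ‖f‖ := fun u =>
    sq _ (norm_nonneg _) (near_tau (RR n) Dc h2 θ hθ f hf0 _ (by norm_num) hc' u)
  refine hf0 (high_moved N r m hN hn hr β (Fintype.card (F × F)) hfib hm hM f hf ?_)
  intro s hs
  obtain ⟨u, w, z, huwz⟩ := three_moves (N := Fin m × Fin 3)
    (fun i => e.symm (Q i.1 i.2)) (fun i => e.symm (s i.1 i.2))
    (by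
      rintro i j hij
      simp only [hQ] at hij
      have h5 : l (i.1, i.2) = l (j.1, j.2) := by simpa using hij
      simpa using l.injective h5)
    (by
      rintro i j hij
      have := hs (a₁ := i) (a₂ := j) (by simpa [hβ] using hij)
      exact this) l l.injective
  obtain ⟨g, hg⟩ : ∃ g : Alt n, g = Dr.τ z * Dc.τ w * Dr.τ u := ⟨_, rfl⟩
  have hgs : ∀ i, mv (g : Perm (Fin n)) (Q i) = s i := by
    intro i
    ext a
    have h6 := huwz (i, a)
    simp only at h6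
    have h7 : (g : Perm (Fin n)) (Q i a) = s i a := by
      have h8 : (g : Perm (Fin n)) (Q i a) =
          e ((gData.τ z * gDataC.τ w * gData.τ u : Perm ((F × F) × (F × F)))
            (e.symm (Q i a))) := by
        rw [hg]
        simp only [Subgroup.coe_mul, Perm.mul_apply]
        simp only [hDr, hDc, altD]
        change e (gData.τ z (e.symm (e (gDataC.τ w (e.symm (e (gData.τ u (e.symm (Q i a)))))))))
          = _
        simp
      rw [h8, h6, e.apply_symm_apply]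
    rw [mv_apply, h7]
  have hz2 : zo s = g * zo Q * g⁻¹ := by
    rw [← zo_conj]
    congr 1
    ext i : 1
    exact (hgs i).symm
  have hg3 : ‖RR n g f - f‖ ≤ 3 / 40 * ‖f‖ := by
    rw [hg]
    have a1 := disp_mul' (RR n) (Dr.τ z * Dc.τ w) (Dr.τ u) f
    have a2 := disp_mul' (RR n) (Dr.τ z) (Dc.τ w) f
    have b1 := hR z
    have b2 := hC w
    have b3 := hR u
    linarith
  rw [hz2]
  have a1 := disp_mul' (RR n) (g * zo Q) g⁻¹ f
  have a2 := disp_mul' (RR n) g (zo Q) f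
  have a3 := disp_inv' (RR n) g f
  have hnn : 0 ≤ ‖f‖ := norm_nonneg f
  have : (1 : ℝ) / 10 ^ 6 ≤ 1 / 40 := by norm_num
  have hz'' : ‖RR n (zo Q) f - f‖ ≤ 1 / 40 * ‖f‖ :=
    hz'.trans (mul_le_mul_of_nonneg_right this hnn)
  linarith

end

/-- **bounded number of generators**, for `n = 16 ^ k` -/
theorem part1 : ∃ (K : ℕ) (κ : ℝ), 0 < κ ∧ ∃ k₀ : ℕ, ∀ k ≥ k₀, ∃ x : Fin K → Alt (16 ^ k),
    ∀ f : FA (16 ^ k), ∑ g, f g = 0 → κ * ‖f‖ ^ 2 ≤ En (RR (16 ^ k)) x f := by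
  classical
  obtain ⟨a0, ha0⟩ := TE852.GAPE (9 / 10) (TE852.TEMAIN (9 / 10) (by norm_num))
  obtain ⟨c, hc, B, hB, hgap⟩ := ha0 a0 le_rfl
  refine ⟨a0 + (10 + 10 + 1), min c (1 / 10 ^ 12), by positivity, ?_⟩
  have hgap' : ∀ᶠ n : ℕ in atTop, B / (n : ℝ) < 1 := by
    have : Tendsto (fun n : ℕ => B / (n : ℝ)) atTop (𝓝 0) :=
      tendsto_const_div_atTop_nhds_zero_nat B
    exact this.eventually (gt_mem_nhds zero_lt_one)
  obtain ⟨n₀, hn₀⟩ := eventually_atTop.1 (hgap.and hgap')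
  refine ⟨max n₀ 100, fun k hk => ?_⟩
  have hk1 : n₀ ≤ k := (le_max_left _ _).trans hk
  have hk2 : 100 ≤ k := (le_max_right _ _).trans hk
  have hkn : k ≤ 16 ^ k := (Nat.lt_pow_self (by norm_num)).le
  obtain ⟨hg1, hg2⟩ := hn₀ (16 ^ k) (hk1.trans hkn)
  -- a good tuple for the low levels
  have hex : ∃ xl : Fin a0 → Alt (16 ^ k), Good1 (16 ^ k) (TE852.Rr (9 / 10) (16 ^ k)) c xl := by
    by_contra hcon
    push Not at hcon
    have h1 : Nat.card {x : Fin a0 → Alt (16 ^ k) //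
        ¬ Good1 (16 ^ k) (TE852.Rr (9 / 10) (16 ^ k)) c x} =
        Fintype.card (Alt (16 ^ k)) ^ a0 := by
      rw [Nat.card_eq_fintype_card, Fintype.card_subtype]
      rw [Finset.filter_true_of_mem (fun x _ => hcon x), Finset.card_univ, Fintype.card_fun,
        Fintype.card_fin]
    rw [h1] at hg1
    push_cast at hg1 hg2
    have hA : (0 : ℝ) < (Fintype.card (Alt (16 ^ k)) : ℝ) ^ a0 := by
      have : 0 < Fintype.card (Alt (16 ^ k)) := Fintype.card_pos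
      positivity
    nlinarith
  obtain ⟨xl, hxl⟩ := hex
  -- the field
  have hp : Fact (Nat.Prime 2) := ⟨Nat.prime_two⟩
  let F := GaloisField 2 k
  have hFfin : Finite F := inferInstance
  let hFt : Fintype F := Fintype.ofFinite F
  have hcardF : Fintype.card F = 2 ^ k := by
    rw [← Nat.card_eq_fintype_card]
    exact GaloisField.card 2 k (by omega)
  have hcardFF : Fintype.card (F × F) = 4 ^ k := by
    rw [Fintype.card_prod, hcardF, ← mul_pow]; norm_num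
  have hcardG : Fintype.card ((F × F) × (F × F)) = 16 ^ k := by
    rw [Fintype.card_prod, hcardFF, ← mul_pow]; norm_num
  have e : (F × F) × (F × F) ≃ Fin (16 ^ k) := Fintype.equivFinOfCardEq hcardG
  obtain ⟨θ, hθ⟩ := exists_theta (F := F)
  have hα : ∃ α : F, α ≠ 0 ∧ α ≠ 1 := by
    by_contra hcon
    push Not at hcon
    have h1 : (univ : Finset F) ⊆ {0, 1} := by
      intro x _
      simp only [mem_insert, mem_singleton]
      by_cases h : x = 0
      · exact Or.inl h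
      · exact Or.inr (hcon x h)
    have h2 := Finset.card_le_card h1
    rw [Finset.card_univ, hcardF] at h2
    have h3 := Finset.card_le_two (a := (0 : F)) (b := 1)
    have h4 : 2 ^ 2 ≤ 2 ^ k := Nat.pow_le_pow_right (by norm_num) (by omega)
    omega
  obtain ⟨α, h0, h1⟩ := hα
  have h2 : (1 : F) + 1 = 0 := CharTwo.add_self_eq_zero 1
  -- the parameters
  obtain ⟨N, hN⟩ : ∃ N : ℕ, N = 100 * 2 ^ (k / 2) := ⟨_, rfl⟩
  obtain ⟨m, hm⟩ : ∃ m : ℕ, m = 112 * N := ⟨_, rfl⟩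
  have hpow : 2 ^ 50 ≤ 2 ^ (k / 2) := Nat.pow_le_pow_right (by norm_num) (by omega)
  have hsq : (2 ^ (k / 2)) ^ 2 ≤ 2 ^ k := by
    rw [← pow_mul]; exact Nat.pow_le_pow_right (by norm_num) (by omega)
  have h4k : (4 : ℕ) ^ k = 2 ^ k * 2 ^ k := by
    rw [← mul_pow]; norm_num
  have h16k : (16 : ℕ) ^ k = 4 ^ k * 4 ^ k := by
    rw [← mul_pow]; norm_num
  have h2k : 2 ^ 100 ≤ 2 ^ k := Nat.pow_le_pow_right (by norm_num) hk2
  have hNN : N * N ≤ 10000 * 2 ^ k := by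
    rw [hN]
    calc 100 * 2 ^ (k / 2) * (100 * 2 ^ (k / 2)) = 10000 * (2 ^ (k / 2)) ^ 2 := by ring
      _ ≤ _ := Nat.mul_le_mul_left _ hsq
  have hN1 : 100 ≤ N := by
    rw [hN]
    have : 1 ≤ 2 ^ (k / 2) := Nat.one_le_two_pow
    omega
  have hlast : 56 * N * ((9 * m + 6) * Fintype.card (F × F)) ≤ 16 ^ k := by
    rw [hcardFF, h16k, hm]
    calc 56 * N * ((9 * (112 * N) + 6) * 4 ^ k) = 56 * (1008 * (N * N) + 6 * N) * 4 ^ k := by ring
      _ ≤ 56 * (1008 * (N * N) + 6 * (N * N)) * 4 ^ k := by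
          have : N ≤ N * N := Nat.le_mul_of_pos_left _ (by omega)
          gcongr
      _ = 56784 * (N * N) * 4 ^ k := by ring
      _ ≤ 56784 * (10000 * 2 ^ k) * 4 ^ k := by gcongr
      _ ≤ (2 ^ k * 2 ^ k) * 4 ^ k := by
          have : 56784 * 10000 ≤ 2 ^ k := le_trans (by norm_num) h2k
          have h5 : 56784 * (10000 * 2 ^ k) ≤ 2 ^ k * 2 ^ k := by
            calc 56784 * (10000 * 2 ^ k) = (56784 * 10000) * 2 ^ k := by ring
              _ ≤ _ := Nat.mul_le_mul_right _ this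
          exact Nat.mul_le_mul_right _ h5
      _ = 4 ^ k * 4 ^ k := by rw [h4k]
  have hmF : m * 3 ≤ Fintype.card (F × F) := by
    rw [hcardFF, h4k, hm]
    have h5 : N ≤ N * N := Nat.le_mul_of_pos_left _ (by omega)
    have h6 : 3360000 * 2 ^ k ≤ 2 ^ k * 2 ^ k :=
      Nat.mul_le_mul_right _ (le_trans (by norm_num) h2k)
    calc 112 * N * 3 ≤ 336 * (N * N) := by omega
      _ ≤ 336 * (10000 * 2 ^ k) := Nat.mul_le_mul_left _ hNN
      _ = 3360000 * 2 ^ k := by ring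
      _ ≤ _ := h6
  have hr : ∀ j : ℕ, N * j ≤ 16 ^ k → j ≤ TE852.Rr (9 / 10) (16 ^ k) := by
    intro j hj
    have h5 : (16 : ℕ) ^ k ≤ N ^ 10 := by
      have h6 : N ^ 10 = 100 ^ 10 * 2 ^ (k / 2 * 10) := by
        rw [hN, mul_pow, ← pow_mul]
      have h7 : (16 : ℕ) ^ k = 2 ^ (4 * k) := by rw [pow_mul]; norm_num
      rw [h6, h7]
      calc 2 ^ (4 * k) ≤ 2 ^ (10 + k / 2 * 10) := Nat.pow_le_pow_right (by norm_num) (by omega)
        _ = 2 ^ 10 * 2 ^ (k / 2 * 10) := by rw [pow_add]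
        _ ≤ _ := Nat.mul_le_mul_right _ (by norm_num)
    have h8 : j ^ 10 ≤ (16 ^ k) ^ 9 := by
      have h9 : (16 ^ k) * j ^ 10 ≤ (16 ^ k) * (16 ^ k) ^ 9 := by
        calc (16 ^ k) * j ^ 10 ≤ N ^ 10 * j ^ 10 := Nat.mul_le_mul_right _ h5
          _ = (N * j) ^ 10 := by rw [mul_pow]
          _ ≤ (16 ^ k) ^ 10 := Nat.pow_le_pow_left hj 10
          _ = _ := by ring
      exact Nat.le_of_mul_le_mul_left h9 (by positivity)
    unfold TE852.Rr
    apply Nat.le_floor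
    have h10 : (j : ℝ) = ((j : ℝ) ^ (10 : ℕ)) ^ (1 / 10 : ℝ) := by
      rw [← Real.rpow_natCast, ← Real.rpow_mul (by positivity)]
      norm_num
    have h11 : (((16 ^ k : ℕ)) : ℝ) ^ (9 / 10 : ℝ) = ((((16 ^ k : ℕ)) : ℝ) ^ (9 : ℕ)) ^
        (1 / 10 : ℝ) := by
      rw [← Real.rpow_natCast, ← Real.rpow_mul (by positivity)]
      norm_num
    rw [h11, h10]
    apply Real.rpow_le_rpow (by positivity) _ (by norm_num)
    exact_mod_cast h8
  have h1000 : 1000 ≤ 16 ^ k := by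
    calc 1000 ≤ 16 ^ 100 := by norm_num
      _ ≤ 16 ^ k := Nat.pow_le_pow_right (by norm_num) hk2
  obtain ⟨z, hz⟩ := high_part e h2 α h0 h1 θ hθ N (TE852.Rr (9 / 10) (16 ^ k)) m hN1 h1000 hr
    (by omega) hlast hmF
  obtain ⟨y, hy⟩ : ∃ y : Fin (10 + 10 + 1) → Alt (16 ^ k),
      y = xh (altD e.permCongrHom.toMonoidHom α h0 h1)
        (altD (e.permCongrHom.toMonoidHom.comp (MulAut.conj (gsw (F := F))).toMonoidHom) α h0 h1)
        θ z := ⟨_, rfl⟩
  rw [← hy] at hz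
  refine ⟨Fin.append xl y, fun f hf => ?_⟩
  have hEn : ∀ {V : Type} [NormedAddCommGroup V] [InnerProductSpace ℂ V]
      (ρ : Alt (16 ^ k) →* (V ≃ₗᵢ[ℂ] V)) {ι : Type} [Fintype ι] (y : ι → Alt (16 ^ k)) (v : V),
      0 ≤ En ρ y v := by
    intro V _ _ ρ ι _ y v
    unfold En; positivity
  refine FR (16 ^ k) (TE852.Rr (9 / 10) (16 ^ k)) _ _ (min c (1 / 10 ^ 12)) (FRLOW.MZ (16 ^ k))
    FRLOW.MZ_inv (fun f hf => hf) ?_ ?_ f hf
  · intro j hj1 hj2 v hv
    rw [En_append]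
    have h5 := hxl j hj1 hj2 v hv
    have h6 := hEn (repA j (16 ^ k)) y v
    have h7 : min c (1 / 10 ^ 12) * ‖v‖ ^ 2 ≤ c * ‖v‖ ^ 2 :=
      mul_le_mul_of_nonneg_right (min_le_left _ _) (by positivity)
    linarith
  · intro v _ hv
    rw [En_append]
    have h5 := hz v hv
    have h6 := hEn (RR (16 ^ k)) xl v
    have h7 : min c (1 / 10 ^ 12) * ‖v‖ ^ 2 ≤ (1 / 10 ^ 12) * ‖v‖ ^ 2 :=
      mul_le_mul_of_nonneg_right (min_le_right _ _) (by positivity)
    linarith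

end

end Pool.Agent.K1H7.EP
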