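import Pool.Agent.K1H7.EP.Exist

/-!
Numerical choices.
-/

namespace Pool.Agent.K1H7.EP
open Finset Equiv Equiv.Perm

set_option linter.unusedSectionVars false

theorem exist_data (M D : ℕ) [NeZero M] (hD : 2 * D ≤ M) (c : ℝ) (hc : 0 < c) (hc1 : c ≤ 1) :
    ∃ e : ℕ, 1 ≤ e ∧ ∀ k₀ : ℕ, ∃ n₀ : ℕ, ∀ n ≥ n₀, ∀ a : Perm (Fin n),
      c * n ≤ (#{i | a i ≠ i} : ℕ) → ∃ k ≥ k₀, ∃ L r, 16 ^ k = 2 * L ∧ 4 ≤ L ∧
        ((M * L : ℕ) : ℝ) ≤ c * n / 3 ∧ Nonempty (PData a M D L (2 * M * e + 1) r) := by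
  have hM1 : 1 ≤ M := Nat.one_le_iff_ne_zero.2 (NeZero.ne M)
  obtain ⟨e, he⟩ : ∃ e : ℕ, e = ⌈200 / c⌉₊ := ⟨_, rfl⟩
  have he1 : 200 / c ≤ e := by rw [he]; exact Nat.le_ceil _
  have he0 : 1 ≤ e := by
    rw [he]
    exact Nat.one_le_iff_ne_zero.2 (Nat.ceil_pos.2 (by positivity)).ne'
  refine ⟨e, he0, fun k₀ => ?_⟩
  obtain ⟨q, hq⟩ : ∃ q, q = 2 * M * e + 1 := ⟨_, rfl⟩
  have hMe : 1 ≤ M * e := Nat.mul_pos hM1 he0
  have hq2 : 2 ≤ q := by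
    have : 2 * M * e = 2 * (M * e) := by ring
    omega
  have : NeZero q := ⟨by omega⟩
  have : NeZero (2 * M * e + 1) := ⟨by omega⟩
  obtain ⟨B, hB⟩ : ∃ B : ℕ, B = 200 * (2 * q + 1) + 3 * (M * 16 ^ (k₀ + 1) + 1) := ⟨_, rfl⟩
  refine ⟨⌈B / c⌉₊, fun n hn a ha => ?_⟩
  have hn1 : (B : ℝ) ≤ c * n := by
    have : B / c ≤ n := (Nat.le_ceil _).trans (by exact_mod_cast hn)
    rw [div_le_iff₀ hc] at this
    linarith
  have hn2 : (200 * (2 * q + 1) + 3 * (M * 16 ^ (k₀ + 1) + 1) : ℝ) ≤ c * n := by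
    rw [hB] at hn1
    push_cast at hn1
    exact hn1
  obtain ⟨Y, hY1, hY2⟩ := exists_Y a
  obtain ⟨y0, hy0⟩ : ∃ y0 : ℕ, y0 = ⌊c * n / 3⌋₊ := ⟨_, rfl⟩
  have hpos : 0 ≤ c * n / 3 := by positivity
  have hy1 : (y0 : ℝ) ≤ c * n / 3 := by rw [hy0]; exact Nat.floor_le hpos
  have hy2 : c * n / 3 < y0 + 1 := by rw [hy0]; exact Nat.lt_floor_add_one _
  have hy3 : y0 ≤ #Y := by
    have h1 : (#{i | a i ≠ i} : ℝ) ≤ 3 * #Y := by exact_mod_cast hY2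
    have h2 : (y0 : ℝ) ≤ #Y := by linarith
    exact_mod_cast h2
  have hy4 : 3 * y0 ≤ n := by
    have h2 : (3 * y0 : ℝ) ≤ n := by
      have : c * n ≤ 1 * n := mul_le_mul_of_nonneg_right hc1 (by positivity)
      linarith
    exact_mod_cast h2
  have hy5 : M * 16 ^ (k₀ + 1) ≤ y0 := by
    have h2 : ((M * 16 ^ (k₀ + 1) : ℕ) : ℝ) ≤ y0 := by
      push_cast
      have : (0 : ℝ) ≤ 200 * (2 * q + 1) := by positivity
      linarith
    exact_mod_cast h2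
  obtain ⟨w, hw⟩ : ∃ w, w = 2 * y0 / M := ⟨_, rfl⟩
  have hw1 : 16 ^ (k₀ + 1) ≤ w := by
    rw [hw, Nat.le_div_iff_mul_le hM1, mul_comm]
    omega
  have hw0 : w ≠ 0 := by
    have : 0 < 16 ^ (k₀ + 1) := by positivity
    omega
  obtain ⟨k, hk⟩ : ∃ k, k = Nat.log 16 w := ⟨_, rfl⟩
  have hk1 : k₀ + 1 ≤ k := by
    rw [hk]
    exact Nat.le_log_of_pow_le (by norm_num) hw1
  have hk2 : 16 ^ k ≤ w := by rw [hk]; exact Nat.pow_log_le_self 16 hw0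
  have hk3 : w < 16 ^ (k + 1) := by rw [hk]; exact Nat.lt_pow_succ_log_self (by norm_num) w
  obtain ⟨L, hL⟩ : ∃ L, L = 8 * 16 ^ (k - 1) := ⟨_, rfl⟩
  have hL1 : 16 ^ k = 2 * L := by
    obtain ⟨k', rfl⟩ : ∃ k', k = k' + 1 := ⟨k - 1, by omega⟩
    rw [hL, pow_succ]
    simp only [Nat.add_sub_cancel]
    ring
  have hL2 : 4 ≤ L := by
    have : 0 < 16 ^ (k - 1) := by positivity
    omega
  have hML : M * L ≤ y0 := by
    have h1 : M * 16 ^ k ≤ 2 * y0 := by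
      calc M * 16 ^ k ≤ M * w := Nat.mul_le_mul_left _ hk2
        _ ≤ 2 * y0 := by rw [hw]; exact Nat.mul_div_le _ _
    rw [hL1] at h1
    have h2 : M * (2 * L) = 2 * (M * L) := by ring
    omega
  have hML2 : y0 < 16 * (M * L) := by
    have h1 : 2 * y0 < 16 ^ (k + 1) * M := by
      rw [hw] at hk3
      exact (Nat.div_lt_iff_lt_mul hM1).1 hk3
    rw [pow_succ, hL1] at h1
    have h2 : 2 * L * 16 * M = 32 * (M * L) := by ring
    omega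
  refine ⟨k, by omega, L, ?_⟩
  have hfin : 2 * (Fintype.card (Fin n) / (q - 1) + q) ≤ M * L := by
    rw [Fintype.card_fin]
    have hq1 : ((q - 1 : ℕ) : ℝ) = 2 * M * e := by
      have : q - 1 = 2 * M * e := by omega
      rw [this]; push_cast; ring
    have h1 : ((n / (q - 1) : ℕ) : ℝ) ≤ n / ((q - 1 : ℕ) : ℝ) := Nat.cast_div_le
    have hMr : (1 : ℝ) ≤ M := by exact_mod_cast hM1
    have her : (1 : ℝ) ≤ e := by exact_mod_cast he0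
    have h2 : 400 / c ≤ 2 * M * e := by
      calc 400 / c = 2 * 1 * (200 / c) := by ring
        _ ≤ 2 * M * e := by gcongr
    have h3 : (n : ℝ) / ((q - 1 : ℕ) : ℝ) ≤ c * n / 400 := by
      rw [hq1, div_le_iff₀ (by positivity)]
      calc (n : ℝ) = c * n / 400 * (400 / c) := by field_simp
        _ ≤ c * n / 400 * (2 * M * e) := by gcongr
    have h4 : (y0 : ℝ) < 16 * (M * L) := by exact_mod_cast hML2
    have h5 : ((2 * (n / (q - 1) + q) : ℕ) : ℝ) ≤ ((M * L : ℕ) : ℝ) := by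
      push_cast
      have h6 : (0 : ℝ) ≤ 3 * (M * 16 ^ (k₀ + 1) + 1) := by positivity
      have h7 : (0 : ℝ) ≤ q := by positivity
      linarith
    exact_mod_cast h5
  obtain ⟨r, hr⟩ := pdata_of a M D L (2 * M * e + 1) (by rw [← hq]; exact hq2) Y hY1
    (hML.trans hy3) hD (by rw [Fintype.card_fin]; omega) (by rw [← hq]; exact hfin)
  refine ⟨r, hL1, hL2, le_trans ?_ hy1, hr⟩
  exact_mod_cast hML

end Pool.Agent.K1H7.EP
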