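import Pool.Agent.K1H7.EP.K1
import Pool.Agent.K1H7.EP.Numer

/-!
The spectral gap as bounded generation, and back.
-/

namespace Pool.Agent.K1H7.EP
open Finset Equiv RC14
open scoped InnerProductSpace ComplexConjugate

set_option linter.unusedSectionVars false

noncomputable section

section
variable {S K n : ℕ}

/-- the restriction of `f` to a coset, centered -/
def cs (φ : Alt S →* Alt n) (f : FA n) (h : Alt n) : FA S :=
  WithLp.toLp 2 fun g => f (h * φ g) - (∑ g' : Alt S, f (h * φ g')) / (Fintype.card (Alt S) : ℂ)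

lemma cs_apply (φ : Alt S →* Alt n) (f : FA n) (h : Alt n) (g : Alt S) : cs φ f h g =
    f (h * φ g) - (∑ g' : Alt S, f (h * φ g')) / (Fintype.card (Alt S) : ℂ) := rfl

lemma cs_sum (φ : Alt S →* Alt n) (f : FA n) (h : Alt n) : ∑ g, cs φ f h g = 0 := by
  simp only [cs_apply]
  have hc : (Fintype.card (Alt S) : ℂ) ≠ 0 := by
    exact_mod_cast (Fintype.card_pos (α := Alt S)).ne'
  rw [Finset.sum_sub_distrib, Finset.sum_const, Finset.card_univ, nsmul_eq_mul,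
    mul_div_cancel₀ _ hc, sub_self]

lemma cs_disp (φ : Alt S →* Alt n) (f : FA n) (g₀ : Alt S) :
    ∑ h, ‖RR S g₀ (cs φ f h) - cs φ f h‖ ^ 2 =
      (Fintype.card (Alt S) : ℝ) * ‖RR n (φ g₀) f - f‖ ^ 2 := by
  have h1 : ∀ h, ‖RR S g₀ (cs φ f h) - cs φ f h‖ ^ 2 =
      ∑ g, ‖(RR n (φ g₀) f - f) (h * φ g)‖ ^ 2 := by
    intro h
    rw [EuclideanSpace.norm_sq_eq]
    refine Finset.sum_congr rfl fun g _ => ?_
    rw [PiLp.sub_apply, RR_apply, cs_apply, cs_apply, PiLp.sub_apply, RR_apply, map_mul, mul_assoc]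
    congr 2
    ring
  rw [Finset.sum_congr rfl fun h _ => h1 h, Finset.sum_comm]
  have h2 : ∀ g : Alt S, ∑ h, ‖(RR n (φ g₀) f - f) (h * φ g)‖ ^ 2 =
      ‖RR n (φ g₀) f - f‖ ^ 2 := by
    intro g
    rw [EuclideanSpace.norm_sq_eq]
    exact Equiv.sum_comp (Equiv.mulRight (φ g)) (fun h => ‖(RR n (φ g₀) f - f) h‖ ^ 2)
  rw [Finset.sum_congr rfl fun g _ => h2 g, Finset.sum_const, Finset.card_univ, nsmul_eq_mul]

/-- the gap inequality as bounded generation -/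
theorem kz (x : Fin K → Alt S) (κ : ℝ) (hκ : 0 < κ)
    (hx : ∀ f : FA S, ∑ g, f g = 0 → κ * ‖f‖ ^ 2 ≤ En (RR S) x f) (φ : Alt S →* Alt n)
    (f : FA n) (η : ℝ) (hη : ∀ i, ‖RR n (φ (x i)) f - f‖ ≤ η) (hη0 : 0 ≤ η) (g : Alt S) :
    ‖RR n (φ g) f - f‖ ≤ 2 * √(K / κ) * η := by
  have hc : (0 : ℝ) < Fintype.card (Alt S) := by
    exact_mod_cast (Fintype.card_pos (α := Alt S))
  have h1 : κ * ∑ h, ‖cs φ f h‖ ^ 2 ≤ Fintype.card (Alt S) * (K * η ^ 2) := by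
    calc κ * ∑ h, ‖cs φ f h‖ ^ 2 = ∑ h, κ * ‖cs φ f h‖ ^ 2 := by rw [Finset.mul_sum]
      _ ≤ ∑ h, En (RR S) x (cs φ f h) := Finset.sum_le_sum fun h _ => hx _ (cs_sum φ f h)
      _ = ∑ i, ∑ h, ‖RR S (x i) (cs φ f h) - cs φ f h‖ ^ 2 := by
          unfold En; rw [Finset.sum_comm]
      _ = ∑ i, (Fintype.card (Alt S) : ℝ) * ‖RR n (φ (x i)) f - f‖ ^ 2 :=
          Finset.sum_congr rfl fun i _ => cs_disp φ f (x i)
      _ ≤ ∑ i : Fin K, (Fintype.card (Alt S) : ℝ) * η ^ 2 := by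
          refine Finset.sum_le_sum fun i _ => ?_
          exact mul_le_mul_of_nonneg_left (pow_le_pow_left₀ (norm_nonneg _) (hη i) 2) hc.le
      _ = _ := by
          rw [Finset.sum_const, Finset.card_univ, Fintype.card_fin, nsmul_eq_mul]; ring
  have h2 : (Fintype.card (Alt S) : ℝ) * ‖RR n (φ g) f - f‖ ^ 2 ≤ 4 * ∑ h, ‖cs φ f h‖ ^ 2 := by
    rw [← cs_disp, Finset.mul_sum]
    refine Finset.sum_le_sum fun h _ => ?_
    have h3 : ‖RR S g (cs φ f h) - cs φ f h‖ ≤ 2 * ‖cs φ f h‖ := by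
      refine (norm_sub_le _ _).trans ?_
      rw [LinearIsometryEquiv.norm_map]; linarith
    calc ‖RR S g (cs φ f h) - cs φ f h‖ ^ 2 ≤ (2 * ‖cs φ f h‖) ^ 2 :=
          pow_le_pow_left₀ (norm_nonneg _) h3 2
      _ = _ := by ring
  have h3 : ‖RR n (φ g) f - f‖ ^ 2 ≤ 4 * (K / κ) * η ^ 2 := by
    have h4 : κ * (Fintype.card (Alt S) * ‖RR n (φ g) f - f‖ ^ 2) ≤
        4 * (Fintype.card (Alt S) * (K * η ^ 2)) := by
      have := mul_le_mul_of_nonneg_left h2 hκ.le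
      linarith
    have h5 : κ * ‖RR n (φ g) f - f‖ ^ 2 ≤ 4 * (K * η ^ 2) := by
      have : Fintype.card (Alt S) * (κ * ‖RR n (φ g) f - f‖ ^ 2) ≤
          Fintype.card (Alt S) * (4 * (K * η ^ 2)) := by linarith
      exact le_of_mul_le_mul_left this hc
    calc ‖RR n (φ g) f - f‖ ^ 2 = (κ * ‖RR n (φ g) f - f‖ ^ 2) / κ := by field_simp
      _ ≤ (4 * (K * η ^ 2)) / κ := div_le_div_of_nonneg_right h5 hκ.le
      _ = _ := by ring
  have hK : (0 : ℝ) ≤ K / κ := by positivity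
  refine le_of_sq_le_sq ?_ (by positivity)
  calc ‖RR n (φ g) f - f‖ ^ 2 ≤ 4 * (K / κ) * η ^ 2 := h3
    _ = (2 * √(K / κ) * η) ^ 2 := by
        rw [mul_pow, mul_pow, Real.sq_sqrt hK]; ring

/-- the displacement filtration of a vector -/
def dF (f : FA n) (η : ℝ) (hη : 0 ≤ η) : Filt (Perm (Fin n)) where
  Q m g := ∃ h : g ∈ alternatingGroup (Fin n), ‖RR n ⟨g, h⟩ f - f‖ ≤ m * η
  one := by
    refine ⟨Subgroup.one_mem _, ?_⟩
    have : RR n ⟨1, Subgroup.one_mem _⟩ f = f := by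
      change RR n 1 f = f
      rw [map_one]; rfl
    rw [this, sub_self, norm_zero]; simp
  mul := by
    rintro m m' g g' ⟨h, h1⟩ ⟨h', h2⟩
    refine ⟨Subgroup.mul_mem _ h h', ?_⟩
    have e : RR n ⟨g * g', Subgroup.mul_mem _ h h'⟩ f = RR n ⟨g, h⟩ (RR n ⟨g', h'⟩ f) := by
      change RR n (⟨g, h⟩ * ⟨g', h'⟩) f = _
      rw [map_mul]; rfl
    rw [e]
    calc ‖RR n ⟨g, h⟩ (RR n ⟨g', h'⟩ f) - f‖
        = ‖RR n ⟨g, h⟩ (RR n ⟨g', h'⟩ f - f) + (RR n ⟨g, h⟩ f - f)‖ := by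
          rw [map_sub]; congr 1; abel
      _ ≤ ‖RR n ⟨g, h⟩ (RR n ⟨g', h'⟩ f - f)‖ + ‖RR n ⟨g, h⟩ f - f‖ := norm_add_le _ _
      _ = ‖RR n ⟨g', h'⟩ f - f‖ + ‖RR n ⟨g, h⟩ f - f‖ := by rw [LinearIsometryEquiv.norm_map]
      _ ≤ m' * η + m * η := add_le_add h2 h1
      _ = _ := by push_cast; ring
  inv := by
    rintro m g ⟨h, h1⟩
    refine ⟨Subgroup.inv_mem _ h, ?_⟩
    have e : RR n ⟨g, h⟩ (RR n ⟨g⁻¹, Subgroup.inv_mem _ h⟩ f) = f := by
      have : RR n ⟨g, h⟩ (RR n ⟨g⁻¹, Subgroup.inv_mem _ h⟩ f) = RR n (⟨g, h⟩ * ⟨g, h⟩⁻¹) f := by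
        rw [map_mul]; rfl
      rw [this, mul_inv_cancel, map_one]; rfl
    calc ‖RR n ⟨g⁻¹, Subgroup.inv_mem _ h⟩ f - f‖
        = ‖RR n ⟨g, h⟩ (RR n ⟨g⁻¹, Subgroup.inv_mem _ h⟩ f - f)‖ := by
          rw [LinearIsometryEquiv.norm_map]
      _ = ‖f - RR n ⟨g, h⟩ f‖ := by rw [map_sub, e]
      _ ≤ m * η := by rw [norm_sub_rev]; exact h1
  mono := by
    rintro m m' g hm ⟨h, h1⟩
    refine ⟨h, h1.trans ?_⟩
    have : (m : ℝ) ≤ m' := by exact_mod_cast hm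
    exact mul_le_mul_of_nonneg_right this hη

/-- the homomorphism of alternating groups given by an embedding -/
def vA (ψ : Fin S ↪ Fin n) : Alt S →* Alt n :=
  ((ve ψ).comp (Subgroup.subtype _)).codRestrict _ fun g => by
    rw [Perm.mem_alternatingGroup]
    change Perm.sign (ve ψ (g : Perm (Fin S))) = 1
    rw [ve_sign]
    exact Perm.mem_alternatingGroup.1 g.2

theorem kz_filt (x : Fin K → Alt S) (κ : ℝ) (hκ : 0 < κ)
    (hx : ∀ f : FA S, ∑ g, f g = 0 → κ * ‖f‖ ^ 2 ≤ En (RR S) x f) (C : ℕ)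
    (hC : 2 * √(K / κ) ≤ C) (f : FA n) (η : ℝ) (hη : 0 ≤ η) (ψ : Fin S ↪ Fin n) :
    KZp (fun i => (x i : Perm (Fin S))) C ((dF f η hη).comap (ve ψ)) := by
  intro m h g hg
  obtain ⟨g', hg'⟩ : ∃ g' : Alt S, (g' : Perm (Fin S)) = g :=
    ⟨⟨g, Perm.mem_alternatingGroup.2 hg⟩, rfl⟩
  have h1 := kz x κ hκ hx (vA ψ) f (m * η) (fun i => by
    obtain ⟨h2, h3⟩ := h i
    exact h3) (by positivity) g'
  subst hg'
  refine ⟨(vA ψ g').2, ?_⟩
  have h4 : ‖RR n (vA ψ g') f - f‖ ≤ ((C * m : ℕ) : ℝ) * η := by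
    refine h1.trans ?_
    push_cast
    rw [mul_assoc (C : ℝ)]
    exact mul_le_mul_of_nonneg_right hC (by positivity)
  exact h4

/-- from bounded generation to the gap -/
theorem gap_of_cov {k : ℕ} (x : Fin k → Alt n) (C : ℕ) (hC : 0 < C)
    (h : ∀ (f : FA n) (η : ℝ) (hη : 0 ≤ η), (∀ i, (dF f η hη).Q 1 (x i : Perm (Fin n))) →
      Cov (dF f η hη) C Finset.univ) (f : FA n) (hf : ∑ g, f g = 0) :
    (1 / (C : ℝ) ^ 2) * ‖f‖ ^ 2 ≤ En (RR n) x f := by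
  obtain ⟨η, hη⟩ : ∃ η, η = √(En (RR n) x f) := ⟨_, rfl⟩
  have hE : 0 ≤ En (RR n) x f := by unfold En; positivity
  have hη0 : 0 ≤ η := by rw [hη]; positivity
  have hη2 : η ^ 2 = En (RR n) x f := by rw [hη, Real.sq_sqrt hE]
  have h1 : ∀ i, ‖RR n (x i) f - f‖ ≤ η := by
    intro i
    rw [hη]
    refine Real.le_sqrt_of_sq_le ?_
    unfold En
    exact Finset.single_le_sum (f := fun i => ‖RR n (x i) f - f‖ ^ 2) (fun i _ => by positivity)
      (Finset.mem_univ i)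
  have h2 := h f η hη0 (fun i => ⟨(x i).2, by
    rw [Nat.cast_one, one_mul]; exact h1 i⟩)
  have h3 : ∀ g : Alt n, ‖RR n g f - f‖ ≤ C * η := by
    intro g
    obtain ⟨h4, h5⟩ := h2 (g : Perm (Fin n)) ⟨Perm.mem_alternatingGroup.1 g.2,
      fun y hy => absurd (Finset.mem_univ y) hy⟩
    exact h5
  have hc : (0 : ℝ) < Fintype.card (Alt n) := by
    exact_mod_cast (Fintype.card_pos (α := Alt n))
  have h4 : ∑ g : Alt n, RR n g f = 0 := by
    ext h'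
    rw [WithLp.ofLp_sum, Finset.sum_apply]
    have : ∀ g : Alt n, (RR n g f).ofLp h' = f (h' * g) := fun g => RR_apply g f h'
    rw [Finset.sum_congr rfl fun g _ => this g]
    exact (Equiv.sum_comp (Equiv.mulLeft h') (fun g => f g)).trans hf
  have h5 : (Fintype.card (Alt n) : ℝ) * ‖f‖ ≤ Fintype.card (Alt n) * (C * η) := by
    have e1 : ∑ g : Alt n, (RR n g f - f) = -((Fintype.card (Alt n) : ℂ) • f) := by
      rw [Finset.sum_sub_distrib, h4, Finset.sum_const, Finset.card_univ, zero_sub,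
        ← Nat.cast_smul_eq_nsmul ℂ]
    have e2 : ‖∑ g : Alt n, (RR n g f - f)‖ = (Fintype.card (Alt n) : ℝ) * ‖f‖ := by
      rw [e1, norm_neg, norm_smul]
      simp
    rw [← e2]
    refine (norm_sum_le _ _).trans ?_
    refine (Finset.sum_le_sum fun g _ => h3 g).trans ?_
    rw [Finset.sum_const, Finset.card_univ, nsmul_eq_mul]
  have h6 : ‖f‖ ≤ C * η := le_of_mul_le_mul_left h5 hc
  have hCr : (0 : ℝ) < C := by exact_mod_cast hC
  rw [← hη2, one_div, inv_mul_le_iff₀ (by positivity)]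
  calc ‖f‖ ^ 2 ≤ (C * η) ^ 2 := pow_le_pow_left₀ (norm_nonneg _) h6 2
    _ = _ := by ring

/-- from the gap on mean zero functions to `Expanding` -/
theorem expanding_of_gap {k : ℕ} (hk : 1 ≤ k) (x : Fin k → Alt n) (c : ℝ) (hc : 0 < c)
    (h : ∀ f : FA n, ∑ g, f g = 0 → c * ‖f‖ ^ 2 ≤ En (RR n) x f) :
    Expanding (c / (2 * k)) x := by
  refine FRALL n 0 k hk x c hc (fun j h1 h2 => by omega) fun f hf => h f ?_
  obtain ⟨κ, -⟩ : ∃ κ : Tup 0 n, True := ⟨⟨Fin.elim0, fun i => i.elim0⟩, trivial⟩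
  have h1 := hf 0 le_rfl κ
  have h2 := congrArg (fun v : V 0 n => v κ) h1
  have h3 : marg κ f κ = ∑ g, f g := by
    change (∑ g : Alt n, if mv (g : Perm (Fin n))⁻¹ κ = κ then f g else 0) = _
    refine Finset.sum_congr rfl fun g _ => ?_
    rw [if_pos (by ext i; exact i.elim0)]
  rw [← h3]
  simpa using h2

end

end

end Pool.Agent.K1H7.EP
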