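import Pool.Agent.K1H7.EP.Kz
import Pool.Agent.K1H7.EP.Count

/-!
Every element moving a positive proportion of the points has many partners with which it forms a
uniformly expanding pair.
-/

namespace Pool.Agent.K1H7.EP
open Finset Equiv RC14

theorem pairs_many (c δ : ℝ) (hc : 0 < c) (hδ : 0 < δ) : ∃ ε : ℝ, 0 < ε ∧ ∃ n₀ : ℕ, ∀ n ≥ n₀,
    ∀ a : Alt n, c * n ≤ (#{i | (a : Perm (Fin n)) i ≠ i} : ℕ) →
      (Fintype.card (Alt n) : ℝ) ^ (1 - δ) ≤ Nat.card {b : Alt n // Expanding ε ![a, b]} := by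
  classical
  obtain ⟨K, κ, hκ, k₀, hK⟩ := part1
  obtain ⟨C, hC⟩ : ∃ C : ℕ, C = ⌈2 * √(K / κ)⌉₊ := ⟨_, rfl⟩
  have hC1 : 2 * √(K / κ) ≤ C := by rw [hC]; exact Nat.le_ceil _
  obtain ⟨M, D, τ, hM, hD, hM3, hτ, hτD⟩ := slots_exist K
  have : NeZero M := ⟨by omega⟩
  obtain ⟨δ', hδ'⟩ : ∃ δ' : ℝ, δ' = min δ 1 := ⟨_, rfl⟩
  have hδ0 : 0 < δ' := by rw [hδ']; positivity
  obtain ⟨c', hc'⟩ : ∃ c' : ℝ, c' = min (min c 1) (δ' / 2) := ⟨_, rfl⟩
  have hc'0 : 0 < c' := by rw [hc']; positivity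
  have hc'1 : c' ≤ 1 := by rw [hc']; exact (min_le_left _ _).trans (min_le_right _ _)
  have hc'2 : c' ≤ c := by rw [hc']; exact (min_le_left _ _).trans (min_le_left _ _)
  have hc'3 : c' ≤ δ' / 2 := by rw [hc']; exact min_le_right _ _
  obtain ⟨e, he, hdata⟩ := exist_data M D hD c' hc'0 hc'1
  obtain ⟨n₀, hn₀⟩ := hdata k₀
  obtain ⟨q, hq⟩ : ∃ q, q = 2 * M * e + 1 := ⟨_, rfl⟩
  have hCp : 0 < Cp C M q := by unfold Cp; omega
  have hCp' : (0 : ℝ) < Cp C M q := by exact_mod_cast hCp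
  refine ⟨(1 / (Cp C M q : ℝ) ^ 2) / (2 * (2 : ℕ)), by positivity, max n₀ 8, fun n hn a ha => ?_⟩
  obtain ⟨k, hk, L, r, hS, hL, hML, ⟨P⟩⟩ := hn₀ n ((le_max_left _ _).trans hn)
    (a : Perm (Fin n)) (by
      refine le_trans ?_ ha
      exact mul_le_mul_of_nonneg_right hc'2 (by positivity))
  have hn8 : 8 ≤ n := (le_max_right _ _).trans hn
  rw [← hq] at P
  have : NeZero q := ⟨by omega⟩
  have hqo : Odd q := ⟨M * e, by rw [hq]; ring⟩
  obtain ⟨x, hx⟩ := hK k hk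
  obtain ⟨s, hs1, hs2, hs3⟩ := invols hS hL (fun i => (x i : Perm (Fin (16 ^ k))))
    (fun i => Perm.mem_alternatingGroup.1 (x i).2)
  have key : ∀ P : PData (a : Perm (Fin n)) M D L q r,
      Expanding ((1 / (Cp C M q : ℝ) ^ 2) / (2 * (2 : ℕ)))
        ![a, (⟨bb P hτ s, Perm.mem_alternatingGroup.2 (bb_sign P hτ s hs2 hM hqo)⟩ : Alt n)] := by
    intro P
    refine expanding_of_gap (by norm_num) _ _ (by positivity) fun f hf => ?_
    refine gap_of_cov _ (Cp C M q) hCp (fun f η hη h => ?_) f hf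
    exact pair_main P hL hS hM hM3 e he hq hτ hτD (fun i => (x i : Perm (Fin (16 ^ k)))) s hs1 hs3
      (dF f η hη) C (fun ψ => kz_filt x κ hκ hx C hC1 f η hη ψ) (h 0) (h 1)
  -- the many partners
  have hfix : ∀ (π : Perm {z : ZMod q × Fin r // z.1 ≠ 0}) (y : Fin r),
      Perm.ofSubtype π ((0 : ZMod q), y) = ((0 : ZMod q), y) := fun π y =>
    Perm.ofSubtype_apply_of_not_mem π (by simp)
  obtain ⟨Φ, hΦ⟩ : ∃ Φ : Perm {z : ZMod q × Fin r // z.1 ≠ 0} →
      {b : Alt n // Expanding ((1 / (Cp C M q : ℝ) ^ 2) / (2 * (2 : ℕ))) ![a, b]},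
      Φ = fun π => ⟨_, key (P.move (Perm.ofSubtype π) (hfix π))⟩ := ⟨_, rfl⟩
  have hinj : Function.Injective Φ := by
    intro π π' h
    rw [hΦ] at h
    have h1 := congrArg (fun w => ((w.1 : Alt n) : Perm (Fin n))) h
    have h2 := bb_inj P hτ s _ _ (hfix π) (hfix π') h1
    exact Perm.ofSubtype_injective h2
  have h1 := Nat.card_le_card_of_injective Φ hinj
  have h2 : Nat.card (Perm {z : ZMod q × Fin r // z.1 ≠ 0}) =
      (Fintype.card {z : ZMod q × Fin r // z.1 ≠ 0}).factorial := by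
    rw [Nat.card_eq_fintype_card, Fintype.card_perm]
  rw [h2] at h1
  have h3 := card_le P
  rw [Fintype.card_fin] at h3
  have h4 : (n : ℝ) ≤ 2 * ((M * L : ℕ) : ℝ) +
      (Fintype.card {z : ZMod q × Fin r // z.1 ≠ 0} : ℝ) := by exact_mod_cast h3
  have h5 : (1 - δ' / 2) * n ≤ (Fintype.card {z : ZMod q × Fin r // z.1 ≠ 0} : ℝ) := by
    have h6 : c' * n ≤ δ' / 2 * n := mul_le_mul_of_nonneg_right hc'3 (by positivity)
    have h7 : 0 ≤ c' * n := by positivity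
    linarith
  have h6 := fact_ge δ' hδ0 n _ hn8 h5
  have hcard : (Fintype.card (Alt n) : ℝ) ≤ n.factorial := by
    have : Fintype.card (Alt n) ≤ Fintype.card (Perm (Fin n)) := Fintype.card_subtype_le _
    rw [Fintype.card_perm, Fintype.card_fin] at this
    exact_mod_cast this
  have hcard1 : (1 : ℝ) ≤ Fintype.card (Alt n) := by
    exact_mod_cast (Fintype.card_pos (α := Alt n))
  calc (Fintype.card (Alt n) : ℝ) ^ (1 - δ) ≤ (Fintype.card (Alt n) : ℝ) ^ (1 - δ') := by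
        refine Real.rpow_le_rpow_of_exponent_le hcard1 ?_
        have : δ' ≤ δ := by rw [hδ']; exact min_le_left _ _
        linarith
    _ ≤ (n.factorial : ℝ) ^ (1 - δ') := by
        refine Real.rpow_le_rpow (by positivity) hcard ?_
        have : δ' ≤ 1 := by rw [hδ']; exact min_le_right _ _
        linarith
    _ ≤ ((Fintype.card {z : ZMod q × Fin r // z.1 ≠ 0}).factorial : ℝ) := h6
    _ ≤ _ := by exact_mod_cast h1

end Pool.Agent.K1H7.EP
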