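import Pool.Agent.K1H7.EP.Blocks

/-!
The second element of the pair.
-/

namespace Pool.Agent.K1H7.EP
open Finset Equiv Equiv.Perm

set_option linter.unusedSectionVars false

noncomputable section

lemma extr {G : Type*} [Group G] (x y z : G) (hxy : Commute x y) (hxz : Commute x z)
    (hyz : Commute y z) (M e q : ℕ) (hM : Odd M) (he : 1 ≤ e) (hq : q = 2 * M * e + 1)
    (hx : x * x = 1) (hy : y ^ M = 1) (hz : z ^ q = 1) :
    (x * y * z) ^ (M * q) = x ∧ (x * y * z) ^ (q * (M + 1)) = y ∧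
      (x * y * z) ^ ((q - 1) * (q - 1)) = z := by
  have hp : ∀ k, (x * y * z) ^ k = x ^ k * y ^ k * z ^ k := by
    intro k
    rw [(hxz.mul_left hyz).mul_pow, hxy.mul_pow]
  have hx2 : ∀ k, x ^ (2 * k) = 1 := by
    intro k
    rw [pow_mul, sq, hx, one_pow]
  have hM1 : 1 ≤ M := hM.pos
  refine ⟨?_, ?_, ?_⟩
  · rw [hp]
    obtain ⟨j, hj⟩ : Odd (M * q) := hM.mul (by rw [hq]; exact ⟨M * e, by ring⟩)
    have e1 : x ^ (M * q) = x := by
      rw [hj, pow_succ, hx2, one_mul]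
    have e2 : y ^ (M * q) = 1 := by rw [pow_mul, hy, one_pow]
    have e3 : z ^ (M * q) = 1 := by rw [mul_comm, pow_mul, hz, one_pow]
    rw [e1, e2, e3, mul_one, mul_one]
  · rw [hp]
    obtain ⟨j, hj⟩ := hM
    have e1 : x ^ (q * (M + 1)) = 1 := by
      have : q * (M + 1) = 2 * (q * (j + 1)) := by rw [hj]; ring
      rw [this, hx2]
    have e2 : y ^ (q * (M + 1)) = y := by
      have : q * (M + 1) = M * (2 * e * (M + 1) + 1) + 1 := by rw [hq]; ring
      rw [this, pow_succ, pow_mul, hy, one_pow, one_mul]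
    have e3 : z ^ (q * (M + 1)) = 1 := by rw [pow_mul, hz, one_pow]
    rw [e1, e2, e3, one_mul, mul_one]
  · rw [hp]
    obtain ⟨w, hw⟩ : ∃ w, q = w + 2 := by
      have : 1 ≤ M * e := Nat.mul_pos hM1 he
      refine ⟨q - 2, ?_⟩
      have h2 : 2 * M * e = 2 * (M * e) := by ring
      omega
    have hq1 : q - 1 = 2 * M * e := by omega
    have e1 : x ^ ((q - 1) * (q - 1)) = 1 := by
      have : (q - 1) * (q - 1) = 2 * (M * e * (2 * M * e)) := by rw [hq1]; ring
      rw [this, hx2]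
    have e2 : y ^ ((q - 1) * (q - 1)) = 1 := by
      have : (q - 1) * (q - 1) = M * (2 * e * (2 * M * e)) := by rw [hq1]; ring
      rw [this, pow_mul, hy, one_pow]
    have e3 : z ^ ((q - 1) * (q - 1)) = z := by
      have : (q - 1) * (q - 1) = q * w + 1 := by
        have : q - 1 = w + 1 := by omega
        rw [this, hw]; ring
      rw [this, pow_succ, pow_mul, hz, one_pow, one_mul]
    rw [e1, e2, e3, one_mul, one_mul]

/-- the constant -/
def Cp (C M q : ℕ) : ℕ :=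
  3 ^ (q + 1) * (Cb C M * (2 * M * q * q + 2) + 2 + 2 * (q * (2 * M * q * q))) + 2

section
variable {Ω : Type*} [Fintype Ω] [DecidableEq Ω]

/-- the combinatorial data of a pair -/
structure PData (a : Perm Ω) (M D L q r : ℕ) where
  ι : ZMod M × Fin L ↪ Ω
  θ : ZMod q × Fin r ↪ Ω
  disj : ∀ z w, a (ι z) ≠ ι w
  th1 : ∀ z w, θ z ≠ ι w
  th2 : ∀ z w, θ z = a (ι w) → D ≤ w.1.val
  th3 : ∀ y, ∃ w, θ (0, y) = a (ι w)
  th4 : ∀ x : Ω, (∃ w, x = ι w) ∨ (∃ w, x = a (ι w)) ∨ ∃ z, x = θ z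
  th5 : ∀ T : Finset Ω, (∀ x ∈ T, (∃ z, x = θ z) ∧ ∃ w, x = a (ι w)) → 2 * #T ≤ M * L
  th6 : 3 * (M * L) ≤ Fintype.card Ω

variable {M D L q r S K : ℕ} [NeZero M] [NeZero q] {a : Perm Ω}
  {τ : Fin K × Fin 4 → ZMod M}

/-- the second element -/
def bb (P : PData a M D L q r) (hτ : Slots τ) (s : Fin K × Fin 4 → Perm (Fin 3 × Fin L)) :
    Perm Ω :=
  (a * ve P.ι (hall hτ s) * a⁻¹) * ve P.ι (rt 1) * ve P.θ (rt 1)

lemma bb_sign (P : PData a M D L q r) (hτ : Slots τ) (s : Fin K × Fin 4 → Perm (Fin 3 × Fin L))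
    (hs : ∀ l, sign (s l) = 1) (hM : Odd M) (hq : Odd q) : sign (bb P hτ s) = 1 := by
  unfold bb
  rw [Perm.sign_mul, Perm.sign_mul, Perm.sign_mul, Perm.sign_mul, Perm.sign_inv, ve_sign, ve_sign,
    ve_sign, hall_sign hτ s hs, rt_sign hM, rt_sign hq, mul_one, mul_one, mul_one, ← sq]
  exact Int.units_sq _

variable (P : PData a M D L q r)

theorem pair_main (hL : 4 ≤ L) (hS : S = 2 * L) (hMo : Odd M) (hM : 3 ≤ M) (e : ℕ) (he : 1 ≤ e)
    (hq : q = 2 * M * e + 1) (hτ : Slots τ)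
    (hD : ∀ l (i : Fin 3), (τ l + ((i : ℕ) : ZMod M)).val < D)
    (x : Fin K → Perm (Fin S)) (s : Fin K × Fin 4 → Perm (Fin 3 × Fin L))
    (hs1 : ∀ l, s l * s l = 1)
    (hs : ∀ i, ve (psi0 hS) (x i) = (s (i, 0) * s (i, 1) * (s (i, 0))⁻¹ * (s (i, 1))⁻¹) *
        (s (i, 2) * s (i, 3) * (s (i, 2))⁻¹ * (s (i, 3))⁻¹))
    (F : Filt (Perm Ω)) (C : ℕ) (hF : ∀ ψ : Fin S ↪ Ω, KZp x C (F.comap (ve ψ)))
    (ha : F.Q 1 a) (hb : F.Q 1 (bb P hτ s)) :
    Cov F (Cp C M q) Finset.univ := by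
  -- extraction
  obtain ⟨u, hu⟩ : ∃ u, u = a * ve P.ι (hall hτ s) * a⁻¹ := ⟨_, rfl⟩
  obtain ⟨v, hv⟩ : ∃ v, v = ve P.ι (rt 1) := ⟨_, rfl⟩
  obtain ⟨w, hw⟩ : ∃ w, w = ve P.θ (rt 1) := ⟨_, rfl⟩
  have hbb : bb P hτ s = u * v * w := by rw [hu, hv, hw]; rfl
  have hu' : u = ve (P.ι.trans a.toEmbedding) (hall hτ s) := by rw [hu, ve_conj]
  have huapp : ∀ p, u p ≠ p → ∃ z, p = a (P.ι z) ∧ z.1.val < D := by
    intro p hp
    by_cases h : ∃ z, p = a (P.ι z)
    · obtain ⟨z, hz⟩ := h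
      refine ⟨z, hz, ?_⟩
      have h1 : hall hτ s z ≠ z := by
        intro h2
        apply hp
        rw [hz, hu]
        change a (ve P.ι (hall hτ s) (a⁻¹ (a (P.ι z)))) = a (P.ι z)
        rw [inv_app, ve_apply, h2]
      obtain ⟨l, w', hl⟩ := hall_not hτ s z h1
      rw [hl]
      exact hD l w'.1
    · push Not at h
      exact absurd (by rw [hu']; exact ve_not _ _ _ h) hp
  have hvapp : ∀ p, v p ≠ p → ∃ z, p = P.ι z := by
    intro p hp
    by_contra h
    push Not at h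
    exact hp (by rw [hv]; exact ve_not _ _ _ h)
  have hwapp : ∀ p, w p ≠ p → ∃ z, p = P.θ z := by
    intro p hp
    by_contra h
    push Not at h
    exact hp (by rw [hw]; exact ve_not _ _ _ h)
  have c1 : Commute u v := by
    refine Disjoint.commute fun p => ?_
    by_contra h
    push Not at h
    obtain ⟨z, hz, -⟩ := huapp p h.1
    obtain ⟨z', hz'⟩ := hvapp p h.2
    exact P.disj z z' (hz.symm.trans hz')
  have c2 : Commute u w := by
    refine Disjoint.commute fun p => ?_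
    by_contra h
    push Not at h
    obtain ⟨z, hz, hz2⟩ := huapp p h.1
    obtain ⟨z', hz'⟩ := hwapp p h.2
    have := P.th2 z' z (hz'.symm.trans hz)
    omega
  have c3 : Commute v w := by
    refine Disjoint.commute fun p => ?_
    by_contra h
    push Not at h
    obtain ⟨z, hz⟩ := hvapp p h.1
    obtain ⟨z', hz'⟩ := hwapp p h.2
    exact P.th1 z' z (hz'.symm.trans hz)
  have o1 : u * u = 1 := by
    have : u * u = a * ve P.ι (hall hτ s * hall hτ s) * a⁻¹ := by
      rw [map_mul, hu]; group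
    rw [this, hall_sq hτ s hs1, map_one]; group
  have o2 : v ^ M = 1 := by
    rw [hv, ← map_pow, rt_pow, ZMod.natCast_self, rt_zero, map_one]
  have o3 : w ^ q = 1 := by
    rw [hw, ← map_pow, rt_pow, ZMod.natCast_self, rt_zero, map_one]
  obtain ⟨x1, x2, x3⟩ := extr u v w c1 c2 c3 M e q hMo he hq o1 o2 o3
  rw [hbb] at hb
  have y1 := F.pow hb (M * q)
  have y2 := F.pow hb (q * (M + 1))
  have y3 := F.pow hb ((q - 1) * (q - 1))
  rw [x1] at y1
  rw [x2] at y2
  rw [x3] at y3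
  obtain ⟨m, hm⟩ : ∃ m, m = 2 * M * q * q := ⟨_, rfl⟩
  have hq1 : 1 ≤ q := by omega
  have hM1 : 1 ≤ M := by omega
  have hqq : q ≤ q * q := Nat.le_mul_of_pos_left _ hq1
  have m1 : M * q * 1 ≤ m := by
    rw [hm]
    calc M * q * 1 ≤ (2 * M * q) * q := Nat.mul_le_mul (by nlinarith) hq1
      _ = _ := by ring
  have m2 : q * (M + 1) * 1 ≤ m := by
    rw [hm]
    calc q * (M + 1) * 1 ≤ (2 * M * q) * q := Nat.mul_le_mul (by nlinarith) hq1
      _ = _ := by ring
  have m3 : (q - 1) * (q - 1) * 1 ≤ m := by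
    rw [hm]
    calc (q - 1) * (q - 1) * 1 ≤ q * q * 1 := by
          apply Nat.mul_le_mul_right
          exact Nat.mul_le_mul (by omega) (by omega)
      _ ≤ q * q * (2 * M) := Nat.mul_le_mul_left _ (by omega)
      _ = _ := by ring
  have z1 : F.Q m u := F.mono m1 y1
  have z2 : F.Q m v := F.mono m2 y2
  have z3 : F.Q m w := F.mono m3 y3
  -- the blocks
  have z4 : F.Q (m + 2) (ve P.ι (hall hτ s)) := by
    have := F.conj (F.inv ha) z1
    have e1 : a⁻¹ * u * a⁻¹⁻¹ = ve P.ι (hall hτ s) := by rw [hu]; group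
    rw [e1] at this
    exact this
  have z2' : F.Q (m + 2) (ve P.ι (rt 1)) := by
    rw [← hv]
    exact F.mono (by omega) z2
  have z5 := blocks hS hL hM x hτ s hs (F.comap (ve P.ι)) C (by
    intro ψ m h g hg
    have h1 := hF (ψ.trans P.ι) m (by
      intro i
      have := h i
      change F.Q m (ve P.ι (ve ψ (x i))) at this
      rw [ve_ve] at this
      exact this) g hg
    change F.Q (C * m) (ve P.ι (ve ψ g))
    rw [ve_ve]
    exact h1) (m + 2) z4 z2'
  obtain ⟨c₁, hc₁⟩ : ∃ c₁, c₁ = Cb C M * (m + 2) := ⟨_, rfl⟩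
  rw [← hc₁] at z5
  obtain ⟨A, hA⟩ : ∃ A : Finset Ω, A = Finset.univ.image P.ι := ⟨_, rfl⟩
  have hAm : ∀ p, p ∈ A ↔ ∃ z, p = P.ι z := by
    intro p
    rw [hA, Finset.mem_image]
    constructor
    · rintro ⟨z, -, h⟩; exact ⟨z, h.symm⟩
    · rintro ⟨z, h⟩; exact ⟨z, Finset.mem_univ _, h.symm⟩
  have hAc : #A = M * L := by
    rw [hA, Finset.card_image_of_injective _ P.ι.injective, Finset.card_univ, Fintype.card_prod,
      ZMod.card, Fintype.card_fin]
  have z6 : Cov F c₁ A := by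
    intro g hg
    obtain ⟨e, he⟩ := ve_surj P.ι g (fun x hx => hg.2 x (by
      rw [hAm]
      rintro ⟨y, hy⟩
      exact hx y hy))
    rw [← he]
    refine z5 e ⟨?_, fun y hy => absurd (Finset.mem_univ _) hy⟩
    rw [← ve_sign P.ι e, he]
    exact hg.1
  have z7 : Cov F (c₁ + 2) (A.image a) := (z6.conj ha)
  obtain ⟨B, hB⟩ : ∃ B : Finset Ω, B = A.image a := ⟨_, rfl⟩
  rw [← hB] at z7
  have hBm : ∀ p, p ∈ B ↔ ∃ z, p = a (P.ι z) := by
    intro p
    rw [hB, Finset.mem_image]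
    constructor
    · rintro ⟨z, h1, h⟩
      obtain ⟨z', hz'⟩ := (hAm z).1 h1
      exact ⟨z', by rw [← h, hz']⟩
    · rintro ⟨z, h⟩; exact ⟨P.ι z, (hAm _).2 ⟨z, rfl⟩, h.symm⟩
  have hBc : #B = M * L := by
    rw [hB, Finset.card_image_of_injective _ a.injective, hAc]
  obtain ⟨T, hT⟩ : ∃ T : Finset Ω, T = B.filter (fun p => ∃ z, p = P.θ z) := ⟨_, rfl⟩
  have hTc : 2 * #T ≤ M * L := by
    refine P.th5 T fun p hp => ?_
    rw [hT, Finset.mem_filter] at hp
    exact ⟨hp.2, (hBm p).1 hp.1⟩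
  have hTB : #(B \ T) = M * L - #T := by
    rw [Finset.card_sdiff_of_subset (by rw [hT]; exact Finset.filter_subset _ _), hBc]
  -- translates of `B`
  have z8 : ∀ j, j ≤ q → Cov F (c₁ + 2 + 2 * (q * m)) (B.image (w ^ j)) := by
    intro j hj
    have := z7.conj (F.pow z3 j)
    refine this.up ?_
    have := Nat.mul_le_mul_right m hj
    omega
  have hBT : ∀ j : ℕ, B \ T ⊆ B.image (w ^ j) := by
    intro j p hp
    rw [Finset.mem_sdiff] at hp
    rw [Finset.mem_image]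
    refine ⟨p, hp.1, ?_⟩
    have hwp : w p = p := by
      by_contra h
      obtain ⟨z, hz⟩ := hwapp p h
      exact hp.2 (by rw [hT, Finset.mem_filter]; exact ⟨hp.1, z, hz⟩)
    exact Equiv.Perm.pow_apply_eq_self_of_apply_eq_self hwp j
  have hML : 4 ≤ M * L := by nlinarith
  have z9 : ∀ j, j < q → ∃ V : Finset Ω, Cov F (3 ^ j * (c₁ + 2 + 2 * (q * m))) V ∧ B ⊆ V ∧
      ∀ i, i ≤ j → B.image (w ^ i) ⊆ V := by
    intro j
    induction j with
    | zero =>
      intro _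
      refine ⟨B, ?_, Finset.Subset.refl _, ?_⟩
      · rw [pow_zero, one_mul]
        exact z7.up (by omega)
      · intro i hi
        have : i = 0 := by omega
        rw [this, pow_zero]
        intro p hp
        rw [Finset.mem_image] at hp
        obtain ⟨y, hy, rfl⟩ := hp
        exact hy
    | succ j ih =>
      intro hj
      obtain ⟨V, hV1, hV2, hV3⟩ := ih (by omega)
      obtain ⟨X, hX⟩ : ∃ X, X = B.image (w ^ (j + 1)) := ⟨_, rfl⟩
      have hXc : #X = M * L := by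
        rw [hX, Finset.card_image_of_injective _ (w ^ (j + 1)).injective, hBc]
      have h1 : #(X \ V) + #(X ∩ V) = M * L := by
        rw [Finset.card_sdiff_add_card_inter, hXc]
      have h2 : M * L - #T ≤ #(X ∩ V) := by
        rw [← hTB]
        refine Finset.card_le_card fun p hp => Finset.mem_inter.2 ⟨?_, ?_⟩
        · rw [hX]; exact hBT _ hp
        · exact hV2 (Finset.sdiff_subset hp)
      have hVX : #(V ∩ X) = #(X ∩ V) := by rw [Finset.inter_comm]
      have h3 := hV1.join (by rw [hX]; exact z8 (j + 1) hj.le : Cov F _ X) (by omega) (by omega)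
      refine ⟨V ∪ X, h3.up ?_, hV2.trans Finset.subset_union_left, ?_⟩
      · have h8 : 1 ≤ 3 ^ j := Nat.one_le_pow _ _ (by norm_num)
        have := Nat.mul_le_mul_right (c₁ + 2 + 2 * (q * m)) h8
        rw [pow_succ, mul_comm (3 ^ j) 3, mul_assoc]
        omega
      · intro i hi
        rcases Nat.lt_or_ge i (j + 1) with h | h
        · exact (hV3 i (by omega)).trans Finset.subset_union_left
        · have : i = j + 1 := by omega
          rw [this, ← hX]
          exact Finset.subset_union_right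
  obtain ⟨V, hV1, hV2, hV3⟩ := z9 (q - 1) (by omega)
  have hVall : ∀ p, p ∉ A → p ∈ V := by
    intro p hp
    rcases P.th4 p with h | h | ⟨z, hz⟩
    · exact absurd ((hAm p).2 h) hp
    · exact hV2 ((hBm p).2 h)
    · refine hV3 z.1.val (by have := ZMod.val_lt z.1; omega) ?_
      rw [Finset.mem_image]
      obtain ⟨w', hw'⟩ := P.th3 z.2
      refine ⟨P.θ (0, z.2), (hBm _).2 ⟨w', hw'⟩, ?_⟩
      rw [hw, ← map_pow, rt_pow, ve_apply, rt_apply, hz]
      congr 1
      ext1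
      · simp only [zero_add]
        exact ZMod.natCast_zmod_val z.1
      · rfl
  obtain ⟨c₂, hc₂⟩ : ∃ c₂, c₂ = 3 ^ (q - 1) * (c₁ + 2 + 2 * (q * m)) := ⟨_, rfl⟩
  rw [← hc₂] at hV1
  have z10 := hV1.conj (F.inv ha)
  obtain ⟨X, hX⟩ : ∃ X, X = V.image (a⁻¹ : Perm Ω) := ⟨_, rfl⟩
  rw [← hX] at z10
  have hXc : #X = #V := by rw [hX, Finset.card_image_of_injective _ (a⁻¹).injective]
  have hVc : Fintype.card Ω ≤ #V + M * L := by
    rw [← hAc, ← Finset.card_univ]
    refine (Finset.card_le_card ?_).trans (Finset.card_union_le V A)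
    intro p _
    rw [Finset.mem_union]
    by_cases h : p ∈ A
    · exact Or.inr h
    · exact Or.inl (hVall p h)
  have h1 : #(X \ V) + #(X ∩ V) = #V := by
    rw [Finset.card_sdiff_add_card_inter, hXc]
  have h2 : #(X \ V) ≤ M * L := by
    rw [← hAc]
    refine Finset.card_le_card fun p hp => ?_
    by_contra h
    exact (Finset.mem_sdiff.1 hp).2 (hVall p h)
  have hVX : #(V ∩ X) = #(X ∩ V) := by rw [Finset.inter_comm]
  have h6 := P.th6
  have z11 := hV1.join z10 (by omega) (by omega)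
  refine (z11.sub ?_).up ?_
  · intro p _
    rw [Finset.mem_union]
    by_cases h : p ∈ A
    · right
      obtain ⟨z, hz⟩ := (hAm p).1 h
      rw [hX, Finset.mem_image]
      exact ⟨a p, hV2 ((hBm _).2 ⟨z, by rw [hz]⟩), inv_app a p⟩
    · exact Or.inl (hVall p h)
  · unfold Cp
    rw [← hm, ← hc₁]
    have h8 : 3 ^ (q - 1) * 3 ≤ 3 ^ (q + 1) := by
      rw [← pow_succ]
      exact Nat.pow_le_pow_right (by norm_num) (by omega)
    have h9 := Nat.mul_le_mul_right (c₁ + 2 + 2 * (q * m)) h8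
    have h10 : 3 ^ (q - 1) * 3 * (c₁ + 2 + 2 * (q * m)) = 3 * c₂ := by rw [hc₂]; ring
    omega

end

end

end Pool.Agent.K1H7.EP
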