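import Pool.Agent.K1H7.EP.Many
import Pool.Agent.K1H7.EP.Conv

/-!
The probability that a random tuple is expanding is at least `|A_n| ^ (-δ)`.
-/

namespace Pool.Agent.K1H7.EP
open Finset Equiv RC14

section
variable {n : ℕ}

/-- adding elements to an expanding tuple -/
lemma expanding_append {k j : ℕ} (hk : 1 ≤ k) (x : Fin k → Alt n) (y : Fin j → Alt n) (ε : ℝ)
    (h : Expanding ε x) : Expanding (ε * k / (k + j : ℕ)) (Fin.append x y) := by
  obtain ⟨h1, h2⟩ := h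
  have hk0 : (0 : ℝ) < k := by exact_mod_cast hk
  have hkj0 : (0 : ℝ) < (k + j : ℕ) := by exact_mod_cast (by omega : 0 < k + j)
  refine ⟨?_, fun f hf => ?_⟩
  · rw [← top_le_iff, ← h1]
    refine Subgroup.closure_mono ?_
    rintro _ ⟨i, rfl⟩
    exact ⟨Fin.castAdd j i, by simp⟩
  · have h3 := h2 f hf
    rw [FRLOW.walk_id hk] at h3
    rw [FRLOW.walk_id (by omega)]
    have h4 : En (RR n) x (FRLOW.cf f) ≤ En (RR n) (Fin.append x y) (FRLOW.cf f) := by
      unfold En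
      rw [Fin.sum_univ_add]
      simp only [Fin.append_left, Fin.append_right]
      have : 0 ≤ ∑ i, ‖RR n (y i) (FRLOW.cf f) - FRLOW.cf f‖ ^ 2 := by positivity
      linarith
    obtain ⟨A, hA⟩ : ∃ A : ℝ, A = ∑ g, f g ^ 2 := ⟨_, rfl⟩
    rw [← hA] at h3 ⊢
    have h5 : ε * A * (2 * k) ≤ En (RR n) x (FRLOW.cf f) := by
      have h6 : ε * A ≤ En (RR n) x (FRLOW.cf f) / (2 * k) := by linarith
      rwa [le_div_iff₀ (by positivity)] at h6
    have h6 : ε * k / (k + j : ℕ) * A ≤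
        En (RR n) (Fin.append x y) (FRLOW.cf f) / (2 * (k + j : ℕ)) := by
      rw [le_div_iff₀ (by positivity)]
      calc ε * k / (k + j : ℕ) * A * (2 * (k + j : ℕ)) = ε * A * (2 * k) := by field_simp
        _ ≤ _ := h5.trans h4
    linarith

/-- half of the elements move half of the points -/
lemma half_move (hn : 4 ≤ n) : (Fintype.card (Alt n) : ℝ) / 2 ≤
    (Nat.card {a : Alt n // (1 / 2 : ℝ) * n ≤ (#{i | (a : Perm (Fin n)) i ≠ i} : ℕ)} : ℝ) := by
  classical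
  have hn0 : (0 : ℝ) < n := by exact_mod_cast (by omega : 0 < n)
  -- fixed points
  have h1 : ∑ g : Alt n, (#{i | (g : Perm (Fin n))⁻¹ i = i} : ℝ) = Fintype.card (Alt n) := by
    have h2 : ∀ g : Alt n, (#{i | (g : Perm (Fin n))⁻¹ i = i} : ℝ) =
        ∑ i, if (g : Perm (Fin n))⁻¹ i = i then (1 : ℝ) else 0 := by
      intro g
      rw [Finset.card_filter]; push_cast; rfl
    rw [Finset.sum_congr rfl fun g _ => h2 g, Finset.sum_comm]
    have h3 : ∀ i : Fin n, ∑ g : Alt n, (if (g : Perm (Fin n))⁻¹ i = i then (1 : ℝ) else 0) =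
        Fintype.card (Alt n) / n := by
      intro i
      have := sum_orbit (by omega : 3 ≤ n) i (fun y => if y = i then (1 : ℝ) else 0)
      rw [Finset.sum_ite_eq' Finset.univ i] at this
      simp only [Finset.mem_univ, if_true, mul_one] at this
      rw [eq_div_iff hn0.ne', mul_comm]
      exact this
    rw [Finset.sum_congr rfl fun i _ => h3 i, Finset.sum_const, Finset.card_univ,
      Fintype.card_fin, nsmul_eq_mul, mul_div_cancel₀ _ hn0.ne']
  have h2 : ∀ g : Alt n, #{i | (g : Perm (Fin n))⁻¹ i = i} + #{i | (g : Perm (Fin n)) i ≠ i} =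
      n := by
    intro g
    have h3 : (Finset.univ.filter fun i => (g : Perm (Fin n))⁻¹ i = i) =
        Finset.univ.filter fun i => (g : Perm (Fin n)) i = i := by
      ext i
      rw [Finset.mem_filter, Finset.mem_filter, Perm.inv_eq_iff_eq]
      exact and_congr_right fun _ => eq_comm
    rw [h3, Finset.card_filter_add_card_filter_not, Finset.card_univ, Fintype.card_fin]
  obtain ⟨B, hB⟩ : ∃ B : Finset (Alt n), B = Finset.univ.filter (fun a : Alt n =>
    (1 / 2 : ℝ) * n ≤ (#{i | (a : Perm (Fin n)) i ≠ i} : ℕ)) := ⟨_, rfl⟩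
  have h3 : (Nat.card {a : Alt n // (1 / 2 : ℝ) * n ≤ (#{i | (a : Perm (Fin n)) i ≠ i} : ℕ)}) =
      #B := by
    rw [Nat.card_eq_fintype_card, Fintype.card_subtype, hB]
  rw [h3]
  have h4 : (n : ℝ) / 2 * (#(Bᶜ) : ℝ) ≤ Fintype.card (Alt n) := by
    rw [← h1, mul_comm, ← nsmul_eq_mul]
    refine le_trans ?_ (Finset.sum_le_sum_of_subset_of_nonneg (Finset.subset_univ (Bᶜ))
      (fun g _ _ => by positivity))
    refine Finset.card_nsmul_le_sum _ _ _ fun g hg => ?_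
    rw [Finset.mem_compl, hB, Finset.mem_filter] at hg
    push Not at hg
    have h5 := hg (Finset.mem_univ _)
    have h6 : ((#{i | (g : Perm (Fin n))⁻¹ i = i} : ℕ) : ℝ) +
        (#{i | (g : Perm (Fin n)) i ≠ i} : ℕ) = n := by exact_mod_cast h2 g
    linarith
  have h5 : (#(Bᶜ) : ℝ) + #B = Fintype.card (Alt n) := by
    have := Finset.card_compl_add_card B
    exact_mod_cast this
  have h6 : (2 : ℝ) * #(Bᶜ) ≤ Fintype.card (Alt n) := by
    have h7 : (2 : ℝ) ≤ n / 2 := by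
      have : (4 : ℝ) ≤ n := by exact_mod_cast hn
      linarith
    calc (2 : ℝ) * #(Bᶜ) ≤ n / 2 * #(Bᶜ) := mul_le_mul_of_nonneg_right h7 (by positivity)
      _ ≤ _ := h4
  linarith

theorem prob (k : ℕ) (hk : 2 ≤ k) (δ : ℝ) (hδ : 0 < δ) : ∃ ε : ℝ, 0 < ε ∧ ∃ n₀ : ℕ, ∀ n ≥ n₀,
    (Fintype.card (Alt n) : ℝ) ^ (-δ) ≤
      (Nat.card {x : Fin k → Alt n // Expanding ε x} : ℝ) / (Fintype.card (Alt n) : ℝ) ^ k := by
  classical
  obtain ⟨ε, hε, n₀, hn₀⟩ := pairs_many (1 / 2) (δ / 2) (by norm_num) (by positivity)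
  obtain ⟨j, rfl⟩ : ∃ j, k = 2 + j := ⟨k - 2, by omega⟩
  have hkj0 : (0 : ℝ) < (2 + j : ℕ) := by exact_mod_cast (by omega : 0 < 2 + j)
  obtain ⟨N, hN⟩ : ∃ N : ℕ, N = max (max n₀ 4) (⌈(2 : ℝ) ^ (2 / δ)⌉₊ + 4) := ⟨_, rfl⟩
  refine ⟨ε * (2 : ℕ) / (2 + j : ℕ), by positivity, N, fun n hn => ?_⟩
  have g1 : n₀ ≤ n := by rw [hN] at hn; exact ((le_max_left _ _).trans (le_max_left _ _)).trans hn
  have g2 : 4 ≤ n := by rw [hN] at hn; exact ((le_max_right _ _).trans (le_max_left _ _)).trans hn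
  have g3 : ⌈(2 : ℝ) ^ (2 / δ)⌉₊ + 4 ≤ n := by rw [hN] at hn; exact (le_max_right _ _).trans hn
  obtain ⟨A, hA⟩ : ∃ A : ℝ, A = Fintype.card (Alt n) := ⟨_, rfl⟩
  have hAn : (n : ℝ) ≤ A := by
    -- the orbit of a point
    have h1 : Fintype.card (Fin n) ≤ Fintype.card (Alt n) := by
      have x₀ : Fin n := ⟨0, by omega⟩
      refine Fintype.card_le_of_surjective (fun g : Alt n => (g : Perm (Fin n))⁻¹ x₀) ?_
      intro y
      by_contra hcon
      push Not at hcon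
      have h2 := sum_orbit (by omega : 3 ≤ n) x₀ (fun z => if z = y then (1 : ℝ) else 0)
      rw [Finset.sum_ite_eq' Finset.univ y] at h2
      simp only [Finset.mem_univ, if_true, mul_one] at h2
      have h3 : ∑ g : Alt n, (if (g : Perm (Fin n))⁻¹ x₀ = y then (1 : ℝ) else 0) = 0 :=
        Finset.sum_eq_zero fun g _ => if_neg (hcon g)
      rw [h3, mul_zero] at h2
      have h4 : (0 : ℝ) < Fintype.card (Alt n) := by
        exact_mod_cast (Fintype.card_pos (α := Alt n))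
      linarith
    rw [Fintype.card_fin] at h1
    rw [hA]; exact_mod_cast h1
  have hA0 : 0 < A := lt_of_lt_of_le (by exact_mod_cast (by omega : 0 < n)) hAn
  have h2A : 2 ≤ A ^ (δ / 2) := by
    have h1 : (2 : ℝ) ^ (2 / δ) ≤ A := by
      refine (Nat.le_ceil _).trans (le_trans ?_ hAn)
      exact_mod_cast (by omega : ⌈(2 : ℝ) ^ (2 / δ)⌉₊ ≤ n)
    calc (2 : ℝ) = ((2 : ℝ) ^ (2 / δ)) ^ (δ / 2) := by
          rw [← Real.rpow_mul (by norm_num)]
          have : 2 / δ * (δ / 2) = 1 := by field_simp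
          rw [this, Real.rpow_one]
      _ ≤ A ^ (δ / 2) := Real.rpow_le_rpow (by positivity) h1 (by positivity)
  -- an injection
  obtain ⟨P, hP⟩ : ∃ P : Alt n → Prop,
    P = fun a : Alt n => (1 / 2 : ℝ) * n ≤ (#{i | (a : Perm (Fin n)) i ≠ i} : ℕ) := ⟨_, rfl⟩
  have hPc : A / 2 ≤ Nat.card {a : Alt n // P a} := by
    rw [hA, hP]; exact half_move g2
  have hPm : ∀ a, P a → A ^ (1 - δ / 2) ≤ Nat.card {b : Alt n // Expanding ε ![a, b]} := by
    intro a ha
    rw [hA]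
    rw [hP] at ha
    exact hn₀ n g1 a ha
  obtain ⟨Φ, hΦ⟩ : ∃ Φ : (Σ a : {a : Alt n // P a}, {b : Alt n // Expanding ε ![a.1, b]}) ×
      (Fin j → Alt n) → {x : Fin (2 + j) → Alt n // Expanding (ε * (2 : ℕ) / (2 + j : ℕ)) x},
      Φ = fun p => ⟨Fin.append ![p.1.1.1, p.1.2.1] p.2,
        expanding_append (by norm_num) _ _ ε p.1.2.2⟩ := ⟨_, rfl⟩
  have hinj : Function.Injective Φ := by
    rintro ⟨⟨⟨a, ha⟩, ⟨b, hb⟩⟩, y⟩ ⟨⟨⟨a', ha'⟩, ⟨b', hb'⟩⟩, y'⟩ h
    rw [hΦ] at h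
    have h1 : Fin.append ![a, b] y = Fin.append ![a', b'] y' := congrArg Subtype.val h
    have e1 := congrFun h1 (Fin.castAdd j 0)
    have e2 := congrFun h1 (Fin.castAdd j 1)
    rw [Fin.append_left, Fin.append_left] at e1 e2
    have e1' : a = a' := e1
    have e2' : b = b' := e2
    have e3 : y = y' := by
      ext1 i
      have := congrFun h1 (Fin.natAdd 2 i)
      rwa [Fin.append_right, Fin.append_right] at this
    subst e1' e2' e3
    rfl
  have h1 := Nat.card_le_card_of_injective Φ hinj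
  rw [Nat.card_prod, Nat.card_sigma] at h1
  have h2 : (Nat.card (Fin j → Alt n) : ℝ) = A ^ j := by
    rw [Nat.card_eq_fintype_card, Fintype.card_fun, Fintype.card_fin, hA]; push_cast; rfl
  have h3 : A / 2 * A ^ (1 - δ / 2) ≤
      ((∑ a : {a : Alt n // P a}, Nat.card {b : Alt n // Expanding ε ![a.1, b]} : ℕ) : ℝ) := by
    push_cast
    calc A / 2 * A ^ (1 - δ / 2) ≤ Nat.card {a : Alt n // P a} * A ^ (1 - δ / 2) :=
          mul_le_mul_of_nonneg_right hPc (by positivity)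
      _ = ∑ a : {a : Alt n // P a}, A ^ (1 - δ / 2) := by
          rw [Finset.sum_const, Finset.card_univ, nsmul_eq_mul, Nat.card_eq_fintype_card]
      _ ≤ _ := Finset.sum_le_sum fun a _ => hPm a.1 a.2
  have h4 : A / 2 * A ^ (1 - δ / 2) * A ^ j ≤
      (Nat.card {x : Fin (2 + j) → Alt n // Expanding (ε * (2 : ℕ) / (2 + j : ℕ)) x} : ℝ) := by
    calc A / 2 * A ^ (1 - δ / 2) * A ^ j ≤ _ := mul_le_mul_of_nonneg_right h3 (by positivity)
      _ ≤ _ := by
        rw [← h2]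
        exact_mod_cast h1
  have h5 : A ^ (-δ) * A ^ (2 + j) ≤ A / 2 * A ^ (1 - δ / 2) * A ^ j := by
    have e1 : A ^ (-δ) * A ^ (2 + j) = A ^ (2 - δ) * A ^ j := by
      rw [pow_add, ← mul_assoc]
      congr 1
      rw [← Real.rpow_natCast A 2, ← Real.rpow_add hA0]
      congr 1; push_cast; ring
    have e2 : A / 2 * A ^ (1 - δ / 2) = A ^ (2 - δ) * (A ^ (δ / 2) / 2) := by
      have e3 : A ^ (2 - δ) * A ^ (δ / 2) = A * A ^ (1 - δ / 2) := by
        nth_rewrite 3 [← Real.rpow_one A]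
        rw [← Real.rpow_add hA0, ← Real.rpow_add hA0]
        congr 1; ring
      calc A / 2 * A ^ (1 - δ / 2) = (A * A ^ (1 - δ / 2)) / 2 := by ring
        _ = (A ^ (2 - δ) * A ^ (δ / 2)) / 2 := by rw [e3]
        _ = _ := by ring
    rw [e1, e2]
    refine mul_le_mul_of_nonneg_right ?_ (by positivity)
    have : (1 : ℝ) ≤ A ^ (δ / 2) / 2 := by linarith
    calc A ^ (2 - δ) = A ^ (2 - δ) * 1 := (mul_one _).symm
      _ ≤ _ := mul_le_mul_of_nonneg_left this (by positivity)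
  rw [← hA, le_div_iff₀ (by positivity)]
  exact h5.trans h4

end

end Pool.Agent.K1H7.EP
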