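import Pool.Agent.K1H7.EP.Spec

/-!
The relative property (T) of `EL_2(R) ⋉ R²` with respect to `R²`, for a finite commutative ring of
characteristic two which is generated by three elements, in quantitative form.
-/

namespace Pool.Agent.K1H7.EP
open Finset
open scoped InnerProductSpace ComplexConjugate

set_option linter.unusedSectionVars false

noncomputable section

/-- translations by `R²` and elementary matrices inside a group -/
structure RData (R G : Type*) [CommRing R] [Group G] where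
  /-- the translations -/
  τ : R × R → G
  /-- the upper elementary matrices -/
  e : R → G
  /-- the lower elementary matrices -/
  e' : R → G
  τ_add : ∀ u v, τ (u + v) = τ u * τ v
  he : ∀ t x y, e t * τ (x, y) = τ (x + t * y, y) * e t
  he' : ∀ t x y, e' t * τ (x, y) = τ (x, y + t * x) * e' t

/-- the upper shear -/
def shU {R : Type*} [CommRing R] (t : R) : R × R ≃+ R × R where
  toFun u := (u.1 + t * u.2, u.2)
  invFun u := (u.1 - t * u.2, u.2)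
  left_inv u := by ext <;> simp
  right_inv u := by ext <;> simp
  map_add' u v := by ext <;> simp; ring

/-- the lower shear -/
def shL {R : Type*} [CommRing R] (t : R) : R × R ≃+ R × R where
  toFun u := (u.1, u.2 + t * u.1)
  invFun u := (u.1, u.2 - t * u.1)
  left_inv u := by ext <;> simp
  right_inv u := by ext <;> simp
  map_add' u v := by ext <;> simp; ring

/-- the combinatorial step -/
lemma step_arith {Ξ : Type*} (μ : (Ξ → Prop) → ℝ)
    (hmono : ∀ P Q : Ξ → Prop, (∀ χ, P χ → Q χ) → μ P ≤ μ Q)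
    (hor : ∀ P Q : Ξ → Prop, μ (fun χ => P χ ∨ Q χ) ≤ μ P + μ Q)
    (hadd : ∀ P Q : Ξ → Prop, (∀ χ, P χ → ¬ Q χ) → μ (fun χ => P χ ∨ Q χ) = μ P + μ Q)
    (P Q : ℕ → Ξ → Prop) (η : ℝ)
    (h1 : μ (fun χ => ((∃ j, ¬ P j χ ∧ Q j χ) ∨ ((∀ j, P j χ ↔ Q j χ) ∧ ∃ j, ¬ P j χ)) ∧
      P 1 χ ∧ Q 1 χ) ≤ μ (fun χ => ∃ j, ¬ Q j χ ∧ P j χ) + 2 * η)
    (h2 : μ (fun χ => ((∃ j, ¬ Q j χ ∧ P j χ) ∨ ((∀ j, Q j χ ↔ P j χ) ∧ ∃ j, ¬ Q j χ)) ∧
      Q 1 χ ∧ P 1 χ) ≤ μ (fun χ => ∃ j, ¬ P j χ ∧ Q j χ) + 2 * η)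
    (h3 : μ (fun χ => ∃ j, ¬ P j χ ∧ Q j χ) ≤
      μ (fun χ => (∀ j, P j χ ↔ Q j χ) ∧ ∃ j, ¬ P j χ) + 2 * η)
    (h4 : μ (fun χ => ∃ j, ¬ Q j χ ∧ P j χ) ≤
      μ (fun χ => (∀ j, P j χ ↔ Q j χ) ∧ ∃ j, ¬ P j χ) + 2 * η) :
    μ (fun χ => ¬ ∀ j, P j χ ∧ Q j χ) ≤ 3 * μ (fun χ => ¬ (P 1 χ ∧ Q 1 χ)) + 10 * η := by
  set A : Ξ → Prop := fun χ => ∃ j, ¬ P j χ ∧ Q j χ with hA
  set C : Ξ → Prop := fun χ => ∃ j, ¬ Q j χ ∧ P j χ with hC
  set B : Ξ → Prop := fun χ => (∀ j, P j χ ↔ Q j χ) ∧ ∃ j, ¬ P j χ with hB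
  set N : Ξ → Prop := fun χ => ¬ (P 1 χ ∧ Q 1 χ) with hN
  have hAB : μ A + μ B ≤ μ C + 2 * η + μ N := by
    have e1 : μ (fun χ => A χ ∨ B χ) = μ A + μ B := by
      refine hadd A B ?_
      rintro χ ⟨j, hj1, hj2⟩ ⟨hB1, _⟩
      exact hj1 ((hB1 j).2 hj2)
    rw [← e1]
    calc μ (fun χ => A χ ∨ B χ) ≤ μ (fun χ => ((A χ ∨ B χ) ∧ P 1 χ ∧ Q 1 χ) ∨ N χ) := by
          refine hmono _ _ ?_
          intro χ hχ
          by_cases hn : P 1 χ ∧ Q 1 χ
          · exact Or.inl ⟨hχ, hn⟩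
          · exact Or.inr hn
      _ ≤ μ (fun χ => (A χ ∨ B χ) ∧ P 1 χ ∧ Q 1 χ) + μ N := hor _ _
      _ ≤ _ := by
        have : μ (fun χ => (A χ ∨ B χ) ∧ P 1 χ ∧ Q 1 χ) ≤ μ C + 2 * η := h1
        linarith
  have hCB : μ C + μ B ≤ μ A + 2 * η + μ N := by
    have e1 : μ (fun χ => C χ ∨ B χ) = μ C + μ B := by
      refine hadd C B ?_
      rintro χ ⟨j, hj1, hj2⟩ ⟨hB1, _⟩
      exact hj1 ((hB1 j).1 hj2)
    rw [← e1]
    calc μ (fun χ => C χ ∨ B χ) ≤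
        μ (fun χ => ((C χ ∨ ((∀ j, Q j χ ↔ P j χ) ∧ ∃ j, ¬ Q j χ)) ∧ Q 1 χ ∧ P 1 χ) ∨ N χ) := by
          refine hmono _ _ ?_
          intro χ hχ
          by_cases hn : P 1 χ ∧ Q 1 χ
          · refine Or.inl ⟨?_, hn.2, hn.1⟩
            rcases hχ with h | ⟨h5, j, h6⟩
            · exact Or.inl h
            · exact Or.inr ⟨fun j => (h5 j).symm, j, fun h7 => h6 ((h5 j).2 h7)⟩
          · exact Or.inr hn
      _ ≤ μ (fun χ => (C χ ∨ ((∀ j, Q j χ ↔ P j χ) ∧ ∃ j, ¬ Q j χ)) ∧ Q 1 χ ∧ P 1 χ) + μ N :=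
          hor _ _
      _ ≤ _ := by
        have : μ (fun χ => (C χ ∨ ((∀ j, Q j χ ↔ P j χ) ∧ ∃ j, ¬ Q j χ)) ∧ Q 1 χ ∧ P 1 χ) ≤
            μ A + 2 * η := h2
        linarith
  have hall : μ (fun χ => ¬ ∀ j, P j χ ∧ Q j χ) ≤ μ A + μ C + μ B := by
    calc μ (fun χ => ¬ ∀ j, P j χ ∧ Q j χ) ≤ μ (fun χ => (A χ ∨ C χ) ∨ B χ) := by
          refine hmono _ _ ?_
          intro χ hχ
          by_cases hA' : A χ
          · exact Or.inl (Or.inl hA')
          by_cases hC' : C χ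
          · exact Or.inl (Or.inr hC')
          right
          have h5 : ∀ j, P j χ ↔ Q j χ := by
            intro j
            constructor
            · intro h
              by_contra h6
              exact hC' ⟨j, h6, h⟩
            · intro h
              by_contra h6
              exact hA' ⟨j, h6, h⟩
          refine ⟨h5, ?_⟩
          push Not at hχ
          obtain ⟨j, hj⟩ := hχ
          refine ⟨j, fun h => hj h ((h5 j).1 h)⟩
      _ ≤ μ (fun χ => A χ ∨ C χ) + μ B := hor _ _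
      _ ≤ _ := by linarith [hor A C]
  have h3' : μ A ≤ μ B + 2 * η := h3
  have h4' : μ C ≤ μ B + 2 * η := h4
  linarith

section
variable {R : Type} [CommRing R] [Fintype R]
variable {G : Type*} [Group G]
variable {V : Type*} [NormedAddCommGroup V] [InnerProductSpace ℂ V]

/-- the first component of the character is trivial on `t^i M`, `i < j` -/
def Tr1 (t : R) (M : Set R) (j : ℕ) (χ : AddChar (R × R) ℂ) : Prop :=
  ∀ i < j, ∀ r ∈ M, χ (t ^ i * r, 0) = 1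

/-- the second component of the character is trivial on `t^i M`, `i < j` -/
def Tr2 (t : R) (M : Set R) (j : ℕ) (χ : AddChar (R × R) ℂ) : Prop :=
  ∀ i < j, ∀ r ∈ M, χ (0, t ^ i * r) = 1

lemma Tr1_mono (t : R) (M : Set R) (i j : ℕ) (χ : AddChar (R × R) ℂ) (h : i ≤ j)
    (hj : Tr1 t M j χ) : Tr1 t M i χ := fun k hk r hr => hj k (lt_of_lt_of_le hk h) r hr

lemma Tr2_mono (t : R) (M : Set R) (i j : ℕ) (χ : AddChar (R × R) ℂ) (h : i ≤ j)
    (hj : Tr2 t M j χ) : Tr2 t M i χ := fun k hk r hr => hj k (lt_of_lt_of_le hk h) r hr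

lemma comp_U (t : R) (χ : AddChar (R × R) ℂ) (x y : R) :
    (χ.compAddMonoidHom (shU t).toAddMonoidHom) (x, y) = χ (x + t * y, y) := rfl

lemma comp_L (t : R) (χ : AddChar (R × R) ℂ) (x y : R) :
    (χ.compAddMonoidHom (shL t).toAddMonoidHom) (x, y) = χ (x, y + t * x) := rfl

lemma chi_split (χ : AddChar (R × R) ℂ) (x y : R) : χ (x, y) = χ (x, 0) * χ (0, y) := by
  rw [← AddChar.map_add_eq_mul]; simp

/-- the last level at which a family of conditions holds -/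
lemma last_level (P : ℕ → Prop) (h1 : P 1) (hj : ∃ j, ¬ P j)
    (hP : ∀ i j, i ≤ j → P j → P i) : ∃ j, P (j + 1) ∧ ¬ P (j + 2) := by
  classical
  have h2 := Nat.find_spec hj
  have h3 : ∀ m, m < Nat.find hj → P m := fun m hm => by
    by_contra h
    exact Nat.find_min hj hm h
  obtain ⟨k, hk⟩ : ∃ k, k = Nat.find hj := ⟨_, rfl⟩
  rw [← hk] at h2 h3
  have h4 : 2 ≤ k := by
    by_contra h
    have : k ≤ 1 := by omega
    exact h2 (hP k 1 this h1)
  refine ⟨k - 2, h3 _ (by omega), ?_⟩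
  have : k - 2 + 2 = k := by omega
  rw [this]
  exact h2

/-- the shear by `t` turns `v(φ) ≤ v(ψ)` into `v(φ) > v(ψ)` -/
lemma push_t1 (t : R) (M : Set R) (χ : AddChar (R × R) ℂ)
    (h : (∃ j, ¬ Tr1 t M j χ ∧ Tr2 t M j χ) ∨ ((∀ j, Tr1 t M j χ ↔ Tr2 t M j χ) ∧
      ∃ j, ¬ Tr1 t M j χ)) (h1 : Tr1 t M 1 χ) :
    ∃ j, ¬ Tr2 t M j (χ.compAddMonoidHom (shU t).toAddMonoidHom) ∧
      Tr1 t M j (χ.compAddMonoidHom (shU t).toAddMonoidHom) := by
  have hex : ∃ j, ¬ Tr1 t M j χ := by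
    rcases h with ⟨j, hj, _⟩ | ⟨_, h⟩
    · exact ⟨j, hj⟩
    · exact h
  obtain ⟨j, hj1, hj2⟩ := last_level (fun j => Tr1 t M j χ) h1 hex
    (fun i j hij h => Tr1_mono t M i j χ hij h)
  have hQ : Tr2 t M (j + 1) χ := by
    rcases h with ⟨k, hk1, hk2⟩ | ⟨h, _⟩
    · have : j + 1 ≤ k := by
        by_contra hlt
        exact hk1 (Tr1_mono t M k (j + 1) χ (by omega) hj1)
      exact Tr2_mono t M _ _ χ this hk2
    · exact (h _).1 hj1
  refine ⟨j + 1, ?_, ?_⟩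
  · intro hcon
    apply hj2
    intro i hi r hr
    rcases Nat.lt_or_ge i (j + 1) with h5 | h5
    · exact hj1 i h5 r hr
    · have : i = j + 1 := by omega
      subst this
      have h6 := hcon j (by omega) r hr
      rw [comp_U, chi_split, zero_add, hQ j (by omega) r hr, mul_one, ← mul_assoc,
        ← pow_succ'] at h6
      exact h6
  · intro i hi r hr
    rw [comp_U, mul_zero, add_zero]
    exact hj1 i hi r hr

lemma push_t2 (t : R) (M : Set R) (χ : AddChar (R × R) ℂ)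
    (h : (∃ j, ¬ Tr2 t M j χ ∧ Tr1 t M j χ) ∨ ((∀ j, Tr2 t M j χ ↔ Tr1 t M j χ) ∧
      ∃ j, ¬ Tr2 t M j χ)) (h1 : Tr2 t M 1 χ) :
    ∃ j, ¬ Tr1 t M j (χ.compAddMonoidHom (shL t).toAddMonoidHom) ∧
      Tr2 t M j (χ.compAddMonoidHom (shL t).toAddMonoidHom) := by
  have hex : ∃ j, ¬ Tr2 t M j χ := by
    rcases h with ⟨j, hj, _⟩ | ⟨_, h⟩
    · exact ⟨j, hj⟩
    · exact h
  obtain ⟨j, hj1, hj2⟩ := last_level (fun j => Tr2 t M j χ) h1 hex
    (fun i j hij h => Tr2_mono t M i j χ hij h)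
  have hQ : Tr1 t M (j + 1) χ := by
    rcases h with ⟨k, hk1, hk2⟩ | ⟨h, _⟩
    · have : j + 1 ≤ k := by
        by_contra hlt
        exact hk1 (Tr2_mono t M k (j + 1) χ (by omega) hj1)
      exact Tr1_mono t M _ _ χ this hk2
    · exact (h _).1 hj1
  refine ⟨j + 1, ?_, ?_⟩
  · intro hcon
    apply hj2
    intro i hi r hr
    rcases Nat.lt_or_ge i (j + 1) with h5 | h5
    · exact hj1 i h5 r hr
    · have : i = j + 1 := by omega
      subst this
      have h6 := hcon j (by omega) r hr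
      rw [comp_L, chi_split, zero_add, hQ j (by omega) r hr, one_mul, ← mul_assoc,
        ← pow_succ'] at h6
      exact h6
  · intro i hi r hr
    rw [comp_L, mul_zero, add_zero]
    exact hj1 i hi r hr

/-- the shear by `1` turns `v(φ) < v(ψ)` into `v(φ) = v(ψ)` -/
lemma push_one1 (t : R) (M : Set R) (χ : AddChar (R × R) ℂ)
    (h : ∃ j, ¬ Tr1 t M j χ ∧ Tr2 t M j χ) :
    (∀ j, Tr1 t M j (χ.compAddMonoidHom (shU 1).toAddMonoidHom) ↔
      Tr2 t M j (χ.compAddMonoidHom (shU 1).toAddMonoidHom)) ∧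
      ∃ j, ¬ Tr1 t M j (χ.compAddMonoidHom (shU 1).toAddMonoidHom) := by
  obtain ⟨k, hk1, hk2⟩ := h
  have e1 : ∀ j, Tr1 t M j (χ.compAddMonoidHom (shU 1).toAddMonoidHom) ↔ Tr1 t M j χ := by
    intro j
    unfold Tr1
    simp only [comp_U, mul_zero, add_zero]
  have e2 : ∀ j ≤ k, (Tr2 t M j (χ.compAddMonoidHom (shU 1).toAddMonoidHom) ↔ Tr1 t M j χ) := by
    intro j hj
    unfold Tr2 Tr1
    refine forall_congr' fun i => ?_
    refine imp_congr_right fun hi => ?_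
    refine forall_congr' fun r => ?_
    refine imp_congr_right fun hr => ?_
    rw [comp_U, chi_split, zero_add, one_mul, hk2 i (by omega) r hr, mul_one]
  have e3 : ∀ j, k < j → ¬ Tr2 t M j (χ.compAddMonoidHom (shU 1).toAddMonoidHom) := by
    intro j hj hcon
    exact hk1 ((e2 k le_rfl).1 (Tr2_mono t M k j _ hj.le hcon))
  constructor
  · intro j
    rw [e1]
    rcases le_or_gt j k with hj | hj
    · exact (e2 j hj).symm
    · constructor
      · intro h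
        exact absurd (Tr1_mono t M k j χ hj.le h) hk1
      · intro h
        exact absurd h (e3 j hj)
  · exact ⟨k, fun h => hk1 ((e1 k).1 h)⟩

lemma push_one2 (t : R) (M : Set R) (χ : AddChar (R × R) ℂ)
    (h : ∃ j, ¬ Tr2 t M j χ ∧ Tr1 t M j χ) :
    (∀ j, Tr1 t M j (χ.compAddMonoidHom (shL 1).toAddMonoidHom) ↔
      Tr2 t M j (χ.compAddMonoidHom (shL 1).toAddMonoidHom)) ∧
      ∃ j, ¬ Tr1 t M j (χ.compAddMonoidHom (shL 1).toAddMonoidHom) := by
  obtain ⟨k, hk1, hk2⟩ := h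
  have e1 : ∀ j, Tr2 t M j (χ.compAddMonoidHom (shL 1).toAddMonoidHom) ↔ Tr2 t M j χ := by
    intro j
    unfold Tr2
    simp only [comp_L, mul_zero, add_zero]
  have e2 : ∀ j ≤ k, (Tr1 t M j (χ.compAddMonoidHom (shL 1).toAddMonoidHom) ↔ Tr2 t M j χ) := by
    intro j hj
    unfold Tr2 Tr1
    refine forall_congr' fun i => ?_
    refine imp_congr_right fun hi => ?_
    refine forall_congr' fun r => ?_
    refine imp_congr_right fun hr => ?_
    rw [comp_L, chi_split, zero_add, one_mul, hk2 i (by omega) r hr, one_mul]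
  have e3 : ∀ j, k < j → ¬ Tr1 t M j (χ.compAddMonoidHom (shL 1).toAddMonoidHom) := by
    intro j hj hcon
    exact hk1 ((e2 k le_rfl).1 (Tr1_mono t M k j _ hj.le hcon))
  constructor
  · intro j
    rw [e1]
    rcases le_or_gt j k with hj | hj
    · exact e2 j hj
    · constructor
      · intro h
        exact absurd h (e3 j hj)
      · intro h
        exact absurd (Tr2_mono t M k j χ hj.le h) hk1
  · exact ⟨k, fun h => hk1 ((e2 k le_rfl).1 h)⟩

variable (ρ : G →* (V ≃ₗᵢ[ℂ] V)) (D : RData R G)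

/-- one variable -/
lemma rel_step (t : R) (M : Set R) (v : V) (hv : ‖v‖ = 1) (η : ℝ)
    (h1 : ‖ρ (D.e t) v - v‖ ≤ η) (h2 : ‖ρ (D.e' t) v - v‖ ≤ η)
    (h3 : ‖ρ (D.e 1) v - v‖ ≤ η) (h4 : ‖ρ (D.e' 1) v - v‖ ≤ η) :
    mu ρ D.τ v (fun χ => ¬ ∀ j, Tr1 t M j χ ∧ Tr2 t M j χ) ≤
      3 * mu ρ D.τ v (fun χ => ¬ (Tr1 t M 1 χ ∧ Tr2 t M 1 χ)) + 10 * η := by
  have hU : ∀ s, ∀ a, D.e s * D.τ a = D.τ (shU s a) * D.e s := by
    rintro s ⟨x, y⟩
    exact D.he s x y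
  have hL : ∀ s, ∀ a, D.e' s * D.τ a = D.τ (shL s a) * D.e' s := by
    rintro s ⟨x, y⟩
    exact D.he' s x y
  refine step_arith (mu ρ D.τ v) (mu_mono ρ D.τ v) (mu_or ρ D.τ v) ?_ _ _ η ?_ ?_ ?_ ?_
  · classical
    intro P Q hPQ
    unfold mu
    rw [← Finset.sum_union]
    · congr 1
      ext χ
      simp
    · rw [Finset.disjoint_left]
      intro χ hχ hχ'
      simp only [Finset.mem_filter, Finset.mem_univ, true_and] at hχ hχ'
      exact hPQ χ hχ hχ'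
  · exact mu_push ρ D.τ (D.e t) (shU t) (hU t) v _ _
      (fun χ hχ => push_t1 t M χ hχ.1 hχ.2.1) η hv h1
  · exact mu_push ρ D.τ (D.e' t) (shL t) (hL t) v _ _
      (fun χ hχ => push_t2 t M χ hχ.1 hχ.2.1) η hv h2
  · exact mu_push ρ D.τ (D.e 1) (shU 1) (hU 1) v _ _
      (fun χ hχ => push_one1 t M χ hχ) η hv h3
  · exact mu_push ρ D.τ (D.e' 1) (shL 1) (hL 1) v _ _
      (fun χ hχ => push_one2 t M χ hχ) η hv h4

/-- values of characters in characteristic two -/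
lemma chi_val (h2 : (1 : R) + 1 = 0) (χ : AddChar (R × R) ℂ) (u : R × R) :
    χ u = 1 ∨ χ u = -1 := by
  have h3 : χ u * χ u = 1 := by
    rw [← AddChar.map_add_eq_mul]
    have : u + u = 0 := by
      have h4 : ∀ x : R, x + x = 0 := fun x => by
        have := congrArg (fun z => z * x) h2
        simp only [add_mul, one_mul, zero_mul] at this
        exact this
      ext
      · exact h4 u.1
      · exact h4 u.2
    rw [this, AddChar.map_zero_eq_one]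
  exact mul_self_eq_one_iff.1 h3

/-- the base of the induction -/
lemma rel_base (h2 : (1 : R) + 1 = 0) (v : V) (η : ℝ)
    (h3 : ‖ρ (D.τ (1, 0)) v - v‖ ≤ η) (h4 : ‖ρ (D.τ (0, 1)) v - v‖ ≤ η) :
    mu ρ D.τ v (fun χ => ¬ (χ (1, 0) = 1 ∧ χ (0, 1) = 1)) ≤ η ^ 2 / 2 := by
  have key : ∀ u : R × R, ‖ρ (D.τ u) v - v‖ ≤ η →
      mu ρ D.τ v (fun χ => ¬ χ u = 1) ≤ η ^ 2 / 4 := by
    classical
    intro u hu
    have h5 := disp_formula ρ D.τ D.τ_add u v
    have h6 : ‖ρ (D.τ u) v - v‖ ^ 2 ≤ η ^ 2 := pow_le_pow_left₀ (norm_nonneg _) hu 2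
    have h7 : 4 * mu ρ D.τ v (fun χ => ¬ χ u = 1) ≤
        ∑ χ : AddChar (R × R) ℂ, ‖χ u - 1‖ ^ 2 * ‖Es ρ D.τ χ v‖ ^ 2 := by
      unfold mu
      rw [Finset.mul_sum]
      have h10 : ∑ χ : AddChar (R × R) ℂ with ¬ χ u = 1, ‖χ u - 1‖ ^ 2 * ‖Es ρ D.τ χ v‖ ^ 2 ≤
          ∑ χ : AddChar (R × R) ℂ, ‖χ u - 1‖ ^ 2 * ‖Es ρ D.τ χ v‖ ^ 2 :=
        Finset.sum_le_sum_of_subset_of_nonneg (Finset.filter_subset _ _)
          fun _ _ _ => by positivity
      have h11 : ∑ χ : AddChar (R × R) ℂ with ¬ χ u = 1, 4 * ‖Es ρ D.τ χ v‖ ^ 2 ≤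
          ∑ χ : AddChar (R × R) ℂ with ¬ χ u = 1, ‖χ u - 1‖ ^ 2 * ‖Es ρ D.τ χ v‖ ^ 2 := by
        refine Finset.sum_le_sum fun χ hχ => ?_
        simp only [Finset.mem_filter, Finset.mem_univ, true_and] at hχ
        have h8 : χ u = -1 := (chi_val h2 χ u).resolve_left hχ
        rw [h8]
        have h9 : ‖(-1 : ℂ) - 1‖ = 2 := by norm_num
        rw [h9]
        norm_num
      refine le_trans (le_of_eq ?_) (h11.trans h10)
      exact Finset.sum_congr (by ext; simp) fun _ _ => rfl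
    linarith
  calc mu ρ D.τ v (fun χ => ¬ (χ (1, 0) = 1 ∧ χ (0, 1) = 1)) ≤
      mu ρ D.τ v (fun χ => ¬ χ (1, 0) = 1 ∨ ¬ χ (0, 1) = 1) := by
        refine mu_mono ρ D.τ v _ _ fun χ h => ?_
        rwa [not_and_or] at h
    _ ≤ _ := mu_or ρ D.τ v _ _
    _ ≤ η ^ 2 / 4 + η ^ 2 / 4 := add_le_add (key _ h3) (key _ h4)
    _ = η ^ 2 / 2 := by ring

/-- a character which is trivial on a set of additive generators is trivial -/
lemma chi_triv (S : Set R) (hS : AddSubgroup.closure S = ⊤) (χ : AddChar (R × R) ℂ)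
    (h1 : ∀ r ∈ S, χ (r, 0) = 1) (h2 : ∀ r ∈ S, χ (0, r) = 1) (u : R × R) : χ u = 1 := by
  have k1 : ∀ x : R, χ (x, 0) = 1 := by
    intro x
    have hx : x ∈ AddSubgroup.closure S := by rw [hS]; trivial
    refine AddSubgroup.closure_induction (p := fun x _ => χ (x, 0) = 1) h1 ?_ ?_ ?_ hx
    · exact AddChar.map_zero_eq_one χ
    · intro a b _ _ ha hb
      have : ((a + b, 0) : R × R) = (a, 0) + (b, 0) := by simp
      rw [this, AddChar.map_add_eq_mul, ha, hb, one_mul]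
    · intro a _ ha
      have : ((-a, 0) : R × R) = -(a, 0) := by simp
      rw [this, AddChar.map_neg_eq_inv, ha, inv_one]
  have k2 : ∀ x : R, χ (0, x) = 1 := by
    intro x
    have hx : x ∈ AddSubgroup.closure S := by rw [hS]; trivial
    refine AddSubgroup.closure_induction (p := fun x _ => χ (0, x) = 1) h2 ?_ ?_ ?_ hx
    · exact AddChar.map_zero_eq_one χ
    · intro a b _ _ ha hb
      have : ((0, a + b) : R × R) = (0, a) + (0, b) := by simp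
      rw [this, AddChar.map_add_eq_mul, ha, hb, one_mul]
    · intro a _ ha
      have : ((0, -a) : R × R) = -(0, a) := by simp
      rw [this, AddChar.map_neg_eq_inv, ha, inv_one]
  rw [show u = (u.1, u.2) from rfl, chi_split, k1, k2, one_mul]

/-- **relative property (T)** -/
theorem relT (h2 : (1 : R) + 1 = 0) (t : Fin 3 → R)
    (hgen : AddSubgroup.closure {r : R | ∃ i j k : ℕ, r = t 2 ^ k * (t 1 ^ j * (t 0 ^ i * 1))} = ⊤)
    (v : V) (hv : ‖v‖ = 1) (η : ℝ) (hη : η ≤ 1)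
    (h3 : ‖ρ (D.τ (1, 0)) v - v‖ ≤ η) (h4 : ‖ρ (D.τ (0, 1)) v - v‖ ≤ η)
    (h5 : ‖ρ (D.e 1) v - v‖ ≤ η) (h6 : ‖ρ (D.e' 1) v - v‖ ≤ η)
    (h7 : ∀ i, ‖ρ (D.e (t i)) v - v‖ ≤ η) (h8 : ∀ i, ‖ρ (D.e' (t i)) v - v‖ ≤ η) (u : R × R) :
    ‖ρ (D.τ u) v - v‖ ^ 2 ≤ 600 * η := by
  classical
  have hη0 : 0 ≤ η := (norm_nonneg _).trans h3
  set M0 : Set R := {1} with hM0
  set M1 : Set R := {r | ∃ i : ℕ, ∃ m ∈ M0, r = t 0 ^ i * m} with hM1
  set M2 : Set R := {r | ∃ i : ℕ, ∃ m ∈ M1, r = t 1 ^ i * m} with hM2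
  set M3 : Set R := {r | ∃ i : ℕ, ∃ m ∈ M2, r = t 2 ^ i * m} with hM3
  let Z : Set R → ℝ := fun M =>
    mu ρ D.τ v (fun χ => ¬ ((∀ r ∈ M, χ (r, 0) = 1) ∧ (∀ r ∈ M, χ (0, r) = 1)))
  have step : ∀ (i : Fin 3) (M : Set R),
      Z {r | ∃ l : ℕ, ∃ m ∈ M, r = t i ^ l * m} ≤ 3 * Z M + 10 * η := by
    intro i M
    have h := rel_step ρ D (t i) M v hv η (h7 i) (h8 i) h5 h6
    have e1 : Z {r | ∃ l : ℕ, ∃ m ∈ M, r = t i ^ l * m} ≤
        mu ρ D.τ v (fun χ => ¬ ∀ j, Tr1 (t i) M j χ ∧ Tr2 (t i) M j χ) := by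
      refine mu_mono ρ D.τ v _ _ fun χ hχ hcon => hχ ⟨?_, ?_⟩
      · rintro r ⟨l, m, hm, rfl⟩
        exact (hcon (l + 1)).1 l (by omega) m hm
      · rintro r ⟨l, m, hm, rfl⟩
        exact (hcon (l + 1)).2 l (by omega) m hm
    have e2 : mu ρ D.τ v (fun χ => ¬ (Tr1 (t i) M 1 χ ∧ Tr2 (t i) M 1 χ)) ≤ Z M := by
      refine mu_mono ρ D.τ v _ _ fun χ hχ hcon => hχ ⟨?_, ?_⟩
      · intro k hk r hr
        have : k = 0 := by omega
        subst this
        rw [pow_zero, one_mul]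
        exact hcon.1 r hr
      · intro k hk r hr
        have : k = 0 := by omega
        subst this
        rw [pow_zero, one_mul]
        exact hcon.2 r hr
    linarith
  have z0 : Z M0 ≤ η / 2 := by
    have h := rel_base ρ D h2 v η h3 h4
    have e1 : Z M0 ≤ mu ρ D.τ v (fun χ => ¬ (χ (1, 0) = 1 ∧ χ (0, 1) = 1)) := by
      refine mu_mono ρ D.τ v _ _ fun χ hχ hcon => hχ ⟨?_, ?_⟩
      · intro r hr
        rw [hM0, Set.mem_singleton_iff] at hr
        rw [hr]; exact hcon.1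
      · intro r hr
        rw [hM0, Set.mem_singleton_iff] at hr
        rw [hr]; exact hcon.2
    have e2 : η ^ 2 ≤ η := by nlinarith
    linarith
  have z1 := step 0 M0
  have z2 := step 1 M1
  have z3 := step 2 M2
  have z4 : Z M3 ≤ 150 * η := by
    have z1' : Z M1 ≤ 3 * Z M0 + 10 * η := z1
    have z2' : Z M2 ≤ 3 * Z M1 + 10 * η := z2
    have z3' : Z M3 ≤ 3 * Z M2 + 10 * η := z3
    linarith
  rw [disp_formula ρ D.τ D.τ_add u v]
  have hb : ∑ χ : AddChar (R × R) ℂ, ‖χ u - 1‖ ^ 2 * ‖Es ρ D.τ χ v‖ ^ 2 ≤ 4 * Z M3 := by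
    simp only [Z]
    unfold mu
    rw [Finset.mul_sum, Finset.sum_filter]
    refine Finset.sum_le_sum fun χ _ => ?_
    by_cases hχ : (∀ r ∈ M3, χ (r, 0) = 1) ∧ (∀ r ∈ M3, χ (0, r) = 1)
    · have : χ u = 1 := by
        refine chi_triv _ hgen χ ?_ ?_ u
        · rintro r ⟨i, j, k, rfl⟩
          exact hχ.1 _ ⟨k, _, ⟨j, _, ⟨i, 1, rfl, rfl⟩, rfl⟩, rfl⟩
        · rintro r ⟨i, j, k, rfl⟩
          exact hχ.2 _ ⟨k, _, ⟨j, _, ⟨i, 1, rfl, rfl⟩, rfl⟩, rfl⟩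
      rw [this, if_neg (not_not.2 hχ)]; simp
    · rw [if_pos hχ]
      rcases chi_val h2 χ u with h | h
      · rw [h]
        have h9 : (0 : ℝ) ≤ ‖Es ρ D.τ χ v‖ ^ 2 := by positivity
        simp
      · rw [h]
        have h9 : ‖(-1 : ℂ) - 1‖ = 2 := by norm_num
        rw [h9]; norm_num
  linarith

end

end

end Pool.Agent.K1H7.EP
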