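import Pool.Agent.K1H7.EP.Iso

/-!
Existence of slots.
-/

namespace Pool.Agent.K1H7.EP
open Finset

lemma sidon {a b c d : ℕ} (h : 8 ^ a + 8 ^ b = 8 ^ c + 8 ^ d) (hbd : b ≠ d) : a = d := by
  have lt : ∀ {x y : ℕ}, 8 ^ x < 8 ^ y → x < y := fun h => (Nat.pow_lt_pow_iff_right (by norm_num)).1 h
  have big : ∀ {x y z : ℕ}, x < z → y < z → 8 ^ x + 8 ^ y < 8 ^ z := by
    intro x y z hx hy
    obtain ⟨w, rfl⟩ : ∃ w, z = w + 1 := ⟨z - 1, by omega⟩
    have h1 : 8 ^ x ≤ 8 ^ w := Nat.pow_le_pow_right (by norm_num) (by omega)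
    have h2 : 8 ^ y ≤ 8 ^ w := Nat.pow_le_pow_right (by norm_num) (by omega)
    have h3 : 0 < 8 ^ w := by positivity
    rw [pow_succ]; omega
  have pos : ∀ x : ℕ, 0 < 8 ^ x := fun x => by positivity
  have pa := pos a
  have pb := pos b
  have pc := pos c
  have pd := pos d
  rcases lt_or_gt_of_ne hbd with hlt | hlt
  · have h1 : 8 ^ b < 8 ^ d := (Nat.pow_lt_pow_iff_right (by norm_num)).2 hlt
    have h2 : c < a := lt (by omega)
    rcases lt_trichotomy a d with h3 | h3 | h3
    · have := big h3 hlt; omega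
    · exact h3
    · have := big h2 h3; omega
  · have h1 : 8 ^ d < 8 ^ b := (Nat.pow_lt_pow_iff_right (by norm_num)).2 hlt
    have h2 : a < c := lt (by omega)
    rcases lt_trichotomy b c with h3 | h3 | h3
    · have := big h2 h3; omega
    · subst h3
      exact Nat.pow_right_injective (le_refl 2 |>.trans (by norm_num)) (by omega : 8 ^ a = 8 ^ d)
    · have := big h3 hlt; omega

theorem slots_exist (K : ℕ) : ∃ (M D : ℕ) (τ : Fin K × Fin 4 → ZMod M), Odd M ∧ 2 * D ≤ M ∧
    3 ≤ M ∧ Slots τ ∧ ∀ l (i : Fin 3), (τ l + ((i : ℕ) : ZMod M)).val < D := by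
  obtain ⟨N, hN⟩ : ∃ N, N = 8 ^ (4 * K) := ⟨_, rfl⟩
  obtain ⟨M, hM⟩ : ∃ M, M = 4 * N + 7 := ⟨_, rfl⟩
  obtain ⟨t, ht⟩ : ∃ t : Fin K × Fin 4 → ℕ, t = fun l => 8 ^ (1 + (4 * (l.1 : ℕ) + (l.2 : ℕ))) :=
    ⟨_, rfl⟩
  have htN : ∀ l, t l ≤ N := by
    intro l
    rw [ht, hN]
    refine Nat.pow_le_pow_right (by norm_num) ?_
    have h1 := l.1.isLt
    have h2 := l.2.isLt
    omega
  have hcode : ∀ l l' : Fin K × Fin 4, 1 + (4 * (l.1 : ℕ) + (l.2 : ℕ)) =
      1 + (4 * (l'.1 : ℕ) + (l'.2 : ℕ)) → l = l' := by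
    intro l l' h
    have h1 := l.2.isLt
    have h2 := l'.2.isLt
    ext
    · omega
    · omega
  have ht8 : ∀ l, t l % 8 = 0 := by
    intro l
    rw [ht]
    simp only
    rw [add_comm 1, pow_succ]
    omega
  have cast : ∀ {x y : ℕ}, x < M → y < M → (x : ZMod M) = y → x = y := by
    intro x y hx hy h
    have := congrArg ZMod.val h
    rwa [ZMod.val_natCast_of_lt hx, ZMod.val_natCast_of_lt hy] at this
  have : NeZero M := ⟨by omega⟩
  refine ⟨M, N + 3, fun l => (t l : ZMod M), ⟨2 * N + 3, by omega⟩, by omega, by omega, ?_, ?_⟩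
  · constructor
    · intro l l' i i' h
      have h1 := htN l
      have h2 := htN l'
      have h3 := i.isLt
      have h4 := i'.isLt
      have h5 := ht8 l
      have h6 := ht8 l'
      have h7 : t l + (i : ℕ) = t l' + (i' : ℕ) := by
        refine cast (by omega) (by omega) ?_
        push_cast
        exact h
      have h8 : (i : ℕ) = i' := by omega
      have h9 : t l = t l' := by omega
      refine ⟨hcode _ _ ?_, Fin.ext h8⟩
      rw [ht] at h9
      exact Nat.pow_right_injective (le_refl 2 |>.trans (by norm_num)) h9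
    · intro l m l₀ m₀ i i' hne h
      have h1 := htN l
      have h2 := htN m
      have h1' := htN l₀
      have h2' := htN m₀
      have h3 := i.isLt
      have h4 := i'.isLt
      have h5 := ht8 l
      have h6 := ht8 m
      have h5' := ht8 l₀
      have h6' := ht8 m₀
      have h7 : t l + (i : ℕ) + t m₀ = t m + (i' : ℕ) + t l₀ := by
        refine cast (by omega) (by omega) ?_
        push_cast
        rw [h]
        ring
      have h8 : t l + t m₀ = t m + t l₀ := by omega
      rw [ht] at h8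
      simp only at h8
      have h9 := sidon h8 (fun h' => hne (hcode _ _ h').symm)
      exact hcode _ _ h9
  · intro l i
    have h1 := htN l
    have h3 := i.isLt
    rw [← Nat.cast_add, ZMod.val_natCast_of_lt (by omega)]
    omega

end Pool.Agent.K1H7.EP
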