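import Mathlib

/-!
Spectral measure of a vector for a finite abelian group of unitary operators, and how it changes
under operators which normalise the group.
-/

namespace Pool.Agent.K1H7.EP
open Finset
open scoped InnerProductSpace ComplexConjugate

noncomputable section

section Spec
variable {A : Type} [AddCommGroup A] [Fintype A]
variable {G : Type*} [Group G]
variable {V : Type*} [NormedAddCommGroup V] [InnerProductSpace ℂ V]

/-- spectral component of `v` for the character `χ` -/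
def Es (ρ : G →* (V ≃ₗᵢ[ℂ] V)) (τ : A → G) (χ : AddChar A ℂ) (v : V) : V :=
  (1 / (Fintype.card A : ℂ)) • ∑ a, (conj (χ a)) • ρ (τ a) v

variable (ρ : G →* (V ≃ₗᵢ[ℂ] V)) (τ : A → G) (hτ : ∀ a b, τ (a + b) = τ a * τ b)

lemma Es_sub (χ : AddChar A ℂ) (v w : V) : Es ρ τ χ (v - w) = Es ρ τ χ v - Es ρ τ χ w := by
  unfold Es
  rw [← smul_sub, ← Finset.sum_sub_distrib]
  congr 1
  refine Finset.sum_congr rfl fun a _ => ?_
  rw [map_sub, smul_sub]

lemma Es_smul (χ : AddChar A ℂ) (c : ℂ) (v : V) : Es ρ τ χ (c • v) = c • Es ρ τ χ v := by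
  unfold Es
  rw [smul_comm c, Finset.smul_sum (r := c)]
  congr 1
  refine Finset.sum_congr rfl fun a _ => ?_
  rw [map_smul, smul_comm]

lemma card_ne : (Fintype.card A : ℂ) ≠ 0 := by
  have : 0 < Fintype.card A := Fintype.card_pos_iff.2 ⟨0⟩
  exact_mod_cast this.ne'

/-- Parseval -/
lemma Es_parseval (v : V) : ∑ χ : AddChar A ℂ, ‖Es ρ τ χ v‖ ^ 2 = ‖v‖ ^ 2 := by
  classical
  have h0 := card_ne (A := A)
  have key : ∀ χ : AddChar A ℂ, ((‖Es ρ τ χ v‖ ^ 2 : ℝ) : ℂ) =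
      (1 / (Fintype.card A : ℂ) ^ 2) * ∑ a, ∑ b, χ (a - b) * ⟪ρ (τ a) v, ρ (τ b) v⟫_ℂ := by
    intro χ
    have h1 : ((‖Es ρ τ χ v‖ ^ 2 : ℝ) : ℂ) = ⟪Es ρ τ χ v, Es ρ τ χ v⟫_ℂ := by
      rw [inner_self_eq_norm_sq_to_K]; push_cast; rfl
    rw [h1]
    unfold Es
    rw [inner_smul_left, inner_smul_right, sum_inner]
    have h2 : ∀ a, ⟪(conj (χ a)) • ρ (τ a) v, ∑ b, (conj (χ b)) • ρ (τ b) v⟫_ℂ =
        ∑ b, χ (a - b) * ⟪ρ (τ a) v, ρ (τ b) v⟫_ℂ := by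
      intro a
      rw [inner_sum]
      refine Finset.sum_congr rfl fun b _ => ?_
      rw [inner_smul_left, inner_smul_right, Complex.conj_conj, ← mul_assoc, sub_eq_add_neg,
        AddChar.map_add_eq_mul, AddChar.map_neg_eq_conj]
    rw [Finset.sum_congr rfl fun a _ => h2 a]
    rw [← mul_assoc]
    congr 1
    simp only [map_div₀, map_one, map_natCast]
    field_simp
  have h3 : ((∑ χ : AddChar A ℂ, ‖Es ρ τ χ v‖ ^ 2 : ℝ) : ℂ) = ((‖v‖ ^ 2 : ℝ) : ℂ) := by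
    push_cast
    have h4 : ∀ χ : AddChar A ℂ, ((‖Es ρ τ χ v‖ : ℂ)) ^ 2 =
      (1 / (Fintype.card A : ℂ) ^ 2) * ∑ a, ∑ b, χ (a - b) * ⟪ρ (τ a) v, ρ (τ b) v⟫_ℂ := by
      intro χ
      rw [← key χ]; push_cast; rfl
    rw [Finset.sum_congr rfl fun χ _ => h4 χ, ← Finset.mul_sum, Finset.sum_comm]
    have h5 : ∀ a : A, ∑ χ : AddChar A ℂ, ∑ b, χ (a - b) * ⟪ρ (τ a) v, ρ (τ b) v⟫_ℂ =
        (Fintype.card A : ℂ) * ((‖v‖ : ℂ) ^ 2) := by
      intro a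
      rw [Finset.sum_comm]
      have h6 : ∀ b : A, ∑ χ : AddChar A ℂ, χ (a - b) * ⟪ρ (τ a) v, ρ (τ b) v⟫_ℂ =
          if a = b then (Fintype.card A : ℂ) * ((‖v‖ : ℂ) ^ 2) else 0 := by
        intro b
        rw [← Finset.sum_mul, AddChar.sum_apply_eq_ite]
        by_cases hab : a = b
        · subst hab
          simp only [sub_self, if_true]
          rw [(ρ (τ a)).inner_map_map, inner_self_eq_norm_sq_to_K]
          rfl
        · rw [if_neg (sub_ne_zero.2 hab), if_neg hab, zero_mul]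
      rw [Finset.sum_congr rfl fun b _ => h6 b]
      simp
    rw [Finset.sum_congr rfl fun a _ => h5 a, Finset.sum_const, Finset.card_univ, nsmul_eq_mul]
    field_simp
  exact_mod_cast h3

include hτ in
lemma Es_tau (χ : AddChar A ℂ) (a : A) (v : V) :
    Es ρ τ χ (ρ (τ a) v) = χ a • Es ρ τ χ v := by
  unfold Es
  rw [smul_comm (χ a), Finset.smul_sum (r := χ a)]
  congr 1
  rw [← Equiv.sum_comp (Equiv.addRight a) (fun b => χ a • (conj (χ b)) • ρ (τ b) v)]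
  refine Finset.sum_congr rfl fun b _ => ?_
  simp only [Equiv.coe_addRight]
  have h1 : ρ (τ (b + a)) v = ρ (τ b) (ρ (τ a) v) := by
    rw [hτ, map_mul]; rfl
  rw [h1, smul_smul, AddChar.map_add_eq_mul, map_mul]
  congr 1
  have h2 : χ a * conj (χ a) = 1 := by
    rw [← AddChar.map_neg_eq_conj, ← AddChar.map_add_eq_mul, add_neg_cancel,
      AddChar.map_zero_eq_one]
  linear_combination (-(conj (χ b))) * h2

include hτ in
/-- displacement formula -/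
lemma disp_formula (a : A) (v : V) :
    ‖ρ (τ a) v - v‖ ^ 2 = ∑ χ : AddChar A ℂ, ‖χ a - 1‖ ^ 2 * ‖Es ρ τ χ v‖ ^ 2 := by
  rw [← Es_parseval ρ τ (ρ (τ a) v - v)]
  refine Finset.sum_congr rfl fun χ _ => ?_
  have h1 : χ a • Es ρ τ χ v - Es ρ τ χ v = (χ a - 1) • Es ρ τ χ v := by
    rw [sub_smul, one_smul]
  rw [Es_sub, Es_tau ρ τ hτ, h1, norm_smul, mul_pow]

/-- an operator which normalises the group -/
lemma Es_conj (g : G) (θ : A ≃+ A) (hg : ∀ a, g * τ a = τ (θ a) * g) (χ : AddChar A ℂ) (v : V) :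
    Es ρ τ χ (ρ g v) = ρ g (Es ρ τ (χ.compAddMonoidHom θ.toAddMonoidHom) v) := by
  unfold Es
  rw [map_smul, map_sum]
  congr 1
  rw [← Equiv.sum_comp θ.toEquiv]
  refine Finset.sum_congr rfl fun b _ => ?_
  rw [map_smul]
  have h1 : ρ (τ (θ.toEquiv b)) (ρ g v) = ρ g (ρ (τ b) v) := by
    have : (ρ (τ (θ.toEquiv b)) * ρ g) v = (ρ g * ρ (τ b)) v := by
      rw [← map_mul, ← map_mul]
      rw [hg b]; rfl
    exact this
  rw [h1]
  rfl

open Classical in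
/-- the spectral measure -/
def mu (v : V) (P : AddChar A ℂ → Prop) : ℝ := ∑ χ with P χ, ‖Es ρ τ χ v‖ ^ 2

lemma mu_nonneg (v : V) (P : AddChar A ℂ → Prop) : 0 ≤ mu ρ τ v P := by
  classical
  exact Finset.sum_nonneg fun _ _ => by positivity

lemma mu_mono (v : V) (P Q : AddChar A ℂ → Prop) (h : ∀ χ, P χ → Q χ) :
    mu ρ τ v P ≤ mu ρ τ v Q := by
  classical
  refine Finset.sum_le_sum_of_subset_of_nonneg ?_ fun _ _ _ => by positivity
  intro χ hχ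
  simp only [Finset.mem_filter, Finset.mem_univ, true_and] at hχ ⊢
  exact h χ hχ

lemma mu_or (v : V) (P Q : AddChar A ℂ → Prop) :
    mu ρ τ v (fun χ => P χ ∨ Q χ) ≤ mu ρ τ v P + mu ρ τ v Q := by
  classical
  unfold mu
  simp only [Finset.filter_or]
  have := Finset.sum_union_inter (s₁ := (univ : Finset (AddChar A ℂ)).filter P)
    (s₂ := (univ : Finset (AddChar A ℂ)).filter Q) (f := fun χ => ‖Es ρ τ χ v‖ ^ 2)
  have h2 : 0 ≤ ∑ χ ∈ (univ : Finset (AddChar A ℂ)).filter P ∩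
      (univ : Finset (AddChar A ℂ)).filter Q, ‖Es ρ τ χ v‖ ^ 2 :=
    Finset.sum_nonneg fun _ _ => by positivity
  linarith

lemma mu_cmp (v w : V) (hvw : ‖w‖ = ‖v‖) (P : AddChar A ℂ → Prop) :
    mu ρ τ v P ≤ mu ρ τ w P + 2 * (‖v‖ * ‖v - w‖) := by
  classical
  unfold mu
  have h1 : ∑ χ : AddChar A ℂ with P χ, ‖Es ρ τ χ v‖ ^ 2 -
      ∑ χ : AddChar A ℂ with P χ, ‖Es ρ τ χ w‖ ^ 2 ≤
      ∑ χ : AddChar A ℂ with P χ, ‖Es ρ τ χ (v - w)‖ * (‖Es ρ τ χ v‖ + ‖Es ρ τ χ w‖) := by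
    rw [← Finset.sum_sub_distrib]
    refine Finset.sum_le_sum fun χ _ => ?_
    rw [Es_sub]
    have h2 := norm_sub_norm_le (Es ρ τ χ v) (Es ρ τ χ w)
    have h3 : 0 ≤ ‖Es ρ τ χ v‖ + ‖Es ρ τ χ w‖ := by positivity
    nlinarith
  have h4 : (∑ χ : AddChar A ℂ with P χ,
      ‖Es ρ τ χ (v - w)‖ * (‖Es ρ τ χ v‖ + ‖Es ρ τ χ w‖)) ^ 2 ≤
      (2 * (‖v‖ * ‖v - w‖)) ^ 2 := by
    refine (Finset.sum_mul_sq_le_sq_mul_sq _ _ _).trans ?_
    have h5 : ∑ χ : AddChar A ℂ with P χ, ‖Es ρ τ χ (v - w)‖ ^ 2 ≤ ‖v - w‖ ^ 2 := by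
      rw [← Es_parseval ρ τ (v - w)]
      exact Finset.sum_le_sum_of_subset_of_nonneg (Finset.filter_subset _ _)
        fun _ _ _ => by positivity
    have h6 : ∑ χ : AddChar A ℂ with P χ, (‖Es ρ τ χ v‖ + ‖Es ρ τ χ w‖) ^ 2 ≤ 4 * ‖v‖ ^ 2 := by
      have h7 : ∑ χ : AddChar A ℂ with P χ, (‖Es ρ τ χ v‖ + ‖Es ρ τ χ w‖) ^ 2 ≤
          ∑ χ : AddChar A ℂ, 2 * (‖Es ρ τ χ v‖ ^ 2 + ‖Es ρ τ χ w‖ ^ 2) := by
        refine (Finset.sum_le_sum_of_subset_of_nonneg (Finset.filter_subset _ _)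
          fun _ _ _ => by positivity).trans ?_
        refine Finset.sum_le_sum fun χ _ => ?_
        nlinarith [sq_nonneg (‖Es ρ τ χ v‖ - ‖Es ρ τ χ w‖)]
      rw [← Finset.mul_sum, Finset.sum_add_distrib, Es_parseval, Es_parseval, hvw] at h7
      linarith
    have h8 : 0 ≤ ∑ χ : AddChar A ℂ with P χ, (‖Es ρ τ χ v‖ + ‖Es ρ τ χ w‖) ^ 2 :=
      Finset.sum_nonneg fun _ _ => by positivity
    calc _ ≤ ‖v - w‖ ^ 2 * (4 * ‖v‖ ^ 2) := by gcongr
      _ = _ := by ring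
  have h9 := abs_le_of_sq_le_sq' h4 (by positivity)
  linarith [h9.2]

/-- sets which are mapped into each other by a nearly invariant automorphism -/
lemma mu_push (g : G) (θ : A ≃+ A) (hg : ∀ a, g * τ a = τ (θ a) * g) (v : V)
    (P Q : AddChar A ℂ → Prop)
    (h : ∀ χ, P χ → Q (χ.compAddMonoidHom θ.toAddMonoidHom)) (η : ℝ) (hv : ‖v‖ = 1)
    (hη : ‖ρ g v - v‖ ≤ η) :
    mu ρ τ v P ≤ mu ρ τ v Q + 2 * η := by
  classical
  have h1 := mu_cmp ρ τ v (ρ g v) ((ρ g).norm_map v) P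
  rw [hv, one_mul, norm_sub_rev] at h1
  have h2 : mu ρ τ (ρ g v) P ≤ mu ρ τ v Q := by
    unfold mu
    have e1 : ∀ χ : AddChar A ℂ, ‖Es ρ τ χ (ρ g v)‖ ^ 2 =
        ‖Es ρ τ (χ.compAddMonoidHom θ.toAddMonoidHom) v‖ ^ 2 := by
      intro χ
      rw [Es_conj ρ τ g θ hg, (ρ g).norm_map]
    rw [Finset.sum_congr rfl fun χ _ => e1 χ]
    have hinj : Function.Injective
        (fun χ : AddChar A ℂ => χ.compAddMonoidHom θ.toAddMonoidHom) := by
      intro χ χ' h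
      ext a
      have := DFunLike.congr_fun h (θ.symm a)
      simpa using this
    rw [← Finset.sum_image (f := fun χ => ‖Es ρ τ χ v‖ ^ 2)
      (g := fun χ : AddChar A ℂ => χ.compAddMonoidHom θ.toAddMonoidHom)
      (fun x _ y _ hxy => hinj hxy)]
    refine Finset.sum_le_sum_of_subset_of_nonneg ?_ fun _ _ _ => by positivity
    intro χ hχ
    simp only [Finset.mem_image, Finset.mem_filter, Finset.mem_univ, true_and] at hχ ⊢
    obtain ⟨χ', h3, rfl⟩ := hχ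
    exact h _ h3
  linarith

end Spec

end

end Pool.Agent.K1H7.EP
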